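import Mathlib

/-!
# Weighted inequalities for the Gamma densities
-/

set_option autoImplicit false

namespace Pool.Agent.T2H47.KB

open MeasureTheory Set Filter Topology
open scoped ENNReal

/-- the Gamma density -/
noncomputable def q (m t : ℝ) : ℝ := t ^ m * Real.exp (-t)

theorem q_pos {m t : ℝ} (ht : 0 < t) : 0 < q m t :=
  mul_pos (Real.rpow_pos_of_pos ht m) (Real.exp_pos _)

theorem q_deriv {m t : ℝ} (ht : 0 < t) : HasDerivAt (q m) ((m / t - 1) * q m t) t := by
  have h1 : HasDerivAt (fun t : ℝ => t ^ m) (m * t ^ (m - 1)) t :=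
    Real.hasDerivAt_rpow_const (Or.inl ht.ne')
  have h2 : HasDerivAt (fun t : ℝ => Real.exp (-t)) (-Real.exp (-t)) t := by
    have := (hasDerivAt_neg t).exp
    simpa using this
  have h3 := h1.mul h2
  refine h3.congr_deriv ?_
  unfold q
  rw [Real.rpow_sub_one ht.ne']
  field_simp
  ring

theorem q_cont {m : ℝ} : ContinuousOn (q m) (Ioi 0) := fun _ ht =>
  (q_deriv ht).continuousAt.continuousWithinAt

theorem q_meas (m : ℝ) : Measurable (q m) := by
  unfold q
  fun_prop

/-- Cauchy-Schwarz -/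
theorem cs {m : ℝ} (hm : 0 < m) {g g' : ℝ → ℝ} (hg : ∀ t, 0 < t → HasDerivAt g (g' t) t)
    (hc : ContinuousOn g' (Ioi 0)) {x y : ℝ} (hx : 0 < x) (hxy : x ≤ y) :
    (g y - g x) ^ 2 ≤ (m / x - m / y) * ∫ s in x..y, s ^ 2 * g' s ^ 2 / m := by
  rcases hxy.eq_or_lt with rfl | hlt
  · simp
  have hy : 0 < y := hx.trans hlt
  have hsub : uIcc x y ⊆ Ioi 0 := by
    rw [uIcc_of_le hxy]
    exact fun s hs => hx.trans_le hs.1
  have hc' : ContinuousOn g' (uIcc x y) := hc.mono hsub
  have hne : ∀ s ∈ uIcc x y, s ≠ 0 := fun s hs => (hsub hs).ne'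
  have i1 : IntervalIntegrable g' volume x y := hc'.intervalIntegrable
  have c2 : ContinuousOn (fun s : ℝ => m / s ^ 2) (uIcc x y) :=
    continuousOn_const.div (continuousOn_id.pow 2) fun s hs => pow_ne_zero 2 (hne s hs)
  have i2 : IntervalIntegrable (fun s : ℝ => m / s ^ 2) volume x y := c2.intervalIntegrable
  have c3 : ContinuousOn (fun s : ℝ => s ^ 2 * g' s ^ 2 / m) (uIcc x y) :=
    ((continuousOn_id.pow 2).mul (hc'.pow 2)).div_const m
  have i3 : IntervalIntegrable (fun s : ℝ => s ^ 2 * g' s ^ 2 / m) volume x y :=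
    c3.intervalIntegrable
  have e1 : ∫ s in x..y, g' s = g y - g x :=
    intervalIntegral.integral_eq_sub_of_hasDerivAt (fun s hs => hg s (hsub hs)) i1
  have e2 : ∫ s in x..y, m / s ^ 2 = m / x - m / y := by
    have h1 : ∀ s ∈ uIcc x y, HasDerivAt (fun s : ℝ => -(m / s)) (m / s ^ 2) s := by
      intro s hs
      have := ((hasDerivAt_inv (hne s hs)).const_mul m).neg
      refine this.congr_deriv ?_
      ring
    rw [intervalIntegral.integral_eq_sub_of_hasDerivAt h1 i2]
    ring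
  obtain ⟨a, ha⟩ : ∃ a, a = m / x - m / y := ⟨_, rfl⟩
  obtain ⟨b, hb⟩ : ∃ b, b = ∫ s in x..y, s ^ 2 * g' s ^ 2 / m := ⟨_, rfl⟩
  obtain ⟨G, hG⟩ : ∃ G, G = g y - g x := ⟨_, rfl⟩
  have ha0 : 0 < a := by
    rw [ha, sub_pos]
    exact div_lt_div_of_pos_left hm hx hlt
  rw [← hG, ← ha, ← hb]
  rw [← hG] at e1
  rw [← ha] at e2
  have key : 0 ≤ ∫ s in x..y, (s ^ 2 * g' s ^ 2 / m - 2 * (G / a) * g' s + (G / a) ^ 2 * (m / s ^ 2)) := by
    refine intervalIntegral.integral_nonneg hxy fun s hs => ?_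
    have hs0 : 0 < s := hx.trans_le hs.1
    have : s ^ 2 * g' s ^ 2 / m - 2 * (G / a) * g' s + (G / a) ^ 2 * (m / s ^ 2) =
        (s * g' s - G / a * (m / s)) ^ 2 / m := by
      field_simp
      ring
    rw [this]
    positivity
  rw [intervalIntegral.integral_add (i3.sub (i1.const_mul _)) (i2.const_mul _),
    intervalIntegral.integral_sub i3 (i1.const_mul _), intervalIntegral.integral_const_mul,
    intervalIntegral.integral_const_mul, e1, e2, ← hb] at key
  have h4 : b - 2 * (G / a) * G + (G / a) ^ 2 * a = b - G ^ 2 / a := by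
    field_simp
    ring
  rw [h4, sub_nonneg, div_le_iff₀ ha0] at key
  linarith

/-- **Brascamp-Lieb inequality centred at the mode**, on a compact interval -/
theorem inner_real {m b ε : ℝ} (hm : 0 < m) (hb : m ≤ b) (hε : 0 < ε) (hεm : ε ≤ m)
    {g g' : ℝ → ℝ} (hg : ∀ t, 0 < t → HasDerivAt g (g' t) t) (hc : ContinuousOn g' (Ioi 0)) :
    ∫ t in ε..b, (g t - g m) ^ 2 * q m t ≤ ∫ t in ε..b, t ^ 2 * g' t ^ 2 / m * q m t := by
  obtain ⟨W, hW⟩ : ∃ W : ℝ → ℝ, W = fun s => s ^ 2 * g' s ^ 2 / m := ⟨_, rfl⟩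
  have hWc : ContinuousOn W (Ioi 0) := by
    rw [hW]
    exact ((continuousOn_id.pow 2).mul (hc.pow 2)).div_const m
  have hW0 : ∀ s, 0 ≤ W s := fun s => by rw [hW]; positivity
  obtain ⟨Ψ, hΨ⟩ : ∃ Ψ : ℝ → ℝ, Ψ = fun t => ∫ s in m..t, W s := ⟨_, rfl⟩
  have hεb : ε ≤ b := hεm.trans hb
  have hsub : uIcc ε b ⊆ Ioi 0 := by
    rw [uIcc_of_le hεb]
    exact fun s hs => hε.trans_le hs.1
  have hii : ∀ x y : ℝ, 0 < x → 0 < y → IntervalIntegrable W volume x y := by
    intro x y hx hy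
    refine (hWc.mono ?_).intervalIntegrable
    intro s hs
    exact (lt_min hx hy).trans_le hs.1
  have hΨd : ∀ t, 0 < t → HasDerivAt Ψ (W t) t := by
    intro t ht
    rw [hΨ]
    exact intervalIntegral.integral_hasDerivAt_right (hii m t hm ht)
      (hWc.stronglyMeasurableAtFilter isOpen_Ioi t ht) (hWc.continuousAt (isOpen_Ioi.mem_nhds ht))
  have hpt : ∀ t, 0 < t → (g t - g m) ^ 2 ≤ (1 - m / t) * Ψ t := by
    intro t ht
    rcases le_total m t with h | h
    · have := cs hm hg hc hm h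
      rw [div_self hm.ne'] at this
      rw [hΨ, hW]
      exact this
    · have := cs hm hg hc ht h
      rw [div_self hm.ne'] at this
      have e : Ψ t = -∫ s in t..m, s ^ 2 * g' s ^ 2 / m := by
        rw [hΨ, hW]
        exact (intervalIntegral.integral_symm _ _)
      rw [e]
      nlinarith
  have hgc : ContinuousOn g (Ioi 0) := fun t ht => (hg t ht).continuousAt.continuousWithinAt
  have hΨc : ContinuousOn Ψ (Ioi 0) := fun t ht => (hΨd t ht).continuousAt.continuousWithinAt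
  have c1 : ContinuousOn (fun t => (g t - g m) ^ 2 * q m t) (uIcc ε b) :=
    (((hgc.sub continuousOn_const).pow 2).mul q_cont).mono hsub
  have c2 : ContinuousOn (fun t => W t * q m t) (uIcc ε b) := (hWc.mul q_cont).mono hsub
  have cd : ContinuousOn (fun t : ℝ => (m / t - 1) * q m t) (Ioi 0) :=
    ((continuousOn_const.div continuousOn_id fun s hs => ne_of_gt hs).sub
      continuousOn_const).mul q_cont
  have c3 : ContinuousOn (fun t => W t * q m t + Ψ t * ((m / t - 1) * q m t)) (uIcc ε b) :=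
    c2.add ((hΨc.mul cd).mono hsub)
  have hF : ∫ t in ε..b, (W t * q m t + Ψ t * ((m / t - 1) * q m t)) =
      Ψ b * q m b - Ψ ε * q m ε :=
    intervalIntegral.integral_eq_sub_of_hasDerivAt
      (fun t ht => (hΨd t (hsub ht)).mul (q_deriv (hsub ht))) c3.intervalIntegrable
  have hΨb : 0 ≤ Ψ b := by
    rw [hΨ]
    exact intervalIntegral.integral_nonneg hb fun s _ => hW0 s
  have hΨε : Ψ ε ≤ 0 := by
    have e : Ψ ε = -∫ s in ε..m, W s := by
      rw [hΨ]
      exact intervalIntegral.integral_symm _ _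
    rw [e, neg_nonpos]
    exact intervalIntegral.integral_nonneg hεm fun s _ => hW0 s
  have hqb := (q_pos (m := m) (hm.trans_le hb)).le
  have hqε := (q_pos (m := m) hε).le
  have hF0 : 0 ≤ ∫ t in ε..b, (W t * q m t + Ψ t * ((m / t - 1) * q m t)) := by
    rw [hF]
    nlinarith [mul_nonneg hΨb hqb, mul_nonneg (neg_nonneg.2 hΨε) hqε]
  have hle : ∫ t in ε..b, (g t - g m) ^ 2 * q m t ≤
      ∫ t in ε..b, (W t * q m t - (W t * q m t + Ψ t * ((m / t - 1) * q m t))) := by
    refine intervalIntegral.integral_mono_on hεb c1.intervalIntegrable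
      (c2.intervalIntegrable.sub c3.intervalIntegrable) fun t ht => ?_
    have ht0 : 0 < t := hε.trans_le ht.1
    have h1 := mul_le_mul_of_nonneg_right (hpt t ht0) (q_pos (m := m) ht0).le
    linarith
  rw [intervalIntegral.integral_sub c2.intervalIntegrable c3.intervalIntegrable] at hle
  have e3 : ∫ t in ε..b, t ^ 2 * g' t ^ 2 / m * q m t = ∫ t in ε..b, W t * q m t := by
    rw [hW]
  rw [e3]
  linarith

theorem lint_eq {a b : ℝ} (hab : a ≤ b) {f : ℝ → ℝ} (hf : ContinuousOn f (uIcc a b))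
    (h0 : ∀ t ∈ Ioc a b, 0 ≤ f t) :
    ∫⁻ t in Ioc a b, ENNReal.ofReal (f t) = ENNReal.ofReal (∫ t in a..b, f t) := by
  rw [intervalIntegral.integral_of_le hab, ofReal_integral_eq_lintegral_ofReal]
  · exact (intervalIntegrable_iff_integrableOn_Ioc_of_le hab).1 hf.intervalIntegrable
  · exact (ae_restrict_iff' measurableSet_Ioc).2 (Eventually.of_forall h0)

/-- **Brascamp-Lieb inequality centred at the mode** -/
theorem inner {m b : ℝ} (hm : 0 < m) (hb : m ≤ b)
    {g g' : ℝ → ℝ} (hg : ∀ t, 0 < t → HasDerivAt g (g' t) t) (hc : ContinuousOn g' (Ioi 0)) :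
    ∫⁻ t in Ioc 0 b, ENNReal.ofReal ((g t - g m) ^ 2 * q m t) ≤
      ∫⁻ t in Ioc 0 b, ENNReal.ofReal (t ^ 2 * g' t ^ 2 / m * q m t) := by
  have hU : Ioc 0 b = ⋃ n : ℕ, Ioc (m / (n + 1)) b := by
    ext t
    simp only [mem_Ioc, mem_iUnion]
    constructor
    · rintro ⟨h1, h2⟩
      obtain ⟨n, hn⟩ := exists_nat_gt (m / t)
      refine ⟨n, ?_, h2⟩
      rw [div_lt_iff₀ (by positivity)]
      rw [div_lt_iff₀ h1] at hn
      nlinarith
    · rintro ⟨n, h1, h2⟩
      exact ⟨lt_trans (by positivity) h1, h2⟩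
  have hd : Directed (· ⊆ ·) fun n : ℕ => Ioc (m / (n + 1)) b := by
    refine (monotone_nat_of_le_succ fun n => ?_).directed_le
    refine Ioc_subset_Ioc_left ?_
    apply div_le_div_of_nonneg_left hm.le (by positivity)
    push_cast
    linarith
  conv_lhs => rw [hU]
  rw [setLIntegral_iUnion_of_directed _ hd]
  refine iSup_le fun n => ?_
  have hε : 0 < m / (n + 1) := by positivity
  have hεm : m / (n + 1) ≤ m := div_le_self hm.le (by linarith [n.cast_nonneg (α := ℝ)])
  have hsub : uIcc (m / (n + 1)) b ⊆ Ioi 0 := by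
    rw [uIcc_of_le (hεm.trans hb)]
    exact fun s hs => hε.trans_le hs.1
  have hgc : ContinuousOn g (Ioi 0) := fun t ht => (hg t ht).continuousAt.continuousWithinAt
  have c1 : ContinuousOn (fun t => (g t - g m) ^ 2 * q m t) (uIcc (m / (n + 1)) b) :=
    (((hgc.sub continuousOn_const).pow 2).mul q_cont).mono hsub
  have c2 : ContinuousOn (fun t => t ^ 2 * g' t ^ 2 / m * q m t) (uIcc (m / (n + 1)) b) :=
    ((((continuousOn_id.pow 2).mul (hc.pow 2)).div_const m).mul q_cont).mono hsub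
  rw [lint_eq (hεm.trans hb) c1 fun t ht => mul_nonneg (sq_nonneg _) (q_pos (hε.trans ht.1)).le]
  refine (ENNReal.ofReal_le_ofReal (inner_real hm hb hε hεm hg hc)).trans ?_
  rw [← lint_eq (hεm.trans hb) c2 fun t ht => mul_nonneg (by positivity) (q_pos (hε.trans ht.1)).le]
  exact lintegral_mono_set (Ioc_subset_Ioc_left hε.le)

/-- Hardy inequality in the tail, on a compact interval -/
theorem outer_real {m T : ℝ} (hm : 0 < m) (hT : 2 * (m + 1) ≤ T)
    {h h' : ℝ → ℝ} (hh : ∀ t, 0 < t → HasDerivAt h (h' t) t) (hc : ContinuousOn h' (Ioi 0)) :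
    ∫ t in (2 * (m + 1))..T, h t ^ 2 * q m t ≤
      36 * (∫ t in (3 / 2 * (m + 1))..T, h' t ^ 2 * q m t) +
        12 / (m + 1) * ∫ t in (3 / 2 * (m + 1))..(2 * (m + 1)), h t ^ 2 * q m t := by
  obtain ⟨A, hA⟩ : ∃ A : ℝ, A = 3 / 2 * (m + 1) := ⟨_, rfl⟩
  obtain ⟨b, hb⟩ : ∃ b : ℝ, b = 2 * (m + 1) := ⟨_, rfl⟩
  rw [← hA, ← hb]
  rw [← hb] at hT
  have hA0 : 0 < A := by rw [hA]; positivity
  have hAb : A ≤ b := by rw [hA, hb]; linarith
  have hM : b - A = (m + 1) / 2 := by rw [hA, hb]; ring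
  have hhc : ContinuousOn h (Ioi 0) := fun t ht => (hh t ht).continuousAt.continuousWithinAt
  have hs1 : uIcc A b ⊆ Ioi 0 := by
    rw [uIcc_of_le hAb]
    exact fun s hs => hA0.trans_le hs.1
  have hs2 : uIcc b T ⊆ Ioi 0 := by
    rw [uIcc_of_le hT]
    exact fun s hs => (hA0.trans_le hAb).trans_le hs.1
  have cd : ContinuousOn (fun t : ℝ => (m / t - 1) * q m t) (Ioi 0) :=
    ((continuousOn_const.div continuousOn_id fun s hs => ne_of_gt hs).sub
      continuousOn_const).mul q_cont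
  have hq' : ∀ t, A ≤ t → (m / t - 1) * q m t ≤ -(1 / 3) * q m t := by
    intro t ht
    have ht0 : 0 < t := hA0.trans_le ht
    refine mul_le_mul_of_nonneg_right ?_ (q_pos ht0).le
    have : m / t ≤ 2 / 3 := by
      rw [div_le_iff₀ ht0]
      rw [hA] at ht
      linarith
    linarith
  -- the two pieces
  have hd1 : ∀ t ∈ uIcc A b, HasDerivAt (fun t => h t ^ 2 * q m t * (t - A))
      ((2 * h t * h' t * q m t + h t ^ 2 * ((m / t - 1) * q m t)) * (t - A) + h t ^ 2 * q m t) t := by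
    intro t ht
    have ht0 := hs1 ht
    have e1 := (((hh t ht0).pow 2).mul (q_deriv (m := m) ht0)).mul
      ((hasDerivAt_id t).sub_const A)
    refine e1.congr_deriv ?_
    simp only [Pi.mul_apply, Pi.pow_apply, id]
    push_cast
    ring
  have hd2 : ∀ t ∈ uIcc b T, HasDerivAt (fun t => h t ^ 2 * q m t)
      (2 * h t * h' t * q m t + h t ^ 2 * ((m / t - 1) * q m t)) t := by
    intro t ht
    have ht0 := hs2 ht
    have e1 := ((hh t ht0).pow 2).mul (q_deriv (m := m) ht0)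
    refine e1.congr_deriv ?_
    simp only [Pi.pow_apply]
    push_cast
    ring
  have cc : ContinuousOn (fun t => 2 * h t * h' t * q m t + h t ^ 2 * ((m / t - 1) * q m t)) (Ioi 0) :=
    (((continuousOn_const.mul hhc).mul hc).mul q_cont).add ((hhc.pow 2).mul cd)
  have cA : ContinuousOn (fun t : ℝ => t - A) (Ioi 0) := continuousOn_id.sub continuousOn_const
  have cq : ContinuousOn (fun t => h t ^ 2 * q m t) (Ioi 0) := (hhc.pow 2).mul q_cont
  have cp : ContinuousOn (fun t => h' t ^ 2 * q m t) (Ioi 0) := (hc.pow 2).mul q_cont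
  have I1 := intervalIntegral.integral_eq_sub_of_hasDerivAt hd1
    (((cc.mul cA).add cq).mono hs1).intervalIntegrable
  have I2 := intervalIntegral.integral_eq_sub_of_hasDerivAt hd2 (cc.mono hs2).intervalIntegrable
  -- estimates of the derivatives
  have E1 : ∫ t in A..b, ((2 * h t * h' t * q m t + h t ^ 2 * ((m / t - 1) * q m t)) * (t - A) +
      h t ^ 2 * q m t) ≤ ∫ t in A..b, (6 * (b - A) * (h' t ^ 2 * q m t) + h t ^ 2 * q m t) := by
    refine intervalIntegral.integral_mono_on hAb (((cc.mul cA).add cq).mono hs1).intervalIntegrable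
      (((continuousOn_const.mul cp).add cq).mono hs1).intervalIntegrable fun t ht => ?_
    have ht0 : 0 < t := hA0.trans_le ht.1
    have hq0 := (q_pos (m := m) ht0).le
    have h1 := mul_le_mul_of_nonneg_left (hq' t ht.1) (sq_nonneg (h t))
    have h2 : 2 * h t * h' t ≤ 1 / 6 * h t ^ 2 + 6 * h' t ^ 2 := by
      nlinarith [sq_nonneg (h t - 6 * h' t)]
    have h3 := mul_le_mul_of_nonneg_right h2 hq0
    have h4 : 2 * h t * h' t * q m t + h t ^ 2 * ((m / t - 1) * q m t) ≤ 6 * (h' t ^ 2 * q m t) := by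
      have : 0 ≤ h t ^ 2 * q m t := by positivity
      linarith
    have h5 := mul_le_mul_of_nonneg_right h4 (sub_nonneg.2 ht.1)
    have h6 : 6 * (h' t ^ 2 * q m t) * (t - A) ≤ 6 * (h' t ^ 2 * q m t) * (b - A) :=
      mul_le_mul_of_nonneg_left (by linarith [ht.2]) (by positivity)
    linarith
  have E2 : ∫ t in b..T, (2 * h t * h' t * q m t + h t ^ 2 * ((m / t - 1) * q m t)) ≤
      ∫ t in b..T, (6 * (h' t ^ 2 * q m t) - 1 / 6 * (h t ^ 2 * q m t)) := by
    refine intervalIntegral.integral_mono_on hT (cc.mono hs2).intervalIntegrable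
      (((continuousOn_const.mul cp).sub (continuousOn_const.mul cq)).mono hs2).intervalIntegrable
      fun t ht => ?_
    have ht0 : 0 < t := (hA0.trans_le hAb).trans_le ht.1
    have hq0 := (q_pos (m := m) ht0).le
    have h1 := mul_le_mul_of_nonneg_left (hq' t (hAb.trans ht.1)) (sq_nonneg (h t))
    have h2 : 2 * h t * h' t ≤ 1 / 6 * h t ^ 2 + 6 * h' t ^ 2 := by
      nlinarith [sq_nonneg (h t - 6 * h' t)]
    have h3 := mul_le_mul_of_nonneg_right h2 hq0
    linarith
  rw [I1] at E1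
  rw [I2] at E2
  have jp1 : IntervalIntegrable (fun t => h' t ^ 2 * q m t) volume A b :=
    (cp.mono hs1).intervalIntegrable
  have jp2 : IntervalIntegrable (fun t => h' t ^ 2 * q m t) volume b T :=
    (cp.mono hs2).intervalIntegrable
  have jq1 : IntervalIntegrable (fun t => h t ^ 2 * q m t) volume A b :=
    (cq.mono hs1).intervalIntegrable
  have jq2 : IntervalIntegrable (fun t => h t ^ 2 * q m t) volume b T :=
    (cq.mono hs2).intervalIntegrable
  rw [intervalIntegral.integral_add (jp1.const_mul _) jq1,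
    intervalIntegral.integral_const_mul] at E1
  rw [intervalIntegral.integral_sub (jp2.const_mul _) (jq2.const_mul _),
    intervalIntegral.integral_const_mul, intervalIntegral.integral_const_mul] at E2
  rw [← intervalIntegral.integral_add_adjacent_intervals (cp.mono hs1).intervalIntegrable
    (cp.mono hs2).intervalIntegrable]
  have hT0 : 0 ≤ h T ^ 2 * q m T := by
    have := (q_pos (m := m) ((hA0.trans_le hAb).trans_le hT)).le
    positivity
  rw [sub_self, mul_zero, sub_zero, hM] at E1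
  obtain ⟨X1, hX1⟩ : ∃ X, X = ∫ t in A..b, h' t ^ 2 * q m t := ⟨_, rfl⟩
  obtain ⟨X2, hX2⟩ : ∃ X, X = ∫ t in b..T, h' t ^ 2 * q m t := ⟨_, rfl⟩
  obtain ⟨Y1, hY1⟩ : ∃ X, X = ∫ t in A..b, h t ^ 2 * q m t := ⟨_, rfl⟩
  obtain ⟨Y2, hY2⟩ : ∃ X, X = ∫ t in b..T, h t ^ 2 * q m t := ⟨_, rfl⟩
  rw [← hX1, ← hY1] at E1
  rw [← hX2, ← hY2] at E2
  rw [← hX1, ← hX2, ← hY1, ← hY2]
  have hM0 : 0 < m + 1 := by positivity
  have E3 : h b ^ 2 * q m b ≤ 6 * X1 + 2 / (m + 1) * Y1 := by
    have : h b ^ 2 * q m b * ((m + 1) / 2) ≤ (6 * X1 + 2 / (m + 1) * Y1) * ((m + 1) / 2) := by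
      refine E1.trans (le_of_eq ?_)
      field_simp
    exact le_of_mul_le_mul_right this (by positivity)
  have e5 : 12 / (m + 1) * Y1 = 6 * (2 / (m + 1) * Y1) := by ring
  rw [e5]
  linarith

/-- **Hardy inequality in the tail** -/
theorem outer {m : ℝ} (hm : 0 < m)
    {h h' : ℝ → ℝ} (hh : ∀ t, 0 < t → HasDerivAt h (h' t) t) (hc : ContinuousOn h' (Ioi 0)) :
    ∫⁻ t in Ioi (2 * (m + 1)), ENNReal.ofReal (h t ^ 2 * q m t) ≤
      36 * (∫⁻ t in Ioi (3 / 2 * (m + 1)), ENNReal.ofReal (h' t ^ 2 * q m t)) +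
        12 * ∫⁻ t in Ioc 0 (2 * (m + 1)), ENNReal.ofReal (h t ^ 2 * q m t) := by
  have hM0 : 0 < m + 1 := by positivity
  have hhc : ContinuousOn h (Ioi 0) := fun t ht => (hh t ht).continuousAt.continuousWithinAt
  have hU : Ioi (2 * (m + 1)) = ⋃ n : ℕ, Ioc (2 * (m + 1)) (2 * (m + 1) + n) := by
    ext t
    simp only [mem_Ioc, mem_iUnion, mem_Ioi]
    constructor
    · intro h1
      obtain ⟨n, hn⟩ := exists_nat_gt (t - 2 * (m + 1))
      exact ⟨n, h1, by linarith⟩
    · rintro ⟨n, h1, h2⟩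
      exact h1
  have hd : Directed (· ⊆ ·) fun n : ℕ => Ioc (2 * (m + 1)) (2 * (m + 1) + n) := by
    refine (monotone_nat_of_le_succ fun n => ?_).directed_le
    refine Ioc_subset_Ioc_right ?_
    push_cast
    linarith
  rw [hU, setLIntegral_iUnion_of_directed _ hd]
  refine iSup_le fun n => ?_
  have hn : (0 : ℝ) ≤ n := n.cast_nonneg
  have key := outer_real (T := 2 * (m + 1) + n) hm (by linarith) hh hc
  have hs : ∀ x y : ℝ, 0 < x → x ≤ y → uIcc x y ⊆ Ioi 0 := by
    intro x y hx hxy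
    rw [uIcc_of_le hxy]
    exact fun s hs => hx.trans_le hs.1
  have cq : ContinuousOn (fun t => h t ^ 2 * q m t) (Ioi 0) := (hhc.pow 2).mul q_cont
  have cp : ContinuousOn (fun t => h' t ^ 2 * q m t) (Ioi 0) := (hc.pow 2).mul q_cont
  have nq : ∀ t, 0 < t → 0 ≤ h t ^ 2 * q m t := fun t ht => mul_nonneg (sq_nonneg _) (q_pos ht).le
  have np : ∀ t, 0 < t → 0 ≤ h' t ^ 2 * q m t := fun t ht => mul_nonneg (sq_nonneg _) (q_pos ht).le
  rw [lint_eq (by linarith) (cq.mono (hs _ _ (by positivity) (by linarith)))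
    fun t ht => nq t (lt_trans (by positivity) ht.1)]
  have i1 : 0 ≤ ∫ t in (3 / 2 * (m + 1))..(2 * (m + 1) + n), h' t ^ 2 * q m t :=
    intervalIntegral.integral_nonneg (by linarith) fun t ht =>
      np t (lt_of_lt_of_le (by positivity) ht.1)
  have i2 : 0 ≤ ∫ t in (3 / 2 * (m + 1))..(2 * (m + 1)), h t ^ 2 * q m t :=
    intervalIntegral.integral_nonneg (by linarith) fun t ht =>
      nq t (lt_of_lt_of_le (by positivity) ht.1)
  have h12 : 12 / (m + 1) ≤ 12 := div_le_self (by norm_num) (by linarith)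
  have key2 : ∫ t in (2 * (m + 1))..(2 * (m + 1) + n), h t ^ 2 * q m t ≤
      36 * (∫ t in (3 / 2 * (m + 1))..(2 * (m + 1) + n), h' t ^ 2 * q m t) +
        12 * ∫ t in (3 / 2 * (m + 1))..(2 * (m + 1)), h t ^ 2 * q m t :=
    key.trans (by nlinarith)
  refine (ENNReal.ofReal_le_ofReal key2).trans ?_
  rw [ENNReal.ofReal_add (by positivity) (by positivity), ENNReal.ofReal_mul (by norm_num),
    ENNReal.ofReal_mul (by norm_num)]
  have e36 : ENNReal.ofReal 36 = 36 := by norm_num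
  have e12 : ENNReal.ofReal 12 = 12 := by norm_num
  rw [e36, e12]
  refine add_le_add (mul_le_mul_right ?_ _) (mul_le_mul_right ?_ _)
  · rw [← lint_eq (by linarith) (cp.mono (hs _ _ (by positivity) (by linarith)))
      fun t ht => np t (lt_trans (by positivity) ht.1)]
    exact lintegral_mono_set Ioc_subset_Ioi_self
  · rw [← lint_eq (by linarith) (cq.mono (hs _ _ (by positivity) (by linarith)))
      fun t ht => nq t (lt_trans (by positivity) ht.1)]
    exact lintegral_mono_set (Ioc_subset_Ioc_left (by positivity))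

end Pool.Agent.T2H47.KB
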