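import Mathlib
import Pool.Agent.T2H47.KB.Gam
import Pool.Agent.R751.MB.Mxd
import Pool.Agent.R754.KG.B

/-!
# `exp (-Φ)` as a mixture of uniform measures
-/

set_option autoImplicit false

namespace Pool.Agent.T2H47.KB

open MeasureTheory Set Filter Topology
open scoped ENNReal InnerProductSpace
open Pool.Agent.R751.MB (Eu EW VW Adm AP Pow)
open Pool.Agent.R754.KG (un un_prob un_lint un_int)

variable {k : ℕ} {p : ℝ} {Φ : Eu (Fin k) → ℝ}

/-- scaling of the sublevel sets -/
theorem level (hp : 1 ≤ p) (h : Pow p Φ) (F : Eu (Fin k) → ℝ≥0∞) (hF : Measurable F) {t : ℝ}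
    (ht : 0 < t) :
    ∫⁻ x in {x | Φ x ≤ t}, F x =
      ENNReal.ofReal (t ^ ((k : ℝ) / p)) * ∫⁻ y in {x | Φ x ≤ 1}, F (t ^ (1 / p) • y) := by
  obtain ⟨r, hr⟩ : ∃ r : ℝ, r = t ^ (1 / p) := ⟨_, rfl⟩
  have hr0 : 0 < r := by rw [hr]; exact Real.rpow_pos_of_pos ht _
  have hrp : r ^ p = t := by
    rw [hr, ← Real.rpow_mul ht.le, one_div_mul_cancel (by linarith), Real.rpow_one]
  have hrk : r ^ k = t ^ ((k : ℝ) / p) := by
    rw [hr, ← Real.rpow_mul_natCast ht.le]
    congr 1
    ring
  have hm : MeasurableSet {x | Φ x ≤ 1} := measurableSet_le h.cont.measurable measurable_const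
  have hmt : MeasurableSet {x | Φ x ≤ t} := measurableSet_le h.cont.measurable measurable_const
  have e1 : ∀ y, {x | Φ x ≤ 1}.indicator (fun y => F (r • y)) y =
      {x | Φ x ≤ t}.indicator F (r • y) := by
    intro y
    have h1 : Φ (r • y) = t * Φ y := by rw [h.hom r y hr0, hrp]
    by_cases hy : Φ y ≤ 1
    · rw [indicator_of_mem (show y ∈ {x | Φ x ≤ 1} from hy), indicator_of_mem]
      show Φ (r • y) ≤ t
      rw [h1]
      nlinarith
    · rw [indicator_of_notMem (show y ∉ {x | Φ x ≤ 1} from hy), indicator_of_notMem]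
      show ¬ (Φ (r • y) ≤ t)
      rw [h1]
      push Not at hy ⊢
      nlinarith
  rw [← hr, ← lintegral_indicator hm, ← lintegral_indicator hmt, lintegral_congr e1, ← hrk]
  have h2 := lintegral_map (μ := (volume : Measure (Eu (Fin k))))
    (hF.indicator hmt) (measurable_const_smul r)
  rw [Measure.map_addHaar_smul (volume : Measure (Eu (Fin k))) hr0.ne', lintegral_smul_measure,
    finrank_euclideanSpace_fin, smul_eq_mul, abs_of_pos (by positivity)] at h2
  rw [← h2, ← mul_assoc, ← ENNReal.ofReal_mul (by positivity), mul_inv_cancel₀ (by positivity),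
    ENNReal.ofReal_one, one_mul]

/-- the mixture formula -/
theorem mix (hp : 1 ≤ p) (h : Pow p Φ) (F : Eu (Fin k) → ℝ≥0∞) (hF : Measurable F) :
    ∫⁻ x, F x * ENNReal.ofReal (Real.exp (-Φ x)) =
      ∫⁻ t in Ioi (0 : ℝ), ENNReal.ofReal (q ((k : ℝ) / p) t) *
        ∫⁻ y in {x | Φ x ≤ 1}, F (t ^ (1 / p) • y) := by
  have hΦm : Measurable Φ := h.cont.measurable
  have hmh : Measurable fun r : ℝ => ENNReal.ofReal (Real.exp (-r)) := by fun_prop
  have e1 : ∀ x, F x * ENNReal.ofReal (Real.exp (-Φ x)) =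
      ∫⁻ r in Ioi (0 : ℝ), F x * (if Φ x ≤ r then ENNReal.ofReal (Real.exp (-r)) else 0) := by
    intro x
    have h1 : Measurable fun r : ℝ => (if Φ x ≤ r then
        ENNReal.ofReal (Real.exp (-r)) else 0) := by
      refine Measurable.ite ?_ hmh measurable_const
      exact measurableSet_le measurable_const measurable_id
    rw [lintegral_const_mul _ h1, ← Pool.Agent.R751.MB.Mxd.layer _ (h.nonneg hp x)]
  rw [lintegral_congr e1]
  rw [lintegral_lintegral_swap]
  · refine setLIntegral_congr_fun measurableSet_Ioi ?_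
    intro r hr0
    have hr0' : (0 : ℝ) < r := hr0
    have e2 : ∀ x, F x * (if Φ x ≤ r then ENNReal.ofReal (Real.exp (-r)) else 0) =
        ENNReal.ofReal (Real.exp (-r)) * {x | Φ x ≤ r}.indicator F x := by
      intro x
      rw [indicator_apply]
      by_cases hx : Φ x ≤ r
      · rw [if_pos hx, if_pos (show x ∈ {x | Φ x ≤ r} from hx), mul_comm]
      · rw [if_neg hx, if_neg (show x ∉ {x | Φ x ≤ r} from hx), mul_zero, mul_zero]
    have hms : MeasurableSet {x | Φ x ≤ r} := measurableSet_le hΦm measurable_const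
    have hmG : Measurable ({x | Φ x ≤ r}.indicator F) := hF.indicator hms
    show ∫⁻ x, F x * (if Φ x ≤ r then ENNReal.ofReal (Real.exp (-r)) else 0) = _
    rw [lintegral_congr e2, lintegral_const_mul _ hmG, lintegral_indicator hms, level hp h F hF hr0',
      ← mul_assoc, ← ENNReal.ofReal_mul (Real.exp_pos _).le, mul_comm (Real.exp (-r))]
    rfl
  · refine Measurable.aemeasurable ?_
    have h1 : Measurable fun q : Eu (Fin k) × ℝ => (if Φ q.1 ≤ q.2 then
        ENNReal.ofReal (Real.exp (-q.2)) else 0) := by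
      refine Measurable.ite ?_ (hmh.comp measurable_snd) measurable_const
      exact measurableSet_le (hΦm.comp measurable_fst) measurable_snd
    exact (hF.comp measurable_fst).mul h1

/-- the mixture formula with the uniform probability measure -/
theorem mix_un (hp : 1 ≤ p) (h : Pow p Φ) (F : Eu (Fin k) → ℝ≥0∞) (hF : Measurable F) :
    ∫⁻ x, F x * ENNReal.ofReal (Real.exp (-Φ x)) =
      volume {x | Φ x ≤ 1} * ∫⁻ t in Ioi (0 : ℝ), ENNReal.ofReal (q ((k : ℝ) / p) t) *
        ∫⁻ y, F (t ^ (1 / p) • y) ∂(un {x | Φ x ≤ 1}) := by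
  have hb := h.body hp
  have h0 : volume {x | Φ x ≤ 1} ≠ 0 :=
    (lt_of_lt_of_le (isOpen_interior.measure_pos volume hb.int) (measure_mono interior_subset)).ne'
  have h1 : volume {x | Φ x ≤ 1} ≠ ⊤ := hb.comp.measure_lt_top.ne
  rw [mix hp h F hF, ← lintegral_const_mul' _ _ h1]
  refine lintegral_congr fun t => ?_
  rw [un_lint h0 h1]
  ring

end Pool.Agent.T2H47.KB
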