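import Mathlib
import Pool.Agent.R751.MB.Mxd
import Pool.Agent.R751.MB.Gmm
import Pool.Agent.R751.MB.Rdm
import Pool.Agent.T2H47.KB.Mix

/-!
# Blocks whose unit ball has its centroid at the origin
-/

set_option autoImplicit false

namespace Pool.Agent.T2H47.KB

open MeasureTheory Set Filter Topology
open scoped ENNReal InnerProductSpace
open Pool.Agent.R751.MB (Eu Pow bsum dil deg)
open Pool.Agent.R27.RD (blk blk_apply blk_same blk_ne blk_sum)

/-- the body `{Φ ≤ 1}` has its centroid at the origin -/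
def Cen {k : ℕ} (Φ : Eu (Fin k) → ℝ) : Prop :=
  ∀ θ : Eu (Fin k), ∫ x in {x | Φ x ≤ 1}, ⟪x, θ⟫_ℝ = 0

theorem hom_int {n : ℕ} {w F : Eu (Fin n) → ℝ} {K : Set (Eu (Fin n))} (c : ℝ≥0∞)
    (hw : ∀ x, 0 ≤ w x)
    (h1 : ∫⁻ x, ENNReal.ofReal (F x) * ENNReal.ofReal (w x) = c * ∫⁻ y in K, ENNReal.ofReal (F y))
    (h2 : ∫⁻ x, ENNReal.ofReal (-F x) * ENNReal.ofReal (w x) =
      c * ∫⁻ y in K, ENNReal.ofReal (-F y))
    (hi1 : Integrable fun x => F x * w x) (hi2 : IntegrableOn F K) :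
    ∫ x, F x * w x = c.toReal * ∫ y in K, F y := by
  rw [integral_eq_lintegral_pos_part_sub_lintegral_neg_part hi1,
    integral_eq_lintegral_pos_part_sub_lintegral_neg_part hi2]
  have e1 : ∀ x, ENNReal.ofReal (F x * w x) = ENNReal.ofReal (F x) * ENNReal.ofReal (w x) :=
    fun x => ENNReal.ofReal_mul' (hw x)
  have e2 : ∀ x, ENNReal.ofReal (-(F x * w x)) = ENNReal.ofReal (-F x) * ENNReal.ofReal (w x) :=
    fun x => by rw [← neg_mul, ENNReal.ofReal_mul' (hw x)]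
  simp only [e1, e2, h1, h2, ENNReal.toReal_mul]
  ring

/-- the mean of `exp (-Φ)` -/
theorem cen_w {k : ℕ} {p : ℝ} {Φ : Eu (Fin k) → ℝ} (hp : 1 ≤ p) (h : Pow p Φ) (hc : Cen Φ)
    (θ : Eu (Fin k)) : ∫ x, ⟪x, θ⟫_ℝ * Real.exp (-Φ x) = 0 := by
  have key : ∀ φ : Eu (Fin k), ∫⁻ x, ENNReal.ofReal ⟪x, φ⟫_ℝ * ENNReal.ofReal (Real.exp (-Φ x)) =
      (∫⁻ t in Ioi (0 : ℝ), ENNReal.ofReal (q ((k : ℝ) / p) t) * ENNReal.ofReal (t ^ (1 / p))) *
        ∫⁻ y in {x | Φ x ≤ 1}, ENNReal.ofReal ⟪y, φ⟫_ℝ := by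
    intro φ
    have hm : Measurable fun t : ℝ => ENNReal.ofReal (q ((k : ℝ) / p) t) *
        ENNReal.ofReal (t ^ (1 / p)) :=
      (q_meas _).ennreal_ofReal.mul (by fun_prop)
    rw [mix hp h (fun x => ENNReal.ofReal ⟪x, φ⟫_ℝ) (by fun_prop), ← lintegral_mul_const _ hm]
    refine setLIntegral_congr_fun measurableSet_Ioi fun t ht => ?_
    have ht0 : (0 : ℝ) < t := ht
    have e1 : ∀ y : Eu (Fin k), ENNReal.ofReal ⟪t ^ (1 / p) • y, φ⟫_ℝ =
        ENNReal.ofReal (t ^ (1 / p)) * ENNReal.ofReal ⟪y, φ⟫_ℝ := by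
      intro y
      rw [real_inner_smul_left, ENNReal.ofReal_mul (Real.rpow_nonneg ht0.le _)]
    simp only [e1]
    rw [lintegral_const_mul' _ _ ENNReal.ofReal_ne_top, mul_assoc]
  have hw := h.adm hp
  have hb := h.body hp
  have h2 := key (-θ)
  simp only [inner_neg_right] at h2
  have hi1 : Integrable fun x : Eu (Fin k) => ⟪x, θ⟫_ℝ * Real.exp (-Φ x) := by
    refine (hw.int.const_mul ‖θ‖).mono' ?_ (Eventually.of_forall fun x => ?_)
    · exact ((by fun_prop : Measurable fun x : Eu (Fin k) => ⟪x, θ⟫_ℝ).mul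
        hw.meas).aestronglyMeasurable
    · rw [Real.norm_eq_abs, abs_mul, abs_of_pos (Real.exp_pos _), ← mul_assoc]
      refine mul_le_mul_of_nonneg_right ?_ (Real.exp_pos _).le
      have h3 := abs_real_inner_le_norm x θ
      nlinarith [norm_nonneg θ, norm_nonneg x, sq_nonneg (‖x‖ - 1)]
  have hi2 : IntegrableOn (fun x : Eu (Fin k) => ⟪x, θ⟫_ℝ) {x | Φ x ≤ 1} :=
    (by fun_prop : Continuous fun x : Eu (Fin k) => ⟪x, θ⟫_ℝ).continuousOn.integrableOn_compact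
      hb.comp
  rw [hom_int _ (fun x => (Real.exp_pos _).le) (key θ) h2 hi1 hi2, hc θ, mul_zero]

section

variable {M n : ℕ} {k : Fin M → ℕ} (e : (∀ i, Eu (Fin (k i))) ≃ₗ[ℝ] Eu (Fin n))

theorem haar_pi : ∃ c : ℝ, ∀ G : Eu (Fin n) → ℝ, ∫ z, G z = c * ∫ y, G (e y) := by
  let e' : (∀ i, Eu (Fin (k i))) ≃L[ℝ] Eu (Fin n) := e.toContinuousLinearEquiv
  have h0 : (Measure.map e' (volume : Measure (∀ i, Eu (Fin (k i))))).IsAddHaarMeasure :=
    e'.isAddHaarMeasure_map volume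
  have h := Measure.isAddLeftInvariant_eq_smul (volume : Measure (Eu (Fin n)))
    (Measure.map e' (volume : Measure (∀ i, Eu (Fin (k i)))))
  have he : MeasurableEmbedding e' := e'.toHomeomorph.measurableEmbedding
  refine ⟨(Measure.addHaarScalarFactor (volume : Measure (Eu (Fin n)))
    (Measure.map e' (volume : Measure (∀ i, Eu (Fin (k i))))) : ℝ), fun G => ?_⟩
  conv_lhs => rw [h]
  rw [integral_smul_nnreal_measure, he.integral_map]
  rfl

/-- products of linear functions of the blocks have mean zero for the product density -/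
theorem prod_zero {d : ℕ} {Φ : ∀ i, Eu (Fin (k i)) → ℝ} (T : Eu (Fin n) →ₗ[ℝ] Eu (Fin d))
    (θ : Eu (Fin d)) (S : Finset (Fin M)) {i : Fin M} (hi : i ∈ S)
    (h0 : ∀ φ : Eu (Fin (k i)), ∫ y, ⟪y, φ⟫_ℝ * Real.exp (-Φ i y) = 0) :
    ∫ z, (∏ l ∈ S, ⟪T (blk e l z), θ⟫_ℝ) * Real.exp (-bsum e Φ z) = 0 := by
  obtain ⟨c, hc⟩ := haar_pi e
  rw [hc]
  have e1 : ∀ y : ∀ i, Eu (Fin (k i)), (∏ l ∈ S, ⟪T (blk e l (e y)), θ⟫_ℝ) *
      Real.exp (-bsum e Φ (e y)) = ∏ l, (if l ∈ S then ⟪T (e (Pi.single l (y l))), θ⟫_ℝ else 1) *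
        Real.exp (-Φ l (y l)) := by
    intro y
    have e3 : bsum e Φ (e y) = ∑ l, Φ l (y l) := by
      unfold bsum
      simp only [LinearEquiv.symm_apply_apply]
    have e2 : ∏ l, (if l ∈ S then ⟪T (e (Pi.single l (y l))), θ⟫_ℝ else 1) =
        ∏ l ∈ S, ⟪T (blk e l (e y)), θ⟫_ℝ := by
      rw [Finset.prod_ite_mem, Finset.univ_inter]
      refine Finset.prod_congr rfl fun l _ => ?_
      rw [blk_apply, LinearEquiv.symm_apply_apply]
    rw [Finset.prod_mul_distrib, e2, ← Real.exp_sum, Finset.sum_neg_distrib, e3]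
  simp only [e1]
  have e4 := integral_fintype_prod_volume_eq_prod (𝕜 := ℝ) fun (l : Fin M) (x : Eu (Fin (k l))) =>
    (if l ∈ S then ⟪T (e (Pi.single l x)), θ⟫_ℝ else 1) * Real.exp (-Φ l x)
  rw [e4, Finset.prod_eq_zero (Finset.mem_univ i), mul_zero]
  simp only [hi, if_true]
  obtain ⟨L, hL⟩ : ∃ L : Eu (Fin (k i)) →ₗ[ℝ] Eu (Fin d), L = T ∘ₗ e.toLinearMap ∘ₗ
    (LinearMap.single ℝ (fun i => Eu (Fin (k i))) i) := ⟨_, rfl⟩
  have h1 : ∀ x, ⟪T (e (Pi.single i x)), θ⟫_ℝ = ⟪x, LinearMap.adjoint L θ⟫_ℝ := by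
    intro x
    rw [LinearMap.adjoint_inner_right, hL]
    rfl
  simp only [h1]
  exact h0 _

theorem blk_dil (p : Fin M → ℝ) (r : ℝ) (l : Fin M) (z : Eu (Fin n)) :
    blk e l (dil e p r z) = r ^ (1 / p l) • blk e l z := by
  have h1 : dil e p r z = e (fun i => r ^ (1 / p i) • e.symm z i) := rfl
  rw [h1, blk_apply, blk_apply, LinearEquiv.symm_apply_apply, ← map_smul, ← Pi.single_smul]

theorem body_zero {d : ℕ} {p : Fin M → ℝ} (hp : ∀ i, 1 ≤ p i) {Φ : ∀ i, Eu (Fin (k i)) → ℝ}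
    (hΦ : ∀ i, Pow (p i) (Φ i)) (T : Eu (Fin n) →ₗ[ℝ] Eu (Fin d))
    (θ : Eu (Fin d)) (S : Finset (Fin M)) {i : Fin M} (hi : i ∈ S) (h0 : Cen (Φ i))
    (hi1 : Integrable fun z => (∏ l ∈ S, ⟪T (blk e l z), θ⟫_ℝ) * Real.exp (-bsum e Φ z))
    (hi2 : IntegrableOn (fun z => ∏ l ∈ S, ⟪T (blk e l z), θ⟫_ℝ) {z | bsum e Φ z ≤ 1}) :
    ∫ z in {z | bsum e Φ z ≤ 1}, ∏ l ∈ S, ⟪T (blk e l z), θ⟫_ℝ = 0 := by
  obtain ⟨C, hC0, hG⟩ := Pool.Agent.R751.MB.gmm
  have hm0 : 0 ≤ deg k p := Finset.sum_nonneg fun i _ => by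
    have := hp i
    positivity
  have hα : 0 < ∑ l ∈ S, 1 / p l := Finset.sum_pos (fun l _ => by
    have := hp l
    positivity) ⟨i, hi⟩
  have hTc : Continuous T := T.continuous_of_finiteDimensional
  have hbc : ∀ l, Continuous (blk e l) := fun l => (blk e l).continuous_of_finiteDimensional
  have hFm : Measurable fun z : Eu (Fin n) => ∏ l ∈ S, ⟪T (blk e l z), θ⟫_ℝ := by
    refine Continuous.measurable ?_
    exact continuous_finsetProd S fun l _ => (hTc.comp (hbc l)).inner continuous_const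
  have key : ∀ F : Eu (Fin n) → ℝ, Measurable F →
      (∀ r : ℝ, 0 < r → ∀ z, F (dil e p r z) = r ^ (∑ l ∈ S, 1 / p l) * F z) →
      ∫⁻ x, ENNReal.ofReal (F x) * ENNReal.ofReal (Real.exp (-bsum e Φ x)) =
      ENNReal.ofReal (Real.Gamma (deg k p + ∑ l ∈ S, 1 / p l + 1)) *
        ∫⁻ y in {z | bsum e Φ z ≤ 1}, ENNReal.ofReal (F y) := by
    intro F hF hFh
    rw [Pool.Agent.R751.MB.mxd M n k e Φ p hp hΦ (fun z => ENNReal.ofReal (F z))
      hF.ennreal_ofReal, ← (hG (deg k p + ∑ l ∈ S, 1 / p l) (by linarith)).1]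
    have hm : Measurable fun r : ℝ => ENNReal.ofReal (r ^ (deg k p + ∑ l ∈ S, 1 / p l) *
        Real.exp (-r)) := by fun_prop
    rw [← lintegral_mul_const _ hm]
    refine setLIntegral_congr_fun measurableSet_Ioi fun r hr => ?_
    have hr0 : (0 : ℝ) < r := hr
    have e1 : ∀ y, ENNReal.ofReal (F (dil e p r y)) =
        ENNReal.ofReal (r ^ (∑ l ∈ S, 1 / p l)) * ENNReal.ofReal (F y) := by
      intro y
      rw [hFh r hr0, ENNReal.ofReal_mul (Real.rpow_nonneg hr0.le _)]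
    simp only [e1]
    rw [lintegral_const_mul' _ _ ENNReal.ofReal_ne_top, ← mul_assoc,
      ← ENNReal.ofReal_mul (by positivity), Real.rpow_add hr0]
    congr 2
    ring
  have hhom : ∀ r : ℝ, 0 < r → ∀ z, ∏ l ∈ S, ⟪T (blk e l (dil e p r z)), θ⟫_ℝ =
      r ^ (∑ l ∈ S, 1 / p l) * ∏ l ∈ S, ⟪T (blk e l z), θ⟫_ℝ := by
    intro r hr z
    rw [Real.rpow_sum_of_pos hr, ← Finset.prod_mul_distrib]
    refine Finset.prod_congr rfl fun l _ => ?_
    rw [blk_dil, map_smul, real_inner_smul_left]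
  have h1 := key _ hFm hhom
  have h2 := key (fun z => -∏ l ∈ S, ⟪T (blk e l z), θ⟫_ℝ) hFm.neg fun r hr z => by
    rw [hhom r hr z]
    ring
  have h3 := hom_int _ (fun x => (Real.exp_pos _).le) h1 h2 hi1 hi2
  rw [prod_zero e T θ S hi (cen_w (hp i) (hΦ i) h0)] at h3
  rcases mul_eq_zero.1 h3.symm with h4 | h4
  · exfalso
    have h5 : 0 < Real.Gamma (deg k p + ∑ l ∈ S, 1 / p l + 1) :=
      Real.Gamma_pos_of_pos (by linarith)
    rw [ENNReal.toReal_ofReal h5.le] at h4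
    exact h5.ne' h4
  · exact h4

end

end Pool.Agent.T2H47.KB
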