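import Mathlib

/-!
# A ratio of Gamma functions
-/

set_option autoImplicit false

namespace Pool.Agent.T2H47.KB

open Set

/-- `E G^(2a) ≥ (E G)^(2a) / 4` for the Gamma distribution with parameter `k a + 1` -/
theorem gamma_ratio {k a : ℝ} (hk : 1 ≤ k) (ha0 : 0 < a) (ha1 : a ≤ 1) :
    (k * a + 1) ^ (2 * a) / 4 * Real.Gamma (k * a + 1) ≤ Real.Gamma (k * a + 2 * a + 1) := by
  obtain ⟨m, hm⟩ : ∃ m : ℝ, m = k * a := ⟨_, rfl⟩
  have hma : a ≤ m := by rw [hm]; nlinarith
  rw [← hm]
  have hm0 : 0 < m := ha0.trans_le hma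
  have hM0 : 0 < m + 1 := by positivity
  obtain ⟨φ, hφ⟩ : ∃ φ : ℝ → ℝ, φ = fun x => Real.log (Real.Gamma x) := ⟨_, rfl⟩
  have hconv : ConvexOn ℝ (Ioi 0) φ := by rw [hφ]; exact Real.convexOn_log_Gamma
  have hs : ∀ x, 0 < x → φ (x + 1) = φ x + Real.log x := by
    intro x hx
    rw [hφ]
    simp only []
    rw [Real.Gamma_add_one hx.ne', Real.log_mul hx.ne' (Real.Gamma_pos_of_pos hx).ne', add_comm]
  have hG1 := Real.Gamma_pos_of_pos hM0
  have hG2 : 0 < Real.Gamma (m + 2 * a + 1) := Real.Gamma_pos_of_pos (by positivity)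
  have key : Real.log ((m + 1) ^ (2 * a) / 4) + φ (m + 1) ≤ φ (m + 2 * a + 1) := by
    have hlog : Real.log ((m + 1) ^ (2 * a) / 4) = 2 * a * Real.log (m + 1) - Real.log 4 := by
      rw [Real.log_div (by positivity) (by norm_num), Real.log_rpow hM0]
    rw [hlog]
    have hl4 : 0 < Real.log 4 := Real.log_pos (by norm_num)
    rcases le_total 1 (2 * a) with h | h
    · -- `2 a ≥ 1`
      have h1 := hconv.2 (show m + 1 ∈ Ioi (0 : ℝ) from hM0)
        (show m + 2 * a + 1 ∈ Ioi (0 : ℝ) from by show 0 < m + 2 * a + 1; positivity)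
        (show 0 ≤ 1 - 1 / (2 * a) from by
          rw [sub_nonneg, div_le_one (by positivity)]; exact h)
        (show 0 ≤ 1 / (2 * a) by positivity) (by ring)
      simp only [smul_eq_mul] at h1
      have e1 : (1 - 1 / (2 * a)) * (m + 1) + 1 / (2 * a) * (m + 2 * a + 1) = m + 1 + 1 := by
        field_simp
        ring
      rw [e1, hs _ hM0] at h1
      have h2 := mul_le_mul_of_nonneg_left h1 (by positivity : 0 ≤ 2 * a)
      have e2 : 2 * a * ((1 - 1 / (2 * a)) * φ (m + 1) + 1 / (2 * a) * φ (m + 2 * a + 1)) =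
          (2 * a - 1) * φ (m + 1) + φ (m + 2 * a + 1) := by
        field_simp
      rw [e2] at h2
      linarith
    · -- `2 a ≤ 1`
      have h1 := hconv.2 (show m ∈ Ioi (0 : ℝ) from hm0)
        (show m + 2 * a + 1 ∈ Ioi (0 : ℝ) from by show 0 < m + 2 * a + 1; positivity)
        (show 0 ≤ 2 * a / (1 + 2 * a) by positivity)
        (show 0 ≤ 1 / (1 + 2 * a) by positivity) (by field_simp; ring)
      simp only [smul_eq_mul] at h1
      have e1 : 2 * a / (1 + 2 * a) * m + 1 / (1 + 2 * a) * (m + 2 * a + 1) = m + 1 := by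
        field_simp
        ring
      rw [e1] at h1
      have h2 := mul_le_mul_of_nonneg_left h1 (by positivity : 0 ≤ 1 + 2 * a)
      have e2 : (1 + 2 * a) * (2 * a / (1 + 2 * a) * φ m + 1 / (1 + 2 * a) * φ (m + 2 * a + 1)) =
          2 * a * φ m + φ (m + 2 * a + 1) := by
        field_simp
      rw [e2] at h2
      have h3 : 2 * a * φ (m + 1) = 2 * a * φ m + 2 * a * Real.log m := by
        rw [hs m hm0]
        ring
      -- `(1 + 1 / m) ^ a ≤ 2`
      have h4 : a * (Real.log (m + 1) - Real.log m) ≤ Real.log 2 := by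
        rw [← Real.log_div hM0.ne' hm0.ne', ← Real.log_rpow (by positivity)]
        refine Real.log_le_log (by positivity) ?_
        have h5 : (m + 1) / m = 1 + 1 / m := by field_simp
        rw [h5]
        have h6 := rpow_one_add_le_one_add_mul_self (s := 1 / m) (p := a)
          (by have : 0 < 1 / m := by positivity
              linarith) ha0.le ha1
        refine h6.trans ?_
        have h7 : a * (1 / m) ≤ 1 := by
          rw [mul_one_div, div_le_one hm0]
          exact hma
        linarith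
      have h8 : Real.log 4 = 2 * Real.log 2 := by
        rw [show (4 : ℝ) = 2 ^ 2 by norm_num, Real.log_pow]
        push_cast
        ring
      rw [h8]
      linarith
  have h1 := Real.exp_le_exp.2 key
  rw [Real.exp_add, Real.exp_log (by positivity), hφ] at h1
  simp only [] at h1
  rwa [Real.exp_log hG1, Real.exp_log hG2] at h1

end Pool.Agent.T2H47.KB
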