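import Mathlib
import Pool.Agent.R754.KG.B

/-!
# Symmetric convex bodies in isotropic position are contained in a ball
-/

set_option autoImplicit false

namespace Pool.Agent.T2H47.KB

open MeasureTheory Set Filter Topology
open scoped ENNReal InnerProductSpace
open Pool.Agent.R754.KG (un un_prob un_lint un_int)

variable {k : ℕ} {K : Set (EuclideanSpace ℝ (Fin k))}

theorem vol_ne (hi : (interior K).Nonempty) : volume K ≠ 0 :=
  (lt_of_lt_of_le (isOpen_interior.measure_pos volume hi) (measure_mono interior_subset)).ne'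

/-- second moment -/
theorem second (hi : (interior K).Nonempty) (hc : IsCompact K)
    (hcov : ∀ θ, ∫ x, ⟪x, θ⟫_ℝ ^ 2 ∂(un K) = ‖θ‖ ^ 2) : ∫ x, ‖x‖ ^ 2 ∂(un K) = k := by
  have h1 : ∀ x : EuclideanSpace ℝ (Fin k), ‖x‖ ^ 2 =
      ∑ i, ⟪x, EuclideanSpace.single i (1 : ℝ)⟫_ℝ ^ 2 := by
    intro x
    rw [EuclideanSpace.norm_sq_eq]
    refine Finset.sum_congr rfl fun i _ => ?_
    rw [EuclideanSpace.inner_single_right]
    simp
  simp only [h1]
  rw [integral_finsetSum _ fun i _ => un_int (vol_ne hi) hc.isBounded (by fun_prop)]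
  simp only [hcov]
  simp

/-- a symmetric body in isotropic position has radius at most `3 k` -/
theorem radius (hk : 1 ≤ k) (hc : IsCompact K) (hv : Convex ℝ K) (hi : (interior K).Nonempty)
    (hcov : ∀ θ, ∫ x, ⟪x, θ⟫_ℝ ^ 2 ∂(un K) = ‖θ‖ ^ 2) (hm : ∀ θ, ∫ x, ⟪x, θ⟫_ℝ ∂(un K) = 0)
    {x0 : EuclideanSpace ℝ (Fin k)} (hx0 : x0 ∈ K) : ‖x0‖ ^ 2 ≤ 8 * (k : ℝ) ^ 2 := by
  have hk0 : (1 : ℝ) ≤ k := by exact_mod_cast hk
  rcases eq_or_ne x0 0 with h0 | h0
  · rw [h0, norm_zero]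
    nlinarith
  have hn : 0 < ‖x0‖ := norm_pos_iff.2 h0
  obtain ⟨θ, hθ⟩ : ∃ θ : EuclideanSpace ℝ (Fin k), θ = ‖x0‖⁻¹ • x0 := ⟨_, rfl⟩
  have hθ1 : ‖θ‖ = 1 := by
    rw [hθ, norm_smul, norm_inv, norm_norm, inv_mul_cancel₀ hn.ne']
  have hxθ : ⟪x0, θ⟫_ℝ = ‖x0‖ := by
    rw [hθ, real_inner_smul_right, real_inner_self_eq_norm_sq]
    field_simp
  obtain ⟨l, hl⟩ : ∃ l : ℝ, l = 1 / (2 * k) := ⟨_, rfl⟩
  have hl0 : 0 < l := by rw [hl]; positivity
  have hl1 : l ≤ 1 / 2 := by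
    rw [hl, div_le_div_iff₀ (by positivity) (by norm_num)]
    linarith
  obtain ⟨r, hr⟩ : ∃ r : ℝ, r = 1 - l := ⟨_, rfl⟩
  have hr0 : 0 < r := by rw [hr]; linarith
  have hrk : 1 / 2 ≤ r ^ k := by
    have h1 := one_add_mul_le_pow (a := -l) (by linarith) k
    have h2 : (k : ℝ) * -l = -(1 / 2) := by
      rw [hl]
      field_simp
    rw [h2] at h1
    rw [hr]
    calc (1 : ℝ) / 2 = 1 + -(1 / 2) := by norm_num
      _ ≤ (1 + -l) ^ k := h1
      _ = (1 - l) ^ k := by ring_nf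
  have hmeas : MeasurableSet K := hc.measurableSet
  have hV0 := vol_ne hi
  have hV1 : volume K ≠ ⊤ := hc.measure_lt_top.ne
  have hp : IsProbabilityMeasure (un K) := un_prob hV0 hV1
  obtain ⟨G, hG⟩ : ∃ G : EuclideanSpace ℝ (Fin k) → ℝ≥0∞,
    G = K.indicator fun z => ENNReal.ofReal (⟪z, θ⟫_ℝ ^ 2) := ⟨_, rfl⟩
  have hGm : Measurable G := by
    rw [hG]
    exact Measurable.indicator (by fun_prop) hmeas
  have e1 : ∫⁻ x, G (r • x + l • x0) = ENNReal.ofReal ((r ^ k)⁻¹) * ∫⁻ z, G z := by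
    have h1 := lintegral_map (μ := (volume : Measure (EuclideanSpace ℝ (Fin k))))
      (hGm.comp (measurable_add_const (l • x0))) (measurable_const_smul r)
    rw [Measure.map_addHaar_smul (volume : Measure (EuclideanSpace ℝ (Fin k))) hr0.ne',
      lintegral_smul_measure, finrank_euclideanSpace_fin, smul_eq_mul,
      abs_of_pos (by positivity)] at h1
    have h2 : ∫⁻ z, (G ∘ fun z => z + l • x0) z = ∫⁻ z, G z :=
      lintegral_add_right_eq_self G (l • x0)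
    rw [h2] at h1
    rw [h1]
    rfl
  have e2 : ∫⁻ z, G z = volume K * ENNReal.ofReal 1 := by
    rw [hG, lintegral_indicator hmeas, un_lint hV0 hV1,
      ← ofReal_integral_eq_lintegral_ofReal (un_int hV0 hc.isBounded (by fun_prop))
        (Eventually.of_forall fun x => sq_nonneg _), hcov, hθ1]
    norm_num
  have e3 : volume K * ENNReal.ofReal (r ^ 2 + l ^ 2 * ‖x0‖ ^ 2) ≤
      ∫⁻ x, G (r • x + l • x0) := by
    have h1 : ∫⁻ x in K, ENNReal.ofReal (⟪r • x + l • x0, θ⟫_ℝ ^ 2) =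
        volume K * ENNReal.ofReal (r ^ 2 + l ^ 2 * ‖x0‖ ^ 2) := by
      rw [un_lint hV0 hV1, ← ofReal_integral_eq_lintegral_ofReal
        (un_int hV0 hc.isBounded (by fun_prop)) (Eventually.of_forall fun x => sq_nonneg _)]
      congr 2
      have h2 : ∀ x, ⟪r • x + l • x0, θ⟫_ℝ ^ 2 = r ^ 2 * ⟪x, θ⟫_ℝ ^ 2 +
          2 * r * l * ‖x0‖ * ⟪x, θ⟫_ℝ + l ^ 2 * ‖x0‖ ^ 2 := by
        intro x
        rw [inner_add_left, real_inner_smul_left, real_inner_smul_left, hxθ]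
        ring
      simp only [h2]
      have i1 : Integrable (fun x => r ^ 2 * ⟪x, θ⟫_ℝ ^ 2) (un K) :=
        un_int hV0 hc.isBounded (by fun_prop)
      have i2 : Integrable (fun x => 2 * r * l * ‖x0‖ * ⟪x, θ⟫_ℝ) (un K) :=
        un_int hV0 hc.isBounded (by fun_prop)
      have i3 : Integrable (fun x => r ^ 2 * ⟪x, θ⟫_ℝ ^ 2 + 2 * r * l * ‖x0‖ * ⟪x, θ⟫_ℝ) (un K) :=
        i1.add i2
      rw [integral_add i3 (integrable_const _), integral_add i1 i2, integral_const_mul,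
        integral_const_mul, hcov, hm, hθ1, integral_const, probReal_univ]
      simp
    rw [← h1, ← lintegral_indicator hmeas]
    refine lintegral_mono fun x => ?_
    rw [hG]
    by_cases hx : x ∈ K
    · rw [indicator_of_mem hx, indicator_of_mem]
      exact hv hx hx0 hr0.le hl0.le (by rw [hr]; ring)
    · rw [indicator_of_notMem hx]
      exact bot_le
  rw [e1, e2, ← mul_assoc, mul_comm (ENNReal.ofReal _) (volume K), mul_assoc,
    ← ENNReal.ofReal_mul (by positivity)] at e3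
  have e4 := (ENNReal.mul_le_mul_iff_right hV0 hV1).1 e3
  rw [ENNReal.ofReal_le_ofReal_iff (by positivity), mul_one] at e4
  have e5 : l ^ 2 * ‖x0‖ ^ 2 ≤ 2 := by
    have h1 : (r ^ k)⁻¹ ≤ 2 := by
      rw [inv_le_comm₀ (by positivity) (by norm_num)]
      linarith
    nlinarith [sq_nonneg r]
  have e6 : l ^ 2 = 1 / (4 * (k : ℝ) ^ 2) := by
    rw [hl]
    field_simp
    norm_num
  rw [e6, div_mul_eq_mul_div, one_mul, div_le_iff₀ (by positivity)] at e5
  linarith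

/-- Cauchy-Schwarz -/
theorem cs_un (hi : (interior K).Nonempty) (hc : IsCompact K)
    {f g : EuclideanSpace ℝ (Fin k) → ℝ} (hf : Continuous f) (hg : Continuous g)
    (hG : 0 < ∫ x, g x ^ 2 ∂(un K)) :
    (∫ x, f x * g x ∂(un K)) ^ 2 ≤ (∫ x, g x ^ 2 ∂(un K)) * ∫ x, f x ^ 2 ∂(un K) := by
  have hI : ∀ h : EuclideanSpace ℝ (Fin k) → ℝ, Continuous h → Integrable h (un K) := fun h hh =>
    un_int (vol_ne hi) hc.isBounded hh
  obtain ⟨A, hA⟩ : ∃ A, A = ∫ x, g x ^ 2 ∂(un K) := ⟨_, rfl⟩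
  obtain ⟨B, hB⟩ : ∃ B, B = ∫ x, f x * g x ∂(un K) := ⟨_, rfl⟩
  obtain ⟨C, hC⟩ : ∃ C, C = ∫ x, f x ^ 2 ∂(un K) := ⟨_, rfl⟩
  rw [← hA, ← hB, ← hC]
  rw [← hA] at hG
  have h1 : 0 ≤ ∫ x, (A * f x - B * g x) ^ 2 ∂(un K) := integral_nonneg fun x => sq_nonneg _
  have h2 : ∀ x, (A * f x - B * g x) ^ 2 = A ^ 2 * f x ^ 2 - 2 * A * B * (f x * g x) +
      B ^ 2 * g x ^ 2 := fun x => by ring
  simp only [h2] at h1
  have j1 := hI (fun x => A ^ 2 * f x ^ 2) (by fun_prop)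
  have j2 := hI (fun x => 2 * A * B * (f x * g x)) (by fun_prop)
  have j3 := hI (fun x => B ^ 2 * g x ^ 2) (by fun_prop)
  have j4 := hI (fun x => A ^ 2 * f x ^ 2 - 2 * A * B * (f x * g x)) (by fun_prop)
  rw [integral_add j4 j3, integral_sub j1 j2, integral_const_mul, integral_const_mul,
    integral_const_mul, ← hA, ← hB, ← hC] at h1
  have h3 : 0 ≤ A * (A * C - B ^ 2) := by linarith
  have h4 := nonneg_of_mul_nonneg_right h3 hG
  linarith

end Pool.Agent.T2H47.KB
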