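import Mathlib
import Pool.Agent.T2H47.KB.Gam
import Pool.Agent.T2H47.KB.Bod

/-!
# Poincare inequality for mixtures: the main inequality
-/

set_option autoImplicit false

namespace Pool.Agent.T2H47.KB

open MeasureTheory Set Filter Topology
open scoped ENNReal InnerProductSpace
open Pool.Agent.R754.KG (un un_prob un_lint un_int)

/-- symmetric (mean zero) bodies in isotropic position with a Poincare inequality -/
structure IsoB {k : ℕ} (c0 : ℝ) (K : Set (EuclideanSpace ℝ (Fin k))) : Prop where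
  comp : IsCompact K
  conv : Convex ℝ K
  int : (interior K).Nonempty
  cov : ∀ θ, ∫ x, ⟪x, θ⟫_ℝ ^ 2 ∂(un K) = ‖θ‖ ^ 2
  mean : ∀ θ, ∫ x, ⟪x, θ⟫_ℝ ∂(un K) = 0
  poi : ∀ f : EuclideanSpace ℝ (Fin k) → ℝ, ContDiff ℝ 1 f →
    (∫ x, f x ^ 2 ∂(un K)) - (∫ x, f x ∂(un K)) ^ 2 ≤ c0 * ∫ x, ‖fderiv ℝ f x‖ ^ 2 ∂(un K)

/-- bounded `C¹` functions with bounded derivative -/
structure Bd {k : ℕ} (L : ℝ) (u : EuclideanSpace ℝ (Fin k) → ℝ) : Prop where
  c1 : ContDiff ℝ 1 u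
  bd : ∀ x, |u x| ≤ L
  gd : ∀ x, ‖fderiv ℝ u x‖ ≤ L

section

variable {k : ℕ} {K : Set (EuclideanSpace ℝ (Fin k))} {c0 L a : ℝ}
  {u : EuclideanSpace ℝ (Fin k) → ℝ}

theorem IsoB.prob (hK : IsoB c0 K) : IsProbabilityMeasure (un K) :=
  un_prob (vol_ne hK.int) hK.comp.measure_lt_top.ne

theorem IsoB.intg (hK : IsoB c0 K) {f : EuclideanSpace ℝ (Fin k) → ℝ} (hf : Continuous f) :
    Integrable f (un K) := un_int (vol_ne hK.int) hK.comp.isBounded hf

theorem IsoB.ae (hK : IsoB c0 K) : ∀ᵐ x ∂(un K), x ∈ K := by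
  unfold un
  exact Measure.ae_smul_measure (ae_restrict_mem hK.comp.measurableSet) _

theorem IsoB.rad (hK : IsoB c0 K) (hk : 1 ≤ k) {x : EuclideanSpace ℝ (Fin k)} (hx : x ∈ K) :
    ‖x‖ ^ 2 ≤ 8 * (k : ℝ) ^ 2 := radius hk hK.comp hK.conv hK.int hK.cov hK.mean hx

theorem IsoB.rad' (hK : IsoB c0 K) (hk : 1 ≤ k) {x : EuclideanSpace ℝ (Fin k)} (hx : x ∈ K) :
    ‖x‖ ≤ 3 * k := by
  have h1 := hK.rad hk hx
  refine abs_le_of_sq_le_sq' (by nlinarith) (by positivity) |>.2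

/-- the average over the dilate of the body -/
noncomputable def gg (K : Set (EuclideanSpace ℝ (Fin k))) (a : ℝ)
    (u : EuclideanSpace ℝ (Fin k) → ℝ) (t : ℝ) : ℝ := ∫ y, u (t ^ a • y) ∂(un K)

/-- its derivative -/
noncomputable def gd (K : Set (EuclideanSpace ℝ (Fin k))) (a : ℝ)
    (u : EuclideanSpace ℝ (Fin k) → ℝ) (t : ℝ) : ℝ :=
  ∫ y, fderiv ℝ u (t ^ a • y) ((a * t ^ (a - 1)) • y) ∂(un K)

/-- average of the square of the gradient -/
noncomputable def dd (K : Set (EuclideanSpace ℝ (Fin k))) (a : ℝ)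
    (u : EuclideanSpace ℝ (Fin k) → ℝ) (t : ℝ) : ℝ := ∫ y, ‖fderiv ℝ u (t ^ a • y)‖ ^ 2 ∂(un K)

theorem path_deriv (hu : ContDiff ℝ 1 u) {t : ℝ} (ht : 0 < t) (y : EuclideanSpace ℝ (Fin k)) :
    HasDerivAt (fun t : ℝ => u (t ^ a • y)) (fderiv ℝ u (t ^ a • y) ((a * t ^ (a - 1)) • y)) t := by
  have h1 : HasDerivAt (fun t : ℝ => t ^ a • y) ((a * t ^ (a - 1)) • y) t :=
    (Real.hasDerivAt_rpow_const (Or.inl ht.ne')).smul_const y
  exact ((hu.differentiable (by norm_num) _).hasFDerivAt).comp_hasDerivAt t h1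

theorem path_cont (hu : ContDiff ℝ 1 u) (y : EuclideanSpace ℝ (Fin k)) :
    ContinuousOn (fun t : ℝ => fderiv ℝ u (t ^ a • y) ((a * t ^ (a - 1)) • y)) (Ioi 0) := by
  have hd : Continuous (fderiv ℝ u) := hu.continuous_fderiv one_ne_zero
  have h1 : ∀ b : ℝ, ContinuousOn (fun t : ℝ => t ^ b) (Ioi 0) := fun b t ht =>
    (Real.continuousAt_rpow_const t b (Or.inl (ne_of_gt ht))).continuousWithinAt
  have h2 : ContinuousOn (fun t : ℝ => fderiv ℝ u (t ^ a • y)) (Ioi 0) :=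
    hd.comp_continuousOn ((h1 a).smul continuousOn_const)
  exact h2.clm_apply ((continuousOn_const.mul (h1 _)).smul continuousOn_const)

theorem bound_path (hu : Bd L u) (ha0 : 0 ≤ a) (ha1 : a ≤ 1) {s t : ℝ} (hs : 0 < s) (hst : s ≤ t)
    {y : EuclideanSpace ℝ (Fin k)} {R : ℝ} (hy : ‖y‖ ≤ R) :
    ‖fderiv ℝ u (t ^ a • y) ((a * t ^ (a - 1)) • y)‖ ≤ L * (a * s ^ (a - 1) * R) := by
  have ht : 0 < t := hs.trans_le hst
  have h1 : t ^ (a - 1) ≤ s ^ (a - 1) :=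
    Real.rpow_le_rpow_of_nonpos hs hst (by linarith)
  have h2 : 0 < t ^ (a - 1) := Real.rpow_pos_of_pos ht _
  refine (ContinuousLinearMap.le_opNorm _ _).trans ?_
  refine mul_le_mul (hu.gd _) ?_ (norm_nonneg _) ((norm_nonneg _).trans (hu.gd 0))
  rw [norm_smul, Real.norm_eq_abs, abs_of_nonneg (by positivity)]
  have h3 : a * t ^ (a - 1) ≤ a * s ^ (a - 1) := mul_le_mul_of_nonneg_left h1 ha0
  exact mul_le_mul h3 hy (norm_nonneg _) (by positivity)

theorem gg_deriv (hK : IsoB c0 K) (hk : 1 ≤ k) (hu : Bd L u) (ha0 : 0 ≤ a) (ha1 : a ≤ 1) {t : ℝ}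
    (ht : 0 < t) : HasDerivAt (gg K a u) (gd K a u t) t := by
  have huc := hu.c1.continuous
  have hd : Continuous (fderiv ℝ u) := hu.c1.continuous_fderiv one_ne_zero
  have hprob := hK.prob
  refine (hasDerivAt_integral_of_dominated_loc_of_deriv_le (μ := un K)
    (F := fun t y => u (t ^ a • y))
    (F' := fun t y => fderiv ℝ u (t ^ a • y) ((a * t ^ (a - 1)) • y)) (x₀ := t)
    (s := Ioi (t / 2)) (bound := fun _ => L * (a * (t / 2) ^ (a - 1) * (3 * k)))
    (Ioi_mem_nhds (by linarith)) (Eventually.of_forall fun s => ?_) ?_ ?_ ?_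
    (integrable_const _) ?_).2
  · exact (by fun_prop : Continuous fun y => u (s ^ a • y)).aestronglyMeasurable
  · exact hK.intg (by fun_prop)
  · have h1 : Continuous fun y : EuclideanSpace ℝ (Fin k) =>
        fderiv ℝ u (t ^ a • y) ((a * t ^ (a - 1)) • y) :=
      (hd.comp (continuous_const_smul _)).clm_apply (continuous_const_smul _)
    exact h1.aestronglyMeasurable
  · filter_upwards [hK.ae] with y hy s hs
    exact bound_path hu ha0 ha1 (by positivity) (le_of_lt hs) (hK.rad' hk hy)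
  · refine Eventually.of_forall fun y s hs => ?_
    exact path_deriv hu.c1 (lt_trans (by positivity) hs) y

theorem gd_cont (hK : IsoB c0 K) (hk : 1 ≤ k) (hu : Bd L u) (ha0 : 0 ≤ a) (ha1 : a ≤ 1) :
    ContinuousOn (gd K a u) (Ioi 0) := by
  have hd : Continuous (fderiv ℝ u) := hu.c1.continuous_fderiv one_ne_zero
  have hprob := hK.prob
  intro t ht
  have ht0 : 0 < t := ht
  refine ContinuousAt.continuousWithinAt ?_
  refine continuousAt_of_dominated (μ := un K)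
    (bound := fun _ => L * (a * (t / 2) ^ (a - 1) * (3 * k)))
    (Eventually.of_forall fun s => ?_) ?_ (integrable_const _) ?_
  · have h1 : Continuous fun y : EuclideanSpace ℝ (Fin k) =>
        fderiv ℝ u (s ^ a • y) ((a * s ^ (a - 1)) • y) :=
      (hd.comp (continuous_const_smul _)).clm_apply (continuous_const_smul _)
    exact h1.aestronglyMeasurable
  · filter_upwards [Ioi_mem_nhds (show t / 2 < t by linarith)] with s hs
    filter_upwards [hK.ae] with y hy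
    exact bound_path hu ha0 ha1 (by positivity) (le_of_lt hs) (hK.rad' hk hy)
  · refine Eventually.of_forall fun y => ?_
    exact (path_cont hu.c1 y).continuousAt (Ioi_mem_nhds ht0)

theorem dd_nonneg (t : ℝ) : 0 ≤ dd K a u t := integral_nonneg fun y => sq_nonneg _

theorem gd_sq (hK : IsoB c0 K) (hk : 1 ≤ k) (hu : Bd L u) (ha0 : 0 ≤ a) {t : ℝ} (ht : 0 < t) :
    gd K a u t ^ 2 ≤ (a * t ^ (a - 1)) ^ 2 * (k * dd K a u t) := by
  have hd : Continuous (fderiv ℝ u) := hu.c1.continuous_fderiv one_ne_zero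
  obtain ⟨c, hc⟩ : ∃ c : ℝ, c = a * t ^ (a - 1) := ⟨_, rfl⟩
  have hc0 : 0 ≤ c := by
    rw [hc]
    have := Real.rpow_nonneg ht.le (a - 1)
    positivity
  have hk0 : (1 : ℝ) ≤ k := by exact_mod_cast hk
  have h2 := second hK.int hK.comp hK.cov
  have hf : Continuous fun y : EuclideanSpace ℝ (Fin k) => ‖fderiv ℝ u (t ^ a • y)‖ :=
    (hd.comp (continuous_const_smul _)).norm
  have h1 := cs_un hK.int hK.comp hf continuous_norm (by rw [h2]; linarith)
  rw [h2] at h1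
  rw [← hc]
  have h3 : |gd K a u t| ≤ c * ∫ y, ‖fderiv ℝ u (t ^ a • y)‖ * ‖y‖ ∂(un K) := by
    unfold gd
    rw [← hc, ← integral_const_mul, ← Real.norm_eq_abs]
    refine norm_integral_le_of_norm_le (hK.intg (by fun_prop)) (Eventually.of_forall fun y => ?_)
    refine (ContinuousLinearMap.le_opNorm _ _).trans ?_
    rw [norm_smul, Real.norm_eq_abs, abs_of_nonneg hc0]
    exact le_of_eq (by ring)
  have h4 : 0 ≤ ∫ y, ‖fderiv ℝ u (t ^ a • y)‖ * ‖y‖ ∂(un K) :=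
    integral_nonneg fun y => by positivity
  calc gd K a u t ^ 2 = |gd K a u t| ^ 2 := (sq_abs _).symm
    _ ≤ (c * ∫ y, ‖fderiv ℝ u (t ^ a • y)‖ * ‖y‖ ∂(un K)) ^ 2 :=
      pow_le_pow_left₀ (abs_nonneg _) h3 2
    _ = c ^ 2 * (∫ y, ‖fderiv ℝ u (t ^ a • y)‖ * ‖y‖ ∂(un K)) ^ 2 := by ring
    _ ≤ c ^ 2 * (k * dd K a u t) := mul_le_mul_of_nonneg_left h1 (sq_nonneg _)

/-- the variance on a dilate -/
theorem var_dil (hK : IsoB c0 K) (hu : Bd L u) {t : ℝ} (ht : 0 < t) (c : ℝ) :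
    ∫ y, (u (t ^ a • y) - c) ^ 2 ∂(un K) ≤
      c0 * (t ^ (2 * a) * dd K a u t) + (gg K a u t - c) ^ 2 := by
  have huc := hu.c1.continuous
  have hd : Continuous (fderiv ℝ u) := hu.c1.continuous_fderiv one_ne_zero
  have hprob := hK.prob
  obtain ⟨r, hr⟩ : ∃ r : ℝ, r = t ^ a := ⟨_, rfl⟩
  have hr0 : 0 < r := by rw [hr]; exact Real.rpow_pos_of_pos ht _
  have h1 := hK.poi (fun y => u (r • y)) (hu.c1.comp (contDiff_const_smul r))
  have h2 : ∀ y : EuclideanSpace ℝ (Fin k),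
      ‖fderiv ℝ (fun y => u (r • y)) y‖ ^ 2 = r ^ 2 * ‖fderiv ℝ u (r • y)‖ ^ 2 := by
    intro y
    have h3 : fderiv ℝ (fun y => u (r • y)) y = r • fderiv ℝ u (r • y) := by
      exact fderiv_comp_smul (f := u) r
    rw [h3, norm_smul, mul_pow, Real.norm_eq_abs, sq_abs]
  simp only [h2] at h1
  rw [integral_const_mul] at h1
  have h3 : ∫ y, (u (r • y) - c) ^ 2 ∂(un K) =
      ((∫ y, u (r • y) ^ 2 ∂(un K)) - (∫ y, u (r • y) ∂(un K)) ^ 2) +
        ((∫ y, u (r • y) ∂(un K)) - c) ^ 2 := by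
    have e : ∀ y, (u (r • y) - c) ^ 2 = u (r • y) ^ 2 - 2 * c * u (r • y) + c ^ 2 := fun y => by
      ring
    simp only [e]
    have i1 := hK.intg (f := fun y => u (r • y) ^ 2) (by fun_prop)
    have i2 := hK.intg (f := fun y => 2 * c * u (r • y)) (by fun_prop)
    have i3 := hK.intg (f := fun y => u (r • y) ^ 2 - 2 * c * u (r • y)) (by fun_prop)
    rw [integral_add i3 (integrable_const _), integral_sub i1 i2, integral_const_mul,
      integral_const, probReal_univ, one_smul]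
    ring
  have h4 : t ^ (2 * a) = r ^ 2 := by
    rw [hr, mul_comm, Real.rpow_mul ht.le]
    norm_cast
  unfold dd gg
  rw [← hr, h3, h4]
  linarith

theorem sq_int (hK : IsoB c0 K) {f : EuclideanSpace ℝ (Fin k) → ℝ} (hf : Continuous f) :
    ∫⁻ y, ENNReal.ofReal (f y ^ 2) ∂(un K) = ENNReal.ofReal (∫ y, f y ^ 2 ∂(un K)) :=
  (ofReal_integral_eq_lintegral_ofReal (hK.intg (hf.pow 2))
    (Eventually.of_forall fun y => sq_nonneg _)).symm

/-- the inner part -/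
theorem inner_part (hK : IsoB c0 K) (hk : 1 ≤ k) (hc0 : 0 ≤ c0) (hu : Bd L u) (ha0 : 0 < a)
    (ha1 : a ≤ 1) {b : ℝ} (hb : k * a ≤ b) :
    ∫⁻ t in Ioc 0 b, ENNReal.ofReal (q (k * a) t) *
        ∫⁻ y, ENNReal.ofReal ((u (t ^ a • y) - gg K a u (k * a)) ^ 2) ∂(un K) ≤
      ENNReal.ofReal ((c0 + 1) * b ^ (2 * a)) * ∫⁻ t in Ioc 0 b, ENNReal.ofReal (q (k * a) t) *
        ∫⁻ y, ENNReal.ofReal (‖fderiv ℝ u (t ^ a • y)‖ ^ 2) ∂(un K) := by
  have huc := hu.c1.continuous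
  have hd : Continuous (fderiv ℝ u) := hu.c1.continuous_fderiv one_ne_zero
  have hk0 : (1 : ℝ) ≤ k := by exact_mod_cast hk
  obtain ⟨m, hm⟩ : ∃ m : ℝ, m = k * a := ⟨_, rfl⟩
  rw [← hm] at hb ⊢
  have hm0 : 0 < m := by rw [hm]; positivity
  have hb0 : 0 < b := hm0.trans_le hb
  have hgg : ∀ t, 0 < t → HasDerivAt (gg K a u) (gd K a u t) t := fun t ht =>
    gg_deriv hK hk hu ha0.le ha1 ht
  have hgc := gd_cont hK hk hu ha0.le ha1
  have hin := inner hm0 hb hgg hgc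
  have hggc : ContinuousOn (gg K a u) (Ioi 0) := fun t ht =>
    (hgg t ht).continuousAt.continuousWithinAt
  -- pointwise bounds
  have h1 : ∫⁻ t in Ioc 0 b, ENNReal.ofReal (q m t) *
        ∫⁻ y, ENNReal.ofReal ((u (t ^ a • y) - gg K a u m) ^ 2) ∂(un K) ≤
      ∫⁻ t in Ioc 0 b, (ENNReal.ofReal (c0 * (t ^ (2 * a) * dd K a u t) * q m t) +
        ENNReal.ofReal ((gg K a u t - gg K a u m) ^ 2 * q m t)) := by
    refine setLIntegral_mono' measurableSet_Ioc fun t ht => ?_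
    have ht0 : 0 < t := ht.1
    have hq := (q_pos (m := m) ht0).le
    have h2 := var_dil (a := a) hK hu ht0 (gg K a u m)
    have h3 := dd_nonneg (K := K) (a := a) (u := u) t
    have h4 := Real.rpow_nonneg ht0.le (2 * a)
    rw [sq_int hK (f := fun y => u (t ^ a • y) - gg K a u m) (by fun_prop),
      ← ENNReal.ofReal_mul hq, ← ENNReal.ofReal_add (by positivity) (by positivity)]
    refine ENNReal.ofReal_le_ofReal ?_
    have h5 := mul_le_mul_of_nonneg_left h2 hq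
    linarith
  refine h1.trans ?_
  rw [lintegral_add_right']
  swap
  · have h2 : ContinuousOn (fun t => (gg K a u t - gg K a u m) ^ 2 * q m t) (Ioc 0 b) :=
      (((hggc.sub continuousOn_const).pow 2).mul q_cont).mono fun t ht => ht.1
    exact (h2.aemeasurable measurableSet_Ioc).ennreal_ofReal
  have h2 : ∫⁻ t in Ioc 0 b, ENNReal.ofReal ((gg K a u t - gg K a u m) ^ 2 * q m t) ≤
      ∫⁻ t in Ioc 0 b, ENNReal.ofReal (t ^ (2 * a) * dd K a u t * q m t) := by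
    refine hin.trans (setLIntegral_mono' measurableSet_Ioc fun t ht => ?_)
    have ht0 : 0 < t := ht.1
    have hq := (q_pos (m := m) ht0).le
    refine ENNReal.ofReal_le_ofReal (mul_le_mul_of_nonneg_right ?_ hq)
    have h3 := gd_sq hK hk hu ha0.le ht0
    have h4 := dd_nonneg (K := K) (a := a) (u := u) t
    have h5 : t ^ 2 * (t ^ (a - 1)) ^ 2 = t ^ (2 * a) := by
      have e1 : t ^ 2 = t ^ (2 : ℝ) := by norm_cast
      have e2 : (t ^ (a - 1)) ^ 2 = t ^ ((a - 1) * 2) := by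
        rw [Real.rpow_mul ht0.le]
        norm_cast
      rw [e1, e2, ← Real.rpow_add ht0]
      congr 1
      ring
    have h6 := mul_le_mul_of_nonneg_left h3 (sq_nonneg t)
    have h7 : t ^ 2 * ((a * t ^ (a - 1)) ^ 2 * (k * dd K a u t)) =
        a * m * (t ^ (2 * a) * dd K a u t) := by
      rw [← h5, hm]
      ring
    rw [h7] at h6
    rw [div_le_iff₀ hm0]
    have h8 := Real.rpow_nonneg ht0.le (2 * a)
    have h9 : a * m * (t ^ (2 * a) * dd K a u t) ≤ 1 * m * (t ^ (2 * a) * dd K a u t) := by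
      gcongr
    linarith
  refine (add_le_add le_rfl h2).trans ?_
  have h3 : ∀ c : ℝ, 0 ≤ c → ∫⁻ t in Ioc 0 b, ENNReal.ofReal (c * (t ^ (2 * a) * dd K a u t) *
      q m t) ≤ ENNReal.ofReal (c * b ^ (2 * a)) * ∫⁻ t in Ioc 0 b, ENNReal.ofReal (q m t) *
        ∫⁻ y, ENNReal.ofReal (‖fderiv ℝ u (t ^ a • y)‖ ^ 2) ∂(un K) := by
    intro c hc
    rw [← lintegral_const_mul' _ _ ENNReal.ofReal_ne_top]
    refine setLIntegral_mono' measurableSet_Ioc fun t ht => ?_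
    have ht0 : 0 < t := ht.1
    have hq := (q_pos (m := m) ht0).le
    have h4 := dd_nonneg (K := K) (a := a) (u := u) t
    have hbb := Real.rpow_nonneg hb0.le (2 * a)
    rw [sq_int hK (f := fun y => ‖fderiv ℝ u (t ^ a • y)‖)
      (hd.comp (continuous_const_smul _)).norm, ← ENNReal.ofReal_mul hq,
      ← ENNReal.ofReal_mul (by positivity)]
    refine ENNReal.ofReal_le_ofReal ?_
    have h5 : t ^ (2 * a) ≤ b ^ (2 * a) := Real.rpow_le_rpow ht0.le ht.2 (by positivity)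
    calc c * (t ^ (2 * a) * dd K a u t) * q m t ≤ c * (b ^ (2 * a) * dd K a u t) * q m t := by
          gcongr
      _ = _ := by
        unfold dd
        ring
  have h4 := h3 c0 hc0
  have h5 := h3 1 zero_le_one
  simp only [one_mul] at h5
  refine (add_le_add h4 h5).trans (le_of_eq ?_)
  have hbb := Real.rpow_nonneg hb0.le (2 * a)
  rw [← add_mul, ← ENNReal.ofReal_add (by positivity) (by positivity)]
  congr 2
  ring

/-- the order of integration -/
theorem swp (hK : IsoB c0 K) (m : ℝ) (S : Set ℝ) {F : ℝ → EuclideanSpace ℝ (Fin k) → ℝ}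
    (hF : Measurable (Function.uncurry F)) :
    ∫⁻ t in S, ENNReal.ofReal (q m t) * ∫⁻ y, ENNReal.ofReal (F t y ^ 2) ∂(un K) =
      ∫⁻ y, (∫⁻ t in S, ENNReal.ofReal (F t y ^ 2 * q m t)) ∂(un K) := by
  have hprob := hK.prob
  have hq := q_meas m
  have hF' : Measurable fun x : ℝ × EuclideanSpace ℝ (Fin k) => F x.1 x.2 := hF
  have e : ∀ t, ENNReal.ofReal (q m t) * ∫⁻ y, ENNReal.ofReal (F t y ^ 2) ∂(un K) =
      ∫⁻ y, ENNReal.ofReal (F t y ^ 2 * q m t) ∂(un K) := by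
    intro t
    rw [← lintegral_const_mul' _ _ ENNReal.ofReal_ne_top]
    refine lintegral_congr fun y => ?_
    rw [ENNReal.ofReal_mul (sq_nonneg _), mul_comm]
  simp only [e]
  refine lintegral_lintegral_swap ?_
  refine Measurable.aemeasurable ?_
  unfold Function.uncurry
  fun_prop

/-- the outer part -/
theorem outer_part (hK : IsoB c0 K) (hk : 1 ≤ k) (hu : Bd L u) (ha0 : 0 < a) (ha1 : a ≤ 1)
    (c : ℝ) :
    ∫⁻ t in Ioi (2 * (k * a + 1)), ENNReal.ofReal (q (k * a) t) *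
        ∫⁻ y, ENNReal.ofReal ((u (t ^ a • y) - c) ^ 2) ∂(un K) ≤
      36 * (ENNReal.ofReal (8 * (k * a + 1) ^ (2 * a)) * ∫⁻ t in Ioi 0, ENNReal.ofReal (q (k * a) t) *
        ∫⁻ y, ENNReal.ofReal (‖fderiv ℝ u (t ^ a • y)‖ ^ 2) ∂(un K)) +
      12 * ∫⁻ t in Ioc 0 (2 * (k * a + 1)), ENNReal.ofReal (q (k * a) t) *
        ∫⁻ y, ENNReal.ofReal ((u (t ^ a • y) - c) ^ 2) ∂(un K) := by
  have huc := hu.c1.continuous
  have hd : Continuous (fderiv ℝ u) := hu.c1.continuous_fderiv one_ne_zero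
  have hk0 : (1 : ℝ) ≤ k := by exact_mod_cast hk
  obtain ⟨m, hm⟩ : ∃ m : ℝ, m = k * a := ⟨_, rfl⟩
  rw [← hm]
  have hm0 : 0 < m := by rw [hm]; positivity
  have hmu : Measurable u := huc.measurable
  have hmd : Measurable fun x => ‖fderiv ℝ u x‖ := hd.norm.measurable
  have m1 : Measurable (Function.uncurry fun (t : ℝ) (y : EuclideanSpace ℝ (Fin k)) =>
      u (t ^ a • y) - c) := by
    unfold Function.uncurry
    fun_prop
  have m2 : Measurable (Function.uncurry fun (t : ℝ) (y : EuclideanSpace ℝ (Fin k)) =>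
      ‖fderiv ℝ u (t ^ a • y)‖) := by
    have h1 : Measurable fun x : ℝ × EuclideanSpace ℝ (Fin k) => x.1 ^ a • x.2 := by fun_prop
    exact hmd.comp h1
  rw [swp hK m _ (F := fun t y => u (t ^ a • y) - c) m1,
    swp hK m _ (F := fun t y => u (t ^ a • y) - c) m1,
    swp hK m _ (F := fun t y => ‖fderiv ℝ u (t ^ a • y)‖) m2]
  -- pointwise in `y`
  have h1 : ∀ y ∈ K, ∫⁻ t in Ioi (2 * (m + 1)), ENNReal.ofReal ((u (t ^ a • y) - c) ^ 2 * q m t) ≤
      36 * (ENNReal.ofReal (8 * (m + 1) ^ (2 * a)) * ∫⁻ t in Ioi 0,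
        ENNReal.ofReal (‖fderiv ℝ u (t ^ a • y)‖ ^ 2 * q m t)) +
      12 * ∫⁻ t in Ioc 0 (2 * (m + 1)), ENNReal.ofReal ((u (t ^ a • y) - c) ^ 2 * q m t) := by
    intro y hy
    have h2 := outer hm0 (h := fun t => u (t ^ a • y) - c)
      (h' := fun t => fderiv ℝ u (t ^ a • y) ((a * t ^ (a - 1)) • y))
      (fun t ht => (path_deriv hu.c1 ht y).sub_const c) (path_cont hu.c1 y)
    refine h2.trans (add_le_add (mul_le_mul_right ?_ _) le_rfl)
    rw [← lintegral_const_mul' _ _ ENNReal.ofReal_ne_top]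
    refine (setLIntegral_mono' measurableSet_Ioi fun t ht => ?_).trans
      (lintegral_mono_set (s := Ioi (3 / 2 * (m + 1))) fun t ht => lt_trans (by positivity)
        (show 3 / 2 * (m + 1) < t from ht))
    have ht' : 3 / 2 * (m + 1) < t := ht
    have hM : m + 1 ≤ t := by nlinarith
    have ht0 : 0 < t := by linarith
    have hq := (q_pos (m := m) ht0).le
    rw [← ENNReal.ofReal_mul (by positivity)]
    refine ENNReal.ofReal_le_ofReal ?_
    rw [← mul_assoc]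
    refine mul_le_mul_of_nonneg_right ?_ hq
    have h3 := ContinuousLinearMap.le_opNorm (fderiv ℝ u (t ^ a • y)) ((a * t ^ (a - 1)) • y)
    rw [norm_smul, Real.norm_eq_abs, Real.norm_eq_abs] at h3
    have h4 := pow_le_pow_left₀ (abs_nonneg _) h3 2
    rw [sq_abs] at h4
    refine h4.trans ?_
    have h5 := hK.rad hk hy
    have e1 : (‖fderiv ℝ u (t ^ a • y)‖ * (|a * t ^ (a - 1)| * ‖y‖)) ^ 2 =
        (a * t ^ (a - 1)) ^ 2 * ‖y‖ ^ 2 * ‖fderiv ℝ u (t ^ a • y)‖ ^ 2 := by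
      rw [mul_pow, mul_pow, sq_abs]
      ring
    rw [e1]
    refine mul_le_mul_of_nonneg_right ?_ (sq_nonneg _)
    have hM0 : 0 < m + 1 := by positivity
    have h6 : t ^ (a - 1) ≤ (m + 1) ^ (a - 1) :=
      Real.rpow_le_rpow_of_nonpos hM0 hM (by linarith)
    have h7 := Real.rpow_nonneg ht0.le (a - 1)
    have h8 : (m + 1) ^ 2 * ((m + 1) ^ (a - 1)) ^ 2 = (m + 1) ^ (2 * a) := by
      have e1 : (m + 1) ^ 2 = (m + 1) ^ (2 : ℝ) := by norm_cast
      have e2 : ((m + 1) ^ (a - 1)) ^ 2 = (m + 1) ^ ((a - 1) * 2) := by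
        rw [Real.rpow_mul hM0.le]
        norm_cast
      rw [e1, e2, ← Real.rpow_add hM0]
      congr 1
      ring
    calc (a * t ^ (a - 1)) ^ 2 * ‖y‖ ^ 2 ≤ (a * (m + 1) ^ (a - 1)) ^ 2 * (8 * (k : ℝ) ^ 2) := by
          gcongr
      _ = 8 * (m ^ 2 * ((m + 1) ^ (a - 1)) ^ 2) := by rw [hm]; ring
      _ ≤ 8 * ((m + 1) ^ 2 * ((m + 1) ^ (a - 1)) ^ 2) := by gcongr; linarith
      _ = _ := by rw [h8]
  have h2 : ∫⁻ y, (∫⁻ t in Ioi (2 * (m + 1)), ENNReal.ofReal ((u (t ^ a • y) - c) ^ 2 * q m t))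
      ∂(un K) ≤ ∫⁻ y, (36 * (ENNReal.ofReal (8 * (m + 1) ^ (2 * a)) * ∫⁻ t in Ioi 0,
        ENNReal.ofReal (‖fderiv ℝ u (t ^ a • y)‖ ^ 2 * q m t)) +
      12 * ∫⁻ t in Ioc 0 (2 * (m + 1)), ENNReal.ofReal ((u (t ^ a • y) - c) ^ 2 * q m t))
      ∂(un K) := by
    refine lintegral_mono_ae ?_
    filter_upwards [hK.ae] with y hy
    exact h1 y hy
  refine h2.trans (le_of_eq ?_)
  have hqm := q_meas m
  have m3 : Measurable fun y : EuclideanSpace ℝ (Fin k) => ∫⁻ t in Ioi (0 : ℝ),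
      ENNReal.ofReal (‖fderiv ℝ u (t ^ a • y)‖ ^ 2 * q m t) := by
    refine Measurable.lintegral_prod_right' (f := fun x : EuclideanSpace ℝ (Fin k) × ℝ =>
      ENNReal.ofReal (‖fderiv ℝ u (x.2 ^ a • x.1)‖ ^ 2 * q m x.2)) ?_
    have h1 : Measurable fun x : EuclideanSpace ℝ (Fin k) × ℝ => ‖fderiv ℝ u (x.2 ^ a • x.1)‖ :=
      hmd.comp (by fun_prop)
    fun_prop
  rw [lintegral_add_left (by fun_prop), lintegral_const_mul _ (by fun_prop),
    lintegral_const_mul _ m3, lintegral_const_mul' _ _ (by norm_num)]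

end

end Pool.Agent.T2H47.KB
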