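import Mathlib
import Pool.Agent.T2H47.KB.Iso
import Pool.Agent.T2H47.KB.Mix
import Pool.Agent.T2H47.KB.Gr
import Pool.Agent.T2H47.KB.Cent
import Pool.Agent.R751.MB.Gmm

/-!
# Poincare inequality for `exp (-‖x‖_K^p)`, `K` in isotropic position
-/

set_option autoImplicit false

namespace Pool.Agent.T2H47.KB

open MeasureTheory Set Filter Topology
open scoped ENNReal InnerProductSpace
open Pool.Agent.R751.MB (Eu EW VW Adm AP Pow)
open Pool.Agent.R754.KG (un un_prob un_lint un_int)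

section

variable {k : ℕ} {K : Set (EuclideanSpace ℝ (Fin k))} {c0 L a : ℝ}
  {u : EuclideanSpace ℝ (Fin k) → ℝ}

/-- both parts together -/
theorem total (hK : IsoB c0 K) (hk : 1 ≤ k) (hc0 : 0 ≤ c0) (hu : Bd L u) (ha0 : 0 < a)
    (ha1 : a ≤ 1) :
    ∫⁻ t in Ioi 0, ENNReal.ofReal (q (k * a) t) *
        ∫⁻ y, ENNReal.ofReal ((u (t ^ a • y) - gg K a u (k * a)) ^ 2) ∂(un K) ≤
      ENNReal.ofReal ((52 * c0 + 340) * (k * a + 1) ^ (2 * a)) *
        ∫⁻ t in Ioi 0, ENNReal.ofReal (q (k * a) t) *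
          ∫⁻ y, ENNReal.ofReal (‖fderiv ℝ u (t ^ a • y)‖ ^ 2) ∂(un K) := by
  have hk0 : (1 : ℝ) ≤ k := by exact_mod_cast hk
  obtain ⟨c, hc⟩ : ∃ c, c = gg K a u (k * a) := ⟨_, rfl⟩
  have hin := inner_part (b := 2 * (k * a + 1)) hK hk hc0 hu ha0 ha1 (by nlinarith)
  have hout := outer_part hK hk hu ha0 ha1 c
  rw [← hc] at hin ⊢
  obtain ⟨M, hM⟩ : ∃ M : ℝ, M = k * a + 1 := ⟨_, rfl⟩
  have hM0 : 0 < M := by rw [hM]; positivity
  rw [← hM] at hin hout ⊢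
  obtain ⟨T, hT⟩ : ∃ T, T = ∫⁻ t in Ioi 0, ENNReal.ofReal (q (k * a) t) *
          ∫⁻ y, ENNReal.ofReal (‖fderiv ℝ u (t ^ a • y)‖ ^ 2) ∂(un K) := ⟨_, rfl⟩
  rw [← hT] at hout ⊢
  have hTi : ∫⁻ t in Ioc 0 (2 * M), ENNReal.ofReal (q (k * a) t) *
      ∫⁻ y, ENNReal.ofReal (‖fderiv ℝ u (t ^ a • y)‖ ^ 2) ∂(un K) ≤ T := by
    rw [hT]
    exact lintegral_mono_set Ioc_subset_Ioi_self
  obtain ⟨I, hI⟩ : ∃ I, I = ∫⁻ t in Ioc 0 (2 * M), ENNReal.ofReal (q (k * a) t) *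
      ∫⁻ y, ENNReal.ofReal ((u (t ^ a • y) - c) ^ 2) ∂(un K) := ⟨_, rfl⟩
  rw [← hI] at hin hout
  have hsplit : ∫⁻ t in Ioi 0, ENNReal.ofReal (q (k * a) t) *
        ∫⁻ y, ENNReal.ofReal ((u (t ^ a • y) - c) ^ 2) ∂(un K) ≤
      I + ∫⁻ t in Ioi (2 * M), ENNReal.ofReal (q (k * a) t) *
        ∫⁻ y, ENNReal.ofReal ((u (t ^ a • y) - c) ^ 2) ∂(un K) := by
    rw [hI, ← Ioc_union_Ioi_eq_Ioi (show (0 : ℝ) ≤ 2 * M by positivity)]
    exact lintegral_union_le _ _ _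
  have h2M : (2 * M) ^ (2 * a) ≤ 4 * M ^ (2 * a) := by
    rw [Real.mul_rpow (by norm_num) hM0.le]
    refine mul_le_mul_of_nonneg_right ?_ (Real.rpow_nonneg hM0.le _)
    calc (2 : ℝ) ^ (2 * a) ≤ 2 ^ (2 : ℝ) :=
          Real.rpow_le_rpow_of_exponent_le (by norm_num) (by linarith)
      _ = 4 := by norm_num
  have hP := Real.rpow_nonneg hM0.le (2 * a)
  have hI' : I ≤ ENNReal.ofReal (4 * (c0 + 1) * M ^ (2 * a)) * T := by
    refine hin.trans (mul_le_mul' (ENNReal.ofReal_le_ofReal ?_) hTi)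
    calc (c0 + 1) * (2 * M) ^ (2 * a) ≤ (c0 + 1) * (4 * M ^ (2 * a)) :=
          mul_le_mul_of_nonneg_left h2M (by positivity)
      _ = _ := by ring
  refine hsplit.trans ?_
  refine (add_le_add le_rfl hout).trans ?_
  have h13 : I + (36 * (ENNReal.ofReal (8 * M ^ (2 * a)) * T) + 12 * I) =
      13 * I + 36 * (ENNReal.ofReal (8 * M ^ (2 * a)) * T) := by ring
  rw [h13]
  refine (add_le_add (mul_le_mul_right hI' 13) le_rfl).trans (le_of_eq ?_)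
  have e13 : (13 : ℝ≥0∞) = ENNReal.ofReal 13 := by norm_num
  have e36 : (36 : ℝ≥0∞) = ENNReal.ofReal 36 := by norm_num
  rw [e13, e36, ← mul_assoc, ← mul_assoc, ← ENNReal.ofReal_mul (by norm_num),
    ← ENNReal.ofReal_mul (by norm_num), ← add_mul, ← ENNReal.ofReal_add (by positivity)
    (by positivity)]
  congr 2
  ring

end

variable {k : ℕ} {p : ℝ} {Φ : Eu (Fin k) → ℝ} {c0 : ℝ}

/-- integrability -/
theorem adm_int {w : Eu (Fin k) → ℝ} (hw : Adm w) {f : Eu (Fin k) → ℝ} (hf : Measurable f) {C : ℝ}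
    (hb : ∀ x, |f x| ≤ C * (1 + ‖x‖ ^ 2)) : Integrable fun x => f x * w x := by
  refine (hw.int.const_mul C).mono' (hf.mul hw.meas).aestronglyMeasurable
    (Eventually.of_forall fun x => ?_)
  rw [Real.norm_eq_abs, abs_mul, abs_of_nonneg (hw.nonneg x), ← mul_assoc]
  exact mul_le_mul_of_nonneg_right (hb x) (hw.nonneg x)

theorem pass {w : Eu (Fin k) → ℝ} (hw : Adm w) {f : Eu (Fin k) → ℝ} (hf : Measurable f) {C : ℝ}
    (hb : ∀ x, |f x| ≤ C * (1 + ‖x‖ ^ 2)) (h0 : ∀ x, 0 ≤ f x) :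
    ENNReal.ofReal (∫ x, f x * w x) = ∫⁻ x, ENNReal.ofReal (f x) * ENNReal.ofReal (w x) := by
  rw [ofReal_integral_eq_lintegral_ofReal (adm_int hw hf hb)
    (Eventually.of_forall fun x => mul_nonneg (h0 x) (hw.nonneg x))]
  exact lintegral_congr fun x => ENNReal.ofReal_mul (h0 x)

/-- Poincare inequality for `exp (-Φ)` on the scale of the covariance -/
theorem poi_w (hk : 1 ≤ k) (hc0 : 0 ≤ c0) (hp : 1 ≤ p) (hΦ : Pow p Φ)
    (hK : IsoB c0 {x | Φ x ≤ 1}) {L : ℝ} {u : Eu (Fin k) → ℝ} (hu : Bd L u) :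
    VW (fun x => Real.exp (-Φ x)) u ≤ (52 * c0 + 340) * ((k : ℝ) / p + 1) ^ (2 / p) *
      EW (fun x => Real.exp (-Φ x)) fun x => ‖fderiv ℝ u x‖ ^ 2 := by
  have hw := hΦ.adm hp
  have huc := hu.c1.continuous
  have hd : Continuous (fderiv ℝ u) := hu.c1.continuous_fderiv one_ne_zero
  have hp0 : 0 < p := by linarith
  have hL0 : 0 ≤ L := (abs_nonneg _).trans (hu.bd 0)
  have ha0 : 0 < 1 / p := by positivity
  have ha1 : 1 / p ≤ 1 := by rw [div_le_one hp0]; exact hp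
  have ht := total hK hk hc0 hu ha0 ha1
  have e1 : (k : ℝ) * (1 / p) = k / p := by ring
  have e2 : 2 * (1 / p) = 2 / p := by ring
  rw [e1, e2] at ht
  obtain ⟨c, hc⟩ : ∃ c, c = gg {x | Φ x ≤ 1} (1 / p) u (k / p) := ⟨_, rfl⟩
  rw [← hc] at ht
  obtain ⟨C, hC⟩ : ∃ C : ℝ, C = (52 * c0 + 340) * ((k : ℝ) / p + 1) ^ (2 / p) := ⟨_, rfl⟩
  have hC0 : 0 ≤ C := by rw [hC]; positivity
  rw [← hC] at ht ⊢
  have b1 : ∀ x, |(u x - c) ^ 2| ≤ (L + |c|) ^ 2 * (1 + ‖x‖ ^ 2) := by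
    intro x
    rw [abs_pow]
    have h1 : |u x - c| ≤ L + |c| := (abs_sub _ _).trans (add_le_add (hu.bd x) le_rfl)
    have h2 := pow_le_pow_left₀ (abs_nonneg _) h1 2
    nlinarith [sq_nonneg ‖x‖, sq_nonneg (L + |c|)]
  have b2 : ∀ x, |‖fderiv ℝ u x‖ ^ 2| ≤ L ^ 2 * (1 + ‖x‖ ^ 2) := by
    intro x
    rw [abs_pow, abs_norm]
    have h2 := pow_le_pow_left₀ (norm_nonneg _) (hu.gd x) 2
    nlinarith [sq_nonneg ‖x‖, sq_nonneg L]
  have m1 : Measurable fun x => (u x - c) ^ 2 := (by fun_prop : Continuous _).measurable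
  have m2 : Measurable fun x => ‖fderiv ℝ u x‖ ^ 2 := (hd.norm.pow 2).measurable
  have h1 := pass hw m1 b1 fun x => sq_nonneg _
  have h2 := pass hw m2 b2 fun x => sq_nonneg _
  rw [mix_un hp hΦ (fun x => ENNReal.ofReal ((u x - c) ^ 2)) m1.ennreal_ofReal] at h1
  rw [mix_un hp hΦ (fun x => ENNReal.ofReal (‖fderiv ℝ u x‖ ^ 2)) m2.ennreal_ofReal] at h2
  have h3 : ∫ x, (u x - c) ^ 2 * Real.exp (-Φ x) ≤
      C * ∫ x, ‖fderiv ℝ u x‖ ^ 2 * Real.exp (-Φ x) := by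
    have hn : 0 ≤ ∫ x, ‖fderiv ℝ u x‖ ^ 2 * Real.exp (-Φ x) :=
      integral_nonneg fun x => by positivity
    rw [← ENNReal.ofReal_le_ofReal_iff (by positivity), ENNReal.ofReal_mul hC0, h1, h2,
      mul_left_comm]
    exact mul_le_mul_right ht _
  have hw0 := hw.pos
  obtain ⟨W, hW⟩ : ∃ W, W = ∫ x, Real.exp (-Φ x) := ⟨_, rfl⟩
  rw [← hW] at hw0
  -- the variance
  have i0 : Integrable fun x => Real.exp (-Φ x) := by
    have := adm_int hw (f := fun _ => 1) measurable_const (C := 1) fun x => by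
      rw [abs_one]
      nlinarith [sq_nonneg ‖x‖]
    simpa using this
  have i1 : Integrable fun x => u x * Real.exp (-Φ x) := adm_int hw huc.measurable (C := L)
    fun x => (hu.bd x).trans (by nlinarith [sq_nonneg ‖x‖])
  have i2 : Integrable fun x => u x ^ 2 * Real.exp (-Φ x) :=
    adm_int hw (huc.pow 2).measurable (C := L ^ 2) fun x => by
      rw [abs_pow]
      have h2 := pow_le_pow_left₀ (abs_nonneg _) (hu.bd x) 2
      nlinarith [sq_nonneg ‖x‖, sq_nonneg L]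
  have h4 : ∫ x, (u x - c) ^ 2 * Real.exp (-Φ x) =
      (∫ x, u x ^ 2 * Real.exp (-Φ x)) - 2 * c * (∫ x, u x * Real.exp (-Φ x)) + c ^ 2 * W := by
    have e : ∀ x, (u x - c) ^ 2 * Real.exp (-Φ x) = u x ^ 2 * Real.exp (-Φ x) -
        2 * c * (u x * Real.exp (-Φ x)) + c ^ 2 * Real.exp (-Φ x) := fun x => by ring
    simp only [e]
    have i3 : Integrable fun x => u x ^ 2 * Real.exp (-Φ x) - 2 * c * (u x * Real.exp (-Φ x)) :=
      i2.sub (i1.const_mul _)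
    rw [integral_add i3 (i0.const_mul _), integral_sub i2 (i1.const_mul _), integral_const_mul,
      integral_const_mul, hW]
  rw [h4] at h3
  unfold VW EW
  simp only []
  rw [← hW]
  obtain ⟨X, hX⟩ : ∃ X, X = ∫ x, u x * Real.exp (-Φ x) := ⟨_, rfl⟩
  obtain ⟨Y, hY⟩ : ∃ Y, Y = ∫ x, u x ^ 2 * Real.exp (-Φ x) := ⟨_, rfl⟩
  obtain ⟨Z, hZ⟩ : ∃ Z, Z = ∫ x, ‖fderiv ℝ u x‖ ^ 2 * Real.exp (-Φ x) := ⟨_, rfl⟩
  rw [← hX, ← hY, ← hZ]
  rw [← hX, ← hY, ← hZ] at h3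
  have h5 : Y / W - (X / W) ^ 2 ≤ (Y - 2 * c * X + c ^ 2 * W) / W := by
    rw [sub_le_iff_le_add]
    have h6 : 0 ≤ (X / W - c) ^ 2 := sq_nonneg _
    have h7 : (Y - 2 * c * X + c ^ 2 * W) / W = Y / W - 2 * c * (X / W) + c ^ 2 := by
      field_simp
    rw [h7]
    nlinarith
  refine h5.trans ?_
  rw [← mul_div_assoc]
  exact div_le_div_of_nonneg_right h3 hw0.le

/-- the covariance of `exp (-Φ)` -/
theorem cov_w (hk : 1 ≤ k) (hp : 1 ≤ p) (hΦ : Pow p Φ) (hce : Cen Φ)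
    (hK : IsoB c0 {x | Φ x ≤ 1}) (θ : Eu (Fin k)) :
    VW (fun x => Real.exp (-Φ x)) (fun x => ⟪x, θ⟫_ℝ) =
      Real.Gamma ((k : ℝ) / p + 2 / p + 1) / Real.Gamma ((k : ℝ) / p + 1) * ‖θ‖ ^ 2 := by
  have hw := hΦ.adm hp
  have hk0 : (1 : ℝ) ≤ k := by exact_mod_cast hk
  have hp0 : 0 < p := by linarith
  have hm0 : 0 < (k : ℝ) / p := by positivity
  have hprob := hK.prob
  obtain ⟨C, hC0, hG⟩ := Pool.Agent.R751.MB.gmm
  have hV0 : 0 < (volume {x | Φ x ≤ 1}).toReal :=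
    ENNReal.toReal_pos (vol_ne hK.int) hK.comp.measure_lt_top.ne
  have hV : volume {x | Φ x ≤ 1} = ENNReal.ofReal (volume {x | Φ x ≤ 1}).toReal :=
    (ENNReal.ofReal_toReal hK.comp.measure_lt_top.ne).symm
  obtain ⟨V, hVd⟩ : ∃ V, V = (volume {x | Φ x ≤ 1}).toReal := ⟨_, rfl⟩
  rw [← hVd] at hV hV0
  have hg1 : 0 < Real.Gamma ((k : ℝ) / p + 1) := Real.Gamma_pos_of_pos (by positivity)
  have hg2 : 0 < Real.Gamma ((k : ℝ) / p + 2 / p + 1) := Real.Gamma_pos_of_pos (by positivity)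
  -- total mass
  have hW : ∫ x, Real.exp (-Φ x) = V * Real.Gamma ((k : ℝ) / p + 1) := by
    have h1 := pass hw (f := fun _ => 1) measurable_const (C := 1) (fun x => by
      rw [abs_one]
      nlinarith [sq_nonneg ‖x‖]) fun _ => zero_le_one
    rw [mix_un hp hΦ (fun _ => ENNReal.ofReal 1) measurable_const] at h1
    simp only [one_mul, lintegral_const, measure_univ, mul_one, ENNReal.ofReal_one] at h1
    have h2 := (hG ((k : ℝ) / p) hm0).1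
    have h3 : ∫⁻ t in Ioi 0, ENNReal.ofReal (q ((k : ℝ) / p) t) =
        ENNReal.ofReal (Real.Gamma ((k : ℝ) / p + 1)) := h2
    rw [h3, hV, ← ENNReal.ofReal_mul hV0.le] at h1
    exact (ENNReal.ofReal_eq_ofReal_iff (integral_nonneg fun x => (Real.exp_pos _).le)
      (by positivity)).1 h1
  -- second moment
  have hS : ∫ x, ⟪x, θ⟫_ℝ ^ 2 * Real.exp (-Φ x) =
      V * (‖θ‖ ^ 2 * Real.Gamma ((k : ℝ) / p + 2 / p + 1)) := by
    have h1 := pass hw (f := fun x => ⟪x, θ⟫_ℝ ^ 2) (by fun_prop) (C := ‖θ‖ ^ 2) (fun x => by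
      rw [abs_pow]
      have h2 := pow_le_pow_left₀ (abs_nonneg _) (abs_real_inner_le_norm x θ) 2
      nlinarith [sq_nonneg ‖x‖, sq_nonneg ‖θ‖]) fun x => sq_nonneg _
    rw [mix_un hp hΦ (fun x => ENNReal.ofReal (⟪x, θ⟫_ℝ ^ 2)) (by fun_prop)] at h1
    have h2 : ∀ t ∈ Ioi (0 : ℝ), ENNReal.ofReal (q ((k : ℝ) / p) t) *
        ∫⁻ y, ENNReal.ofReal (⟪t ^ (1 / p) • y, θ⟫_ℝ ^ 2) ∂(un {x | Φ x ≤ 1}) =
        ENNReal.ofReal (‖θ‖ ^ 2) * ENNReal.ofReal (t ^ ((k : ℝ) / p + 2 / p) * Real.exp (-t)) := by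
      intro t ht
      have ht0 : 0 < t := ht
      have hq := (q_pos (m := (k : ℝ) / p) ht0).le
      rw [sq_int hK (f := fun y => ⟪t ^ (1 / p) • y, θ⟫_ℝ) (by fun_prop)]
      have h3 : ∀ y : Eu (Fin k), ⟪t ^ (1 / p) • y, θ⟫_ℝ ^ 2 = t ^ (2 / p) * ⟪y, θ⟫_ℝ ^ 2 := by
        intro y
        rw [real_inner_smul_left, mul_pow]
        congr 1
        rw [← Real.rpow_natCast, ← Real.rpow_mul ht0.le]
        congr 1
        push_cast
        ring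
      simp only [h3]
      rw [integral_const_mul, hK.cov, ← ENNReal.ofReal_mul hq, ← ENNReal.ofReal_mul (by positivity)]
      congr 1
      unfold q
      rw [Real.rpow_add ht0]
      ring
    rw [setLIntegral_congr_fun measurableSet_Ioi h2, lintegral_const_mul' _ _ ENNReal.ofReal_ne_top,
      (hG ((k : ℝ) / p + 2 / p) (by positivity)).1, hV, ← ENNReal.ofReal_mul (by positivity),
      ← ENNReal.ofReal_mul hV0.le] at h1
    exact (ENNReal.ofReal_eq_ofReal_iff (integral_nonneg fun x => by positivity)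
      (by positivity)).1 h1
  -- mean
  have hMn : ∫ x, ⟪x, θ⟫_ℝ * Real.exp (-Φ x) = 0 := cen_w hp hΦ hce θ
  unfold VW EW
  simp only []
  rw [hW, hS, hMn]
  field_simp
  ring

/-- **Poincare inequality for `exp (-Φ)`**, isotropic case -/
theorem iso_ap (hk : 1 ≤ k) (hc0 : 0 ≤ c0) (hp : 1 ≤ p) (hΦ : Pow p Φ) (hce : Cen Φ)
    (hK : IsoB c0 {x | Φ x ≤ 1}) : AP (4 * (52 * c0 + 340)) fun x => Real.exp (-Φ x) := by
  have hk0 : (1 : ℝ) ≤ k := by exact_mod_cast hk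
  have hp0 : 0 < p := by linarith
  obtain ⟨R, hR⟩ : ∃ R : ℝ, R = Real.Gamma ((k : ℝ) / p + 2 / p + 1) /
    Real.Gamma ((k : ℝ) / p + 1) := ⟨_, rfl⟩
  have hg1 : 0 < Real.Gamma ((k : ℝ) / p + 1) := Real.Gamma_pos_of_pos (by positivity)
  have hg2 : 0 < Real.Gamma ((k : ℝ) / p + 2 / p + 1) := Real.Gamma_pos_of_pos (by positivity)
  have hR0 : 0 < R := by rw [hR]; positivity
  have hRM : ((k : ℝ) / p + 1) ^ (2 / p) ≤ 4 * R := by
    have h1 := gamma_ratio hk0 (a := 1 / p) (by positivity) (by rw [div_le_one hp0]; exact hp)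
    have e1 : (k : ℝ) * (1 / p) = k / p := by ring
    have e2 : 2 * (1 / p) = 2 / p := by ring
    rw [e1, e2] at h1
    rw [hR, ← mul_div_assoc, le_div_iff₀ hg1]
    linarith
  obtain ⟨c, hc⟩ : ∃ c : ℝ, c = (Real.sqrt R)⁻¹ := ⟨_, rfl⟩
  have hc1 : 0 < c := by rw [hc]; positivity
  have hcR : c ^ 2 * R = 1 := by
    rw [hc, inv_pow, Real.sq_sqrt hR0.le, inv_mul_cancel₀ hR0.ne']
  refine ⟨hΦ.adm hp, (LinearEquiv.smulOfNeZero ℝ (Eu (Fin k)) c hc1.ne').toContinuousLinearEquiv,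
    fun θ => ?_, fun f hf ⟨B, hB⟩ ⟨L, hL⟩ => ?_⟩
  · have h1 := cov_w hk hp hΦ hce hK (c • θ)
    rw [← hR, norm_smul, mul_pow, Real.norm_eq_abs, sq_abs] at h1
    have h2 : R * (c ^ 2 * ‖θ‖ ^ 2) = ‖θ‖ ^ 2 := by
      calc R * (c ^ 2 * ‖θ‖ ^ 2) = (c ^ 2 * R) * ‖θ‖ ^ 2 := by ring
        _ = _ := by rw [hcR, one_mul]
    rw [h2] at h1
    rw [← h1]
    congr 1
    funext x
    show ⟪c • x, θ⟫_ℝ = ⟪x, c • θ⟫_ℝ
    rw [real_inner_smul_left, real_inner_smul_right]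
  · have hfd : ∀ x, fderiv ℝ (fun x => f (c • x)) x = c • fderiv ℝ f (c • x) := fun x =>
      fderiv_comp_smul (f := f) c
    have hu : Bd (max B (c * L)) (fun x => f (c • x)) := by
      refine ⟨hf.comp (contDiff_const_smul c), fun x => (hB _).trans (le_max_left _ _),
        fun x => ?_⟩
      rw [hfd, norm_smul, Real.norm_eq_abs, abs_of_pos hc1]
      exact (mul_le_mul_of_nonneg_left (hL _) hc1.le).trans (le_max_right _ _)
    have h1 := poi_w hk hc0 hp hΦ hK hu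
    have h2 : EW (fun x => Real.exp (-Φ x)) (fun x => ‖fderiv ℝ (fun x => f (c • x)) x‖ ^ 2) =
        c ^ 2 * EW (fun x => Real.exp (-Φ x)) fun x => ‖fderiv ℝ f (c • x)‖ ^ 2 := by
      unfold EW
      rw [← mul_div_assoc, ← integral_const_mul]
      congr 2
      funext x
      simp only []
      rw [hfd, norm_smul, Real.norm_eq_abs, mul_pow, sq_abs]
      ring
    rw [h2] at h1
    refine h1.trans ?_
    have h3 : 0 ≤ EW (fun x => Real.exp (-Φ x)) fun x => ‖fderiv ℝ f (c • x)‖ ^ 2 := by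
      unfold EW
      exact div_nonneg (integral_nonneg fun x => by positivity)
        (integral_nonneg fun x => (Real.exp_pos _).le)
    have h4 : ((k : ℝ) / p + 1) ^ (2 / p) * c ^ 2 ≤ 4 := by
      calc ((k : ℝ) / p + 1) ^ (2 / p) * c ^ 2 ≤ 4 * R * c ^ 2 :=
            mul_le_mul_of_nonneg_right hRM (sq_nonneg _)
        _ = 4 * (c ^ 2 * R) := by ring
        _ = 4 := by rw [hcR]; norm_num
    calc (52 * c0 + 340) * ((k : ℝ) / p + 1) ^ (2 / p) *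
          (c ^ 2 * EW (fun x => Real.exp (-Φ x)) fun x => ‖fderiv ℝ f (c • x)‖ ^ 2) =
        (52 * c0 + 340) * (((k : ℝ) / p + 1) ^ (2 / p) * c ^ 2) *
          (EW (fun x => Real.exp (-Φ x)) fun x => ‖fderiv ℝ f (c • x)‖ ^ 2) := by ring
      _ ≤ (52 * c0 + 340) * 4 *
          (EW (fun x => Real.exp (-Φ x)) fun x => ‖fderiv ℝ f (c • x)‖ ^ 2) := by gcongr
      _ = 4 * (52 * c0 + 340) *
          (EW (fun x => Real.exp (-Φ x)) fun x => ‖fderiv ℝ f (c • x)‖ ^ 2) := by ring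

end Pool.Agent.T2H47.KB
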