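import Mathlib
import Pool.Agent.T2H47.KB.Ap
import Pool.Agent.R751.MB.Lin
import Pool.Agent.R751.MB.Mix
import Pool.Agent.R755.KF.Iso
import Pool.Agent.R754.KG.C

/-!
# Poincare inequality for `exp (-‖x‖_K^p)`
-/

set_option autoImplicit false

namespace Pool.Agent.T2H47.KB

open MeasureTheory Set Filter Topology
open scoped ENNReal InnerProductSpace
open Pool.Agent.R751.MB (Eu EW VW Adm AP Pow)
open Pool.Agent.R754.KG (un un_prob un_lint un_int)

variable {k : ℕ} {p : ℝ} {Φ : Eu (Fin k) → ℝ} {c0 : ℝ}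

/-- the uniform measure on the image of a set -/
theorem un_lin {K : Set (Eu (Fin k))} (hK : MeasurableSet K) (A : Eu (Fin k) ≃ₗ[ℝ] Eu (Fin k))
    (f : Eu (Fin k) → ℝ) :
    ∫ z, f z ∂(un {z | A.symm z ∈ K}) = ∫ x, f (A x) ∂(un K) := by
  have hA : Continuous A.symm := A.symm.toLinearMap.continuous_of_finiteDimensional
  have h1 := Pool.Agent.R754.KG.EW_ind (A := {z | A.symm z ∈ K}) (hA.measurable hK) f
  have h2 := Pool.Agent.R754.KG.EW_ind hK fun x => f (A x)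
  rw [← h1, ← h2]
  have h3 := Pool.Agent.R751.MB.LinAux.EW_comp A (Pool.Agent.R751.MB.ind K) f
  exact h3

/-- normalised and unnormalised integrals -/
theorem un_scal {K : Set (Eu (Fin k))} (f : Eu (Fin k) → ℝ) :
    ∫ x, f x ∂(un K) = ((volume K)⁻¹).toReal * ∫ x in K, f x := by
  unfold un
  rw [integral_smul_measure, smul_eq_mul]

theorem cen_un {Ψ : Eu (Fin k) → ℝ} (h : Cen Ψ) (θ : Eu (Fin k)) :
    ∫ x, ⟪x, θ⟫_ℝ ∂(un {x | Ψ x ≤ 1}) = 0 := by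
  rw [un_scal, h θ, mul_zero]

theorem un_cen {Ψ : Eu (Fin k) → ℝ} (h0 : volume {x | Ψ x ≤ 1} ≠ 0)
    (h1 : volume {x | Ψ x ≤ 1} ≠ ⊤)
    (h : ∀ θ, ∫ x, ⟪x, θ⟫_ℝ ∂(un {x | Ψ x ≤ 1}) = 0) : Cen Ψ := by
  intro θ
  have h2 := h θ
  rw [un_scal] at h2
  rcases mul_eq_zero.1 h2 with h3 | h3
  · exfalso
    exact (ENNReal.toReal_pos (ENNReal.inv_ne_zero.2 h1) (ENNReal.inv_ne_top.2 h0)).ne' h3
  · exact h3

/-- odd functions have mean zero on symmetric sets -/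
theorem cen_even {Ψ : Eu (Fin k) → ℝ} (hm : MeasurableSet {x | Ψ x ≤ 1})
    (hev : ∀ x, Ψ (-x) = Ψ x) : Cen Ψ := by
  intro θ
  rw [← integral_indicator hm]
  have h1 := integral_neg_eq_self (fun x : Eu (Fin k) =>
    {x | Ψ x ≤ 1}.indicator (fun x => ⟪x, θ⟫_ℝ) x) volume
  have h2 : ∀ x, {x | Ψ x ≤ 1}.indicator (fun x => ⟪x, θ⟫_ℝ) (-x) =
      -{x | Ψ x ≤ 1}.indicator (fun x => ⟪x, θ⟫_ℝ) x := by
    intro x
    by_cases hx : Ψ x ≤ 1
    · rw [indicator_of_mem (show -x ∈ {x | Ψ x ≤ 1} by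
        show Ψ (-x) ≤ 1
        rwa [hev]), indicator_of_mem (show x ∈ {x | Ψ x ≤ 1} from hx), inner_neg_left]
    · rw [indicator_of_notMem (show -x ∉ {x | Ψ x ≤ 1} by
        show ¬ Ψ (-x) ≤ 1
        rwa [hev]), indicator_of_notMem (show x ∉ {x | Ψ x ≤ 1} from hx), neg_zero]
  simp only [h2, integral_neg] at h1
  linarith

/-- **Poincare inequality for `exp (-Φ)`** -/
theorem poi_ap (hk : 1 ≤ k) (hc0 : 0 ≤ c0) (hp : 1 ≤ p) (hΦ : Pow p Φ) (hce : Cen Φ)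
    (hK : Pool.Agent.R755.KF.PI c0 {x | Φ x ≤ 1}) :
    AP (4 * (52 * c0 + 340)) fun x => Real.exp (-Φ x) := by
  obtain ⟨A, h1, h2⟩ := hK.poi
  have hΨ := hΦ.lin A
  have hb := hΨ.body hp
  have hKm : MeasurableSet {x | Φ x ≤ 1} := hK.comp.measurableSet
  have hun : ∀ f : Eu (Fin k) → ℝ, ∫ z, f z ∂(un {z | Φ (A.symm z) ≤ 1}) =
      ∫ x, f (A x) ∂(un {x | Φ x ≤ 1}) := fun f => un_lin hKm A f
  have hmean : ∀ θ : Eu (Fin k), ∫ x, ⟪A x, θ⟫_ℝ ∂(un {x | Φ x ≤ 1}) = 0 := by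
    intro θ
    have h3 : ∀ x, ⟪A x, θ⟫_ℝ = ⟪x, LinearMap.adjoint A.toLinearMap θ⟫_ℝ := by
      intro x
      rw [LinearMap.adjoint_inner_right]
      rfl
    simp only [h3]
    exact cen_un hce _
  have hIso : IsoB c0 {z | Φ (A.symm z) ≤ 1} := by
    refine ⟨hb.comp, hb.conv, hb.int, fun θ => ?_, fun θ => ?_, fun f hf => ?_⟩
    · rw [hun]
      have h3 := h1 θ
      rw [hmean] at h3
      linarith
    · rw [hun]
      exact hmean θ
    · rw [hun, hun, hun]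
      exact h2 f hf
  have hce' : Cen fun z => Φ (A.symm z) := by
    refine un_cen ?_ hb.comp.measure_lt_top.ne fun θ => ?_
    · exact (lt_of_lt_of_le (isOpen_interior.measure_pos volume hb.int)
        (measure_mono interior_subset)).ne'
    · rw [hun]
      exact hmean θ
  have h3 := iso_ap hk hc0 hp hΨ hce' hIso
  have h4 := Pool.Agent.R751.MB.lin _ _ _ A.symm _ h3
  have e : (fun z => Real.exp (-Φ (A.symm (A.symm.symm z)))) = fun z => Real.exp (-Φ z) := by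
    funext z
    rw [LinearEquiv.symm_symm, A.symm_apply_apply]
  rw [e] at h4
  exact h4

end Pool.Agent.T2H47.KB
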