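import Mathlib
import Pool.Agent.T2H47.KB.Poi
import Pool.Agent.Y211.PV.Iso

/-!
# Convex bodies of bounded dimension satisfy the Poincare inequality
-/

set_option autoImplicit false

namespace Pool.Agent.T2H47.KB

open MeasureTheory Set Filter Topology
open scoped ENNReal InnerProductSpace
open Pool.Agent.R751.MB (Eu EW VW Adm AP Pow)
open Pool.Agent.R754.KG (un un_prob un_lint un_int)

variable {k : ℕ} {K : Set (Eu (Fin k))}

/-- homotheties -/
theorem homoth {t : ℝ} (ht : 1 / 2 ≤ t) (c : Eu (Fin k)) {F : Eu (Fin k) → ℝ≥0∞}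
    (hF : Measurable F) : ∫⁻ x, F (c + t • x) ≤ 2 ^ k * ∫⁻ x, F x := by
  have ht0 : 0 < t := by linarith
  have h1 : ∫⁻ x, F (c + t • x) = ∫⁻ x, (fun z => F (c + z)) (t • x) := rfl
  have h2 := lintegral_map (μ := (volume : Measure (Eu (Fin k)))) (f := fun z => F (c + z))
    (hF.comp (measurable_const_add c)) (measurable_const_smul t)
  rw [Measure.map_addHaar_smul (volume : Measure (Eu (Fin k))) ht0.ne', lintegral_smul_measure,
    finrank_euclideanSpace_fin, smul_eq_mul, lintegral_add_left_eq_self F c] at h2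
  rw [h1, ← h2]
  refine mul_le_mul_left ?_ _
  rw [abs_of_pos (by positivity)]
  have h3 : (t ^ k)⁻¹ ≤ 2 ^ k := by
    rw [← inv_pow]
    refine pow_le_pow_left₀ (by positivity) ?_ k
    rw [inv_le_comm₀ ht0 two_pos]
    linarith
  calc ENNReal.ofReal (t ^ k)⁻¹ ≤ ENNReal.ofReal (2 ^ k) := ENNReal.ofReal_le_ofReal h3
    _ = 2 ^ k := by rw [ENNReal.ofReal_pow (by norm_num)]; norm_num

theorem inner_le (hm : MeasurableSet K) (hv : Convex ℝ K) {t : ℝ}
    (ht : 1 / 2 ≤ t) (ht1 : t ≤ 1) {y : Eu (Fin k)} (hy : y ∈ K) {G : Eu (Fin k) → ℝ≥0∞}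
    (hG : Measurable G) :
    ∫⁻ x, G ((1 - t) • y + t • x) ∂(un K) ≤ 2 ^ k * ∫⁻ x, G x ∂(un K) := by
  unfold un
  rw [lintegral_smul_measure, lintegral_smul_measure, smul_eq_mul, smul_eq_mul]
  rw [mul_left_comm]
  refine mul_le_mul_right ?_ _
  rw [← lintegral_indicator hm, ← lintegral_indicator hm]
  refine le_trans (lintegral_mono fun x => ?_) (homoth ht ((1 - t) • y) (hG.indicator hm))
  by_cases hx : x ∈ K
  · have h1 : (1 - t) • y + t • x ∈ K := hv hy hx (by linarith) (by linarith) (by ring)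
    rw [indicator_of_mem hx, indicator_of_mem h1]
  · rw [indicator_of_notMem hx]
    exact bot_le

theorem un_ae (hm : MeasurableSet K) : ∀ᵐ x ∂(un K), x ∈ K := by
  unfold un
  exact Measure.ae_smul_measure (ae_restrict_mem hm) _

/-- the double integral along segments -/
theorem dbl (hm : MeasurableSet K) (hv : Convex ℝ K) (h0 : volume K ≠ 0)
    (h1 : volume K ≠ ⊤) {t : ℝ} (ht0 : 0 ≤ t) (ht1 : t ≤ 1) {G : Eu (Fin k) → ℝ≥0∞}
    (hG : Measurable G) :
    ∫⁻ y, ∫⁻ x, G ((1 - t) • y + t • x) ∂(un K) ∂(un K) ≤ 2 ^ k * ∫⁻ x, G x ∂(un K) := by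
  have hp := un_prob h0 h1
  rcases le_total (1 / 2) t with h | h
  · calc ∫⁻ y, ∫⁻ x, G ((1 - t) • y + t • x) ∂(un K) ∂(un K)
        ≤ ∫⁻ _y, 2 ^ k * ∫⁻ x, G x ∂(un K) ∂(un K) := by
          refine lintegral_mono_ae ?_
          filter_upwards [un_ae hm] with y hy
          exact inner_le hm hv h ht1 hy hG
      _ = _ := by rw [lintegral_const, measure_univ, mul_one]
  · rw [lintegral_lintegral_swap]
    · calc ∫⁻ x, ∫⁻ y, G ((1 - t) • y + t • x) ∂(un K) ∂(un K)
          ≤ ∫⁻ _y, 2 ^ k * ∫⁻ x, G x ∂(un K) ∂(un K) := by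
            refine lintegral_mono_ae ?_
            filter_upwards [un_ae hm] with x hx
            have h2 := inner_le hm hv (t := 1 - t) (by linarith) (by linarith) hx hG
            simp only [sub_sub_cancel] at h2
            refine le_trans (le_of_eq ?_) h2
            refine lintegral_congr fun y => ?_
            rw [add_comm]
        _ = _ := by rw [lintegral_const, measure_univ, mul_one]
    · refine Measurable.aemeasurable ?_
      exact hG.comp (by fun_prop)

/-- functions along segments -/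
theorem seg {f : Eu (Fin k) → ℝ} (hf : ContDiff ℝ 1 f) (x y : Eu (Fin k)) :
    (f x - f y) ^ 2 ≤ ‖x - y‖ ^ 2 * ∫ t in (0 : ℝ)..1, ‖fderiv ℝ f ((1 - t) • y + t • x)‖ ^ 2 := by
  have hp : ∀ t : ℝ, HasDerivAt (fun t : ℝ => (1 - t) • y + t • x) (x - y) t := by
    intro t
    have h1 : HasDerivAt (fun t : ℝ => (1 - t) • y + t • x) ((-1 : ℝ) • y + (1 : ℝ) • x) t := by
      have h2 : HasDerivAt (fun t : ℝ => (1 - t)) (-1) t := by
        simpa using (hasDerivAt_id t).const_sub 1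
      exact (h2.smul_const y).add ((hasDerivAt_id t).smul_const x)
    convert h1 using 1
    module
  have hd : ∀ t : ℝ, HasDerivAt (fun t : ℝ => f ((1 - t) • y + t • x))
      (fderiv ℝ f ((1 - t) • y + t • x) (x - y)) t := fun t =>
    ((hf.differentiable one_ne_zero) _).hasFDerivAt.comp_hasDerivAt t (hp t)
  have hc1 : Continuous fun t : ℝ => (1 - t) • y + t • x := by fun_prop
  have hfc : Continuous fun z => fderiv ℝ f z := hf.continuous_fderiv one_ne_zero
  have hc : Continuous fun t : ℝ => fderiv ℝ f ((1 - t) • y + t • x) (x - y) :=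
    (hfc.comp hc1).clm_apply continuous_const
  have hi := intervalIntegral.integral_eq_sub_of_hasDerivAt (a := 0) (b := 1)
    (fun t _ => hd t) (hc.intervalIntegrable 0 1)
  simp only [sub_zero, one_smul, zero_smul, add_zero, sub_self, zero_add] at hi
  obtain ⟨c, hcd⟩ : ∃ c, c = f x - f y := ⟨_, rfl⟩
  rw [← hcd] at hi ⊢
  have h3 : 0 ≤ ∫ t in (0 : ℝ)..1, (fderiv ℝ f ((1 - t) • y + t • x) (x - y) - c) ^ 2 :=
    intervalIntegral.integral_nonneg zero_le_one fun t _ => sq_nonneg _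
  have h4 : ∫ t in (0 : ℝ)..1, (fderiv ℝ f ((1 - t) • y + t • x) (x - y) - c) ^ 2 =
      (∫ t in (0 : ℝ)..1, (fderiv ℝ f ((1 - t) • y + t • x) (x - y)) ^ 2) - c ^ 2 := by
    have e1 : ∀ t : ℝ, (fderiv ℝ f ((1 - t) • y + t • x) (x - y) - c) ^ 2 =
        (fderiv ℝ f ((1 - t) • y + t • x) (x - y)) ^ 2 -
          (2 * c) * fderiv ℝ f ((1 - t) • y + t • x) (x - y) + c ^ 2 := fun t => by ring
    simp only [e1]
    rw [intervalIntegral.integral_add, intervalIntegral.integral_sub,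
      intervalIntegral.integral_const_mul, hi]
    · simp
      ring
    · exact (hc.pow 2).intervalIntegrable 0 1
    · exact (hc.const_mul _).intervalIntegrable 0 1
    · exact ((hc.pow 2).sub (hc.const_mul _)).intervalIntegrable 0 1
    · exact intervalIntegrable_const
  have h5 : ∫ t in (0 : ℝ)..1, (fderiv ℝ f ((1 - t) • y + t • x) (x - y)) ^ 2 ≤
      ∫ t in (0 : ℝ)..1, ‖x - y‖ ^ 2 * ‖fderiv ℝ f ((1 - t) • y + t • x)‖ ^ 2 := by
    refine intervalIntegral.integral_mono_on zero_le_one ((hc.pow 2).intervalIntegrable 0 1)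
      ((((hfc.comp hc1).norm.pow 2).const_mul _).intervalIntegrable 0 1) fun t _ => ?_
    have h6 := (fderiv ℝ f ((1 - t) • y + t • x)).le_opNorm (x - y)
    rw [Real.norm_eq_abs] at h6
    have h7 := pow_le_pow_left₀ (abs_nonneg _) h6 2
    rw [sq_abs, mul_pow] at h7
    linarith
  rw [intervalIntegral.integral_const_mul] at h5
  linarith

/-- the variance as a double integral -/
theorem var_dbl (hc : IsCompact K) (hi : (interior K).Nonempty) {f : Eu (Fin k) → ℝ}
    (hf : Continuous f) : ∫ y, ∫ x, (f x - f y) ^ 2 ∂(un K) ∂(un K) =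
      2 * ((∫ x, f x ^ 2 ∂(un K)) - (∫ x, f x ∂(un K)) ^ 2) := by
  have h0 := vol_ne hi
  have hp := un_prob h0 hc.measure_lt_top.ne
  have hI : ∀ g : Eu (Fin k) → ℝ, Continuous g → Integrable g (un K) := fun g hg =>
    un_int h0 hc.isBounded hg
  have e1 : ∀ y, ∫ x, (f x - f y) ^ 2 ∂(un K) =
      (∫ x, f x ^ 2 ∂(un K)) - 2 * (∫ x, f x ∂(un K)) * f y + f y ^ 2 := by
    intro y
    have e2 : ∀ x, (f x - f y) ^ 2 = f x ^ 2 - (2 * f y) * f x + f y ^ 2 := fun x => by ring
    simp only [e2]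
    rw [integral_add, integral_sub, integral_const_mul, integral_const, probReal_univ, one_smul]
    · ring
    · exact hI _ (hf.pow 2)
    · exact (hI _ hf).const_mul _
    · exact (hI _ (hf.pow 2)).sub ((hI _ hf).const_mul _)
    · exact integrable_const _
  simp only [e1]
  rw [integral_add, integral_sub, integral_const_mul, integral_const, probReal_univ, one_smul]
  · ring
  · exact integrable_const _
  · exact (hI _ hf).const_mul _
  · exact (integrable_const _).sub ((hI _ hf).const_mul _)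
  · exact hI _ (hf.pow 2)

/-- **the Poincare inequality with a constant which depends on the dimension** -/
theorem low_core (hc : IsCompact K) (hv : Convex ℝ K) (hi : (interior K).Nonempty) {D : ℝ}
    (hD : ∀ x ∈ K, ∀ y ∈ K, ‖x - y‖ ^ 2 ≤ D) {f : Eu (Fin k) → ℝ} (hf : ContDiff ℝ 1 f) :
    (∫ x, f x ^ 2 ∂(un K)) - (∫ x, f x ∂(un K)) ^ 2 ≤
      D * 2 ^ k / 2 * ∫ x, ‖fderiv ℝ f x‖ ^ 2 ∂(un K) := by
  have h0 := vol_ne hi
  have h1 : volume K ≠ ⊤ := hc.measure_lt_top.ne
  have hp := un_prob h0 h1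
  have hm := hc.measurableSet
  obtain ⟨x0, hx0⟩ := hi.mono interior_subset
  have hD0 : 0 ≤ D := (sq_nonneg _).trans (hD x0 hx0 x0 hx0)
  have hfc : Continuous fun z => fderiv ℝ f z := hf.continuous_fderiv one_ne_zero
  have hGc : Continuous fun z => ‖fderiv ℝ f z‖ ^ 2 := hfc.norm.pow 2
  obtain ⟨G, hG⟩ : ∃ G : Eu (Fin k) → ℝ≥0∞, G = fun z => ENNReal.ofReal (‖fderiv ℝ f z‖ ^ 2) :=
    ⟨_, rfl⟩
  have hGm : Measurable G := by rw [hG]; exact hGc.measurable.ennreal_ofReal
  have hI : ∀ g : Eu (Fin k) → ℝ, Continuous g → Integrable g (un K) := fun g hg =>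
    un_int h0 hc.isBounded hg
  -- pointwise
  have hpt : ∀ x ∈ K, ∀ y ∈ K, ENNReal.ofReal ((f x - f y) ^ 2) ≤
      ENNReal.ofReal D * ∫⁻ t in Ioc (0 : ℝ) 1, G ((1 - t) • y + t • x) := by
    intro x hx y hy
    have hc1 : Continuous fun t : ℝ => ‖fderiv ℝ f ((1 - t) • y + t • x)‖ ^ 2 :=
      hGc.comp (by fun_prop)
    have h2 := seg hf x y
    have h3 : 0 ≤ ∫ t in (0 : ℝ)..1, ‖fderiv ℝ f ((1 - t) • y + t • x)‖ ^ 2 :=
      intervalIntegral.integral_nonneg zero_le_one fun t _ => sq_nonneg _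
    have h4 : (f x - f y) ^ 2 ≤ D * ∫ t in Ioc (0 : ℝ) 1,
        ‖fderiv ℝ f ((1 - t) • y + t • x)‖ ^ 2 := by
      rw [← intervalIntegral.integral_of_le zero_le_one]
      exact h2.trans (mul_le_mul_of_nonneg_right (hD x hx y hy) h3)
    refine (ENNReal.ofReal_le_ofReal h4).trans ?_
    rw [ENNReal.ofReal_mul hD0, ofReal_integral_eq_lintegral_ofReal]
    · rw [hG]
    · exact hc1.integrableOn_Ioc
    · exact Eventually.of_forall fun t => sq_nonneg _
  have hjm : Measurable fun q : (Eu (Fin k) × ℝ) × Eu (Fin k) =>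
      G ((1 - q.1.2) • q.1.1 + q.1.2 • q.2) := hGm.comp (by fun_prop)
  -- the double integral
  have h5 : ∫⁻ y, ∫⁻ x, ENNReal.ofReal ((f x - f y) ^ 2) ∂(un K) ∂(un K) ≤
      ENNReal.ofReal D * (2 ^ k * ∫⁻ x, G x ∂(un K)) := by
    calc ∫⁻ y, ∫⁻ x, ENNReal.ofReal ((f x - f y) ^ 2) ∂(un K) ∂(un K)
        ≤ ∫⁻ y, ∫⁻ x, (ENNReal.ofReal D * ∫⁻ t in Ioc (0 : ℝ) 1, G ((1 - t) • y + t • x))
            ∂(un K) ∂(un K) := by
          refine lintegral_mono_ae ?_
          filter_upwards [un_ae hm] with y hy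
          refine lintegral_mono_ae ?_
          filter_upwards [un_ae hm] with x hx
          exact hpt x hx y hy
      _ = ENNReal.ofReal D * ∫⁻ y, ∫⁻ x, (∫⁻ t in Ioc (0 : ℝ) 1, G ((1 - t) • y + t • x))
            ∂(un K) ∂(un K) := by
          rw [← lintegral_const_mul' _ _ ENNReal.ofReal_ne_top]
          refine lintegral_congr fun y => ?_
          rw [← lintegral_const_mul' _ _ ENNReal.ofReal_ne_top]
      _ = ENNReal.ofReal D * ∫⁻ y, (∫⁻ t in Ioc (0 : ℝ) 1, ∫⁻ x, G ((1 - t) • y + t • x)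
            ∂(un K)) ∂(un K) := by
          congr 1
          refine lintegral_congr fun y => ?_
          rw [lintegral_lintegral_swap]
          exact (hGm.comp (by fun_prop)).aemeasurable
      _ = ENNReal.ofReal D * ∫⁻ t in Ioc (0 : ℝ) 1, (∫⁻ y, ∫⁻ x, G ((1 - t) • y + t • x)
            ∂(un K) ∂(un K)) := by
          congr 1
          rw [lintegral_lintegral_swap]
          refine Measurable.aemeasurable ?_
          exact Measurable.lintegral_prod_right' (f := fun q : (Eu (Fin k) × ℝ) × Eu (Fin k) =>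
            G ((1 - q.1.2) • q.1.1 + q.1.2 • q.2)) hjm
      _ ≤ ENNReal.ofReal D * ∫⁻ _t in Ioc (0 : ℝ) 1, 2 ^ k * ∫⁻ x, G x ∂(un K) := by
          refine mul_le_mul_right ?_ _
          refine lintegral_mono_ae ?_
          filter_upwards [ae_restrict_mem measurableSet_Ioc] with t ht
          exact dbl hm hv h0 h1 ht.1.le ht.2 hGm
      _ = _ := by
          rw [lintegral_const, Measure.restrict_apply_univ, Real.volume_Ioc]
          simp
  have h6 : ∫⁻ x, G x ∂(un K) = ENNReal.ofReal (∫ x, ‖fderiv ℝ f x‖ ^ 2 ∂(un K)) := by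
    rw [ofReal_integral_eq_lintegral_ofReal (hI _ hGc) (Eventually.of_forall fun x => sq_nonneg _),
      hG]
  have h7 : ∫⁻ y, ∫⁻ x, ENNReal.ofReal ((f x - f y) ^ 2) ∂(un K) ∂(un K) =
      ENNReal.ofReal (∫ y, ∫ x, (f x - f y) ^ 2 ∂(un K) ∂(un K)) := by
    have hfc' := hf.continuous
    have e1 : ∀ y, ∫⁻ x, ENNReal.ofReal ((f x - f y) ^ 2) ∂(un K) =
        ENNReal.ofReal (∫ x, (f x - f y) ^ 2 ∂(un K)) := by
      intro y
      rw [ofReal_integral_eq_lintegral_ofReal (hI _ (by fun_prop))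
        (Eventually.of_forall fun x => sq_nonneg _)]
    simp only [e1]
    rw [ofReal_integral_eq_lintegral_ofReal]
    · have e2 : ∀ y, ∫ x, (f x - f y) ^ 2 ∂(un K) =
          (∫ x, f x ^ 2 ∂(un K)) - 2 * (∫ x, f x ∂(un K)) * f y + f y ^ 2 := by
        intro y
        have e3 : ∀ x, (f x - f y) ^ 2 = f x ^ 2 - (2 * f y) * f x + f y ^ 2 :=
          fun x => by ring
        simp only [e3]
        rw [integral_add, integral_sub, integral_const_mul, integral_const, probReal_univ,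
          one_smul]
        · ring
        · exact hI _ (hfc'.pow 2)
        · exact (hI _ hfc').const_mul _
        · exact (hI _ (hfc'.pow 2)).sub ((hI _ hfc').const_mul _)
        · exact integrable_const _
      simp only [e2]
      exact hI _ (by fun_prop)
    · exact Eventually.of_forall fun y => integral_nonneg fun x => sq_nonneg _
  rw [h7, var_dbl hc hi hf.continuous, h6] at h5
  have h8 : (2 : ℝ≥0∞) ^ k = ENNReal.ofReal (2 ^ k) := by
    rw [ENNReal.ofReal_pow (by norm_num)]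
    norm_num
  have h9 : 0 ≤ ∫ x, ‖fderiv ℝ f x‖ ^ 2 ∂(un K) := integral_nonneg fun x => sq_nonneg _
  rw [h8, ← ENNReal.ofReal_mul (by positivity), ← ENNReal.ofReal_mul hD0] at h5
  have h10 := (ENNReal.ofReal_le_ofReal_iff (by positivity)).1 h5
  nlinarith

/-- **convex bodies of bounded dimension are Poincare bodies** -/
theorem low_pi (hk : 1 ≤ k) (hc : IsCompact K) (hv : Convex ℝ K) (hi : (interior K).Nonempty)
    (hcen : ∀ θ : Eu (Fin k), ∫ x in K, ⟪x, θ⟫_ℝ = 0) :
    Pool.Agent.R755.KF.PI (16 * (k : ℝ) ^ 2 * 2 ^ k) K := by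
  have h0 := vol_ne hi
  have h1 : volume K ≠ ⊤ := hc.measure_lt_top.ne
  have hm := hc.measurableSet
  obtain ⟨A, hA⟩ := Pool.Agent.Y211.PV.iso k (Pool.Agent.Y506.PV.ind K)
    (Pool.Agent.Y427.PV.adm_ind hm hc.isBounded (pos_iff_ne_zero.2 h0))
  have hA' : ∀ θ : Eu (Fin k), (∫ x, ⟪A x, θ⟫_ℝ ^ 2 ∂(un K)) -
      (∫ x, ⟪A x, θ⟫_ℝ ∂(un K)) ^ 2 = ‖θ‖ ^ 2 := by
    intro θ
    have h2 := hA θ
    unfold Pool.Agent.Y506.RG.VW at h2
    have h3 := Pool.Agent.R754.KG.EW_ind hm fun x : Eu (Fin k) => ⟪A x, θ⟫_ℝ ^ 2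
    have h4 := Pool.Agent.R754.KG.EW_ind hm fun x : Eu (Fin k) => ⟪A x, θ⟫_ℝ
    rw [← h3, ← h4]
    exact h2
  have hun : ∀ f : Eu (Fin k) → ℝ, ∫ z, f z ∂(un {z | A.toLinearEquiv.symm z ∈ K}) =
      ∫ x, f (A x) ∂(un K) := fun f => un_lin hm A.toLinearEquiv f
  have hK' : {z | A.toLinearEquiv.symm z ∈ K} = A '' K := by
    ext z
    constructor
    · intro hz
      exact ⟨A.symm z, hz, A.apply_symm_apply z⟩
    · rintro ⟨x, hx, rfl⟩
      have h5 : A.toLinearEquiv.symm (A x) = x := A.symm_apply_apply x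
      show A.toLinearEquiv.symm (A x) ∈ K
      rwa [h5]
  rw [hK'] at hun
  have hc' : IsCompact (A '' K) := hc.image A.continuous
  have hv' : Convex ℝ (A '' K) := hv.linear_image A.toLinearEquiv.toLinearMap
  have hi' : (interior (A '' K)).Nonempty := by
    have h5 : A '' interior K ⊆ interior (A '' K) :=
      interior_maximal (image_mono interior_subset) (A.toHomeomorph.isOpenMap _ isOpen_interior)
    exact (hi.image A).mono h5
  have hmean : ∀ θ : Eu (Fin k), ∫ x, ⟪A x, θ⟫_ℝ ∂(un K) = 0 := by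
    intro θ
    have h3 : ∀ x, ⟪A x, θ⟫_ℝ = ⟪x, LinearMap.adjoint A.toLinearEquiv.toLinearMap θ⟫_ℝ := by
      intro x
      rw [LinearMap.adjoint_inner_right]
      rfl
    simp only [h3]
    rw [un_scal, hcen, mul_zero]
  have hrad : ∀ x ∈ A '' K, ‖x‖ ^ 2 ≤ 8 * (k : ℝ) ^ 2 := by
    intro x hx
    refine radius hk hc' hv' hi' (fun θ => ?_) (fun θ => ?_) hx
    · rw [hun]
      have h5 := hA' θ
      rw [hmean] at h5
      linarith
    · rw [hun]
      exact hmean θ
  have hD : ∀ x ∈ A '' K, ∀ y ∈ A '' K, ‖x - y‖ ^ 2 ≤ 32 * (k : ℝ) ^ 2 := by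
    intro x hx y hy
    have h5 := hrad x hx
    have h6 := hrad y hy
    have h7 := parallelogram_law_with_norm ℝ x y
    nlinarith [sq_nonneg ‖x + y‖]
  refine ⟨hc, hv, hi, A.toLinearEquiv, hA', fun f hf => ?_⟩
  have h8 := low_core hc' hv' hi' hD hf
  rw [hun, hun, hun] at h8
  have e : 32 * (k : ℝ) ^ 2 * 2 ^ k / 2 = 16 * (k : ℝ) ^ 2 * 2 ^ k := by ring
  rw [e] at h8
  exact h8

end Pool.Agent.T2H47.KB
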