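import Mathlib
import Pool.Agent.T2H47.KB.Cent
import Pool.Agent.R754.KG.C

/-!
# From `exp (-∑ Φ_i)` to `{∑ Φ_i ≤ 1}` for blocks with centroid at the origin

The proof is that of `Pool.Agent.R751.MB.rdm`, where the blocks were even; here the orthogonality of
the blocks comes from the centroids.
-/

set_option autoImplicit false
set_option linter.all false

namespace Pool.Agent.T2H47.KB

open MeasureTheory Set Filter Topology
open scoped ENNReal InnerProductSpace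
open Pool.Agent.R751.MB (Eu Pow bsum dil deg CcW ind S_MXD S_GMM)
open Pool.Agent.R751.MB
open Pool.Agent.R27.RD (blk blk_apply blk_same blk_ne blk_sum)

section

variable {M n : ℕ} {k : Fin M → ℕ} (e : (∀ i, Eu (Fin (k i))) ≃ₗ[ℝ] Eu (Fin n))

theorem orthc {w : Eu (Fin n) → ℝ} (hwA : Pool.Agent.Y506.RG.Adm w) {d : ℕ}
    (T : Eu (Fin n) →ₗ[ℝ] Eu (Fin d)) (α : Fin M → ℝ) (θ : Eu (Fin d))
    (hcross : ∀ i j, i ≠ j → Pool.Agent.Y506.RG.EW w
      (fun x => ⟪T (blk e i x), θ⟫_ℝ * ⟪T (blk e j x), θ⟫_ℝ) = 0) (S : Finset (Fin M)) :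
    Pool.Agent.Y506.RG.EW w (fun x => ⟪(∑ i ∈ S, α i • (T ∘ₗ blk e i)) x, θ⟫_ℝ ^ 2) =
      ∑ i ∈ S, α i ^ 2 * Pool.Agent.Y506.RG.EW w (fun x => ⟪T (blk e i x), θ⟫_ℝ ^ 2) := by
  classical
  have hint : ∀ i j, Integrable fun x => (⟪T (blk e i x), θ⟫_ℝ * ⟪T (blk e j x), θ⟫_ℝ) * w x := by
    intro i j
    have h1 := (Pool.Agent.Y427.PV.lin_int hwA (T ∘ₗ blk e i + T ∘ₗ blk e j) θ).2
    have h2 := (Pool.Agent.Y427.PV.lin_int hwA (T ∘ₗ blk e i) θ).2
    have h3 := (Pool.Agent.Y427.PV.lin_int hwA (T ∘ₗ blk e j) θ).2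
    have h4 := ((h1.sub h2).sub h3).const_mul (1 / 2)
    refine h4.congr (Eventually.of_forall fun x => ?_)
    simp only [Pi.sub_apply, LinearMap.add_apply, LinearMap.comp_apply, inner_add_left]
    ring
  have e1 : (fun x => ⟪(∑ i ∈ S, α i • (T ∘ₗ blk e i)) x, θ⟫_ℝ ^ 2) = fun x =>
      ∑ i ∈ S, ∑ j ∈ S, (α i * α j) * (⟪T (blk e i x), θ⟫_ℝ * ⟪T (blk e j x), θ⟫_ℝ) := by
    funext x
    rw [LinearMap.sum_apply, sum_inner, sq, Finset.sum_mul_sum]
    refine Finset.sum_congr rfl fun i _ => Finset.sum_congr rfl fun j _ => ?_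
    rw [LinearMap.smul_apply, LinearMap.smul_apply, real_inner_smul_left, real_inner_smul_left]
    simp only [LinearMap.comp_apply]
    ring
  rw [e1, Pool.Agent.R27.RD.EW_sum]
  · refine Finset.sum_congr rfl fun i hi => ?_
    rw [Pool.Agent.R27.RD.EW_sum]
    · rw [Finset.sum_eq_single i]
      · rw [Pool.Agent.Y506.RG.EW_const_mul]
        simp only [← sq]
      · intro j hj hji
        rw [Pool.Agent.Y506.RG.EW_const_mul, hcross i j (Ne.symm hji), mul_zero]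
      · exact fun h => absurd hi h
    · intro j hj
      refine ((hint i j).const_mul (α i * α j)).congr (Eventually.of_forall fun x => ?_)
      simp only []
      ring
  · intro i hi
    have h5 : Integrable fun x => ∑ j ∈ S, (α i * α j) *
        ((⟪T (blk e i x), θ⟫_ℝ * ⟪T (blk e j x), θ⟫_ℝ) * w x) :=
      integrable_finsetSum S fun j _ => (hint i j).const_mul (α i * α j)
    refine h5.congr (Eventually.of_forall fun x => ?_)
    simp only []
    rw [Finset.sum_mul]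
    refine Finset.sum_congr rfl fun j _ => ?_
    ring

theorem orth_normc {w : Eu (Fin n) → ℝ} (hwA : Pool.Agent.Y506.RG.Adm w) {d : ℕ}
    (T : Eu (Fin n) →ₗ[ℝ] Eu (Fin d)) (α : Fin M → ℝ)
    (hcross : ∀ i j, i ≠ j → ∀ θ : Eu (Fin d), Pool.Agent.Y506.RG.EW w
      (fun x => ⟪T (blk e i x), θ⟫_ℝ * ⟪T (blk e j x), θ⟫_ℝ) = 0) :
    Pool.Agent.Y506.RG.EW w (fun x => ‖(∑ i, α i • (T ∘ₗ blk e i)) x‖ ^ 2) =
      ∑ i, α i ^ 2 * Pool.Agent.Y506.RG.EW w (fun x => ‖T (blk e i x)‖ ^ 2) := by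
  rw [Pool.Agent.R27.RD.EW_norm hwA]
  have h1 : ∀ i, Pool.Agent.Y506.RG.EW w (fun x => ‖T (blk e i x)‖ ^ 2) =
      ∑ j, Pool.Agent.Y506.RG.EW w
        (fun x => ⟪T (blk e i x), EuclideanSpace.single j (1 : ℝ)⟫_ℝ ^ 2) :=
    fun i => Pool.Agent.R27.RD.EW_norm hwA (T ∘ₗ blk e i)
  simp only [h1]
  have h2 : ∀ j, Pool.Agent.Y506.RG.EW w (fun x => ⟪(∑ i, α i • (T ∘ₗ blk e i)) x,
      EuclideanSpace.single j (1 : ℝ)⟫_ℝ ^ 2) = _ :=
    fun j => orthc e hwA T α _ (fun i i' h => hcross i i' h _) Finset.univ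
  simp only [h2]
  rw [Finset.sum_comm]
  refine Finset.sum_congr rfl fun i _ => ?_
  rw [Finset.mul_sum]

variable {p : Fin M → ℝ} {Φ : ∀ i, Eu (Fin (k i)) → ℝ}

theorem ew_zero (hp : ∀ i, 1 ≤ p i) (hΦ : ∀ i, Pow (p i) (Φ i)) {F : Eu (Fin n) → ℝ}
    (h : ∫ z in {z | bsum e Φ z ≤ 1}, F z = 0) :
    Pool.Agent.Y506.RG.EW (Pool.Agent.Y506.PV.ind {z | bsum e Φ z ≤ 1}) F = 0 := by
  have hKm : MeasurableSet {x | bsum e Φ x ≤ 1} :=
    (isClosed_le (RD.cont e hΦ) continuous_const).measurableSet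
  unfold Pool.Agent.Y506.RG.EW
  have h1 : ∫ x, F x * Pool.Agent.Y506.PV.ind {z | bsum e Φ z ≤ 1} x =
      ∫ z in {z | bsum e Φ z ≤ 1}, F z := by
    rw [← integral_indicator hKm]
    refine integral_congr_ae (Eventually.of_forall fun x => ?_)
    simp only [Pool.Agent.Y506.PV.ind]
    by_cases hx : x ∈ {z | bsum e Φ z ≤ 1}
    · rw [indicator_of_mem hx, indicator_of_mem hx, mul_one]
    · rw [indicator_of_notMem hx, indicator_of_notMem hx, mul_zero]
  rw [h1, h, zero_div]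

theorem on_int (hp : ∀ i, 1 ≤ p i) (hΦ : ∀ i, Pow (p i) (Φ i)) {F : Eu (Fin n) → ℝ}
    (hF : Continuous F) : IntegrableOn F {z | bsum e Φ z ≤ 1} := by
  have hcl : IsClosed {x | bsum e Φ x ≤ 1} := isClosed_le (RD.cont e hΦ) continuous_const
  exact hF.continuousOn.integrableOn_compact
    (Metric.isCompact_of_isClosed_isBounded hcl (RD.bddK e hp hΦ))

theorem cross (hp : ∀ i, 1 ≤ p i) (hΦ : ∀ i, Pow (p i) (Φ i)) (hc : ∀ i, Cen (Φ i)) {i j : Fin M}
    (hij : i ≠ j) {d : ℕ} (T : Eu (Fin n) →ₗ[ℝ] Eu (Fin d)) (θ : Eu (Fin d)) :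
    Pool.Agent.Y506.RG.EW (Pool.Agent.Y506.PV.ind {z | bsum e Φ z ≤ 1})
      (fun x => ⟪T (blk e i x), θ⟫_ℝ * ⟪T (blk e j x), θ⟫_ℝ) = 0 := by
  have hwa := RD.admW e hp hΦ
  have hTc : Continuous T := T.continuous_of_finiteDimensional
  have hbc : ∀ l, Continuous (blk e l) := fun l => (blk e l).continuous_of_finiteDimensional
  have e1 : ∀ x, ∏ l ∈ ({i, j} : Finset (Fin M)), ⟪T (blk e l x), θ⟫_ℝ =
      ⟪T (blk e i x), θ⟫_ℝ * ⟪T (blk e j x), θ⟫_ℝ := fun x => Finset.prod_pair hij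
  have h := body_zero e hp hΦ T θ {i, j} (i := i) (Finset.mem_insert_self _ _) (hc i) (by
    simp only [e1]
    have h1 := (Pool.Agent.Y427.PV.lin_int hwa (T ∘ₗ blk e i + T ∘ₗ blk e j) θ).2
    have h2 := (Pool.Agent.Y427.PV.lin_int hwa (T ∘ₗ blk e i) θ).2
    have h3 := (Pool.Agent.Y427.PV.lin_int hwa (T ∘ₗ blk e j) θ).2
    have h4 := ((h1.sub h2).sub h3).const_mul (1 / 2)
    refine h4.congr (Eventually.of_forall fun x => ?_)
    simp only [Pi.sub_apply, LinearMap.add_apply, LinearMap.comp_apply, inner_add_left]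
    ring) (by
    simp only [e1]
    exact on_int e hp hΦ (((hTc.comp (hbc i)).inner continuous_const).mul
      ((hTc.comp (hbc j)).inner continuous_const)))
  simp only [e1] at h
  exact ew_zero e hp hΦ h

theorem mean_zero (hp : ∀ i, 1 ≤ p i) (hΦ : ∀ i, Pow (p i) (Φ i)) (hc : ∀ i, Cen (Φ i)) {d : ℕ}
    (T : Eu (Fin n) →ₗ[ℝ] Eu (Fin d)) (θ : Eu (Fin d)) :
    Pool.Agent.Y506.RG.EW (Pool.Agent.Y506.PV.ind {z | bsum e Φ z ≤ 1})
      (fun x => ⟪T x, θ⟫_ℝ) = 0 := by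
  have hwa := RD.admW e hp hΦ
  have hTc : Continuous T := T.continuous_of_finiteDimensional
  have hbc : ∀ l, Continuous (blk e l) := fun l => (blk e l).continuous_of_finiteDimensional
  refine ew_zero e hp hΦ ?_
  have e2 : ∀ x, ⟪T x, θ⟫_ℝ = ∑ i, ⟪T (blk e i x), θ⟫_ℝ := by
    intro x
    conv_lhs => rw [← blk_sum e x]
    rw [map_sum, sum_inner]
  refine (integral_congr_ae (Eventually.of_forall e2)).trans ?_
  have hi : ∀ i, IntegrableOn (fun x => ⟪T (blk e i x), θ⟫_ℝ) {z | bsum e Φ z ≤ 1} :=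
    fun i => on_int e hp hΦ ((hTc.comp (hbc i)).inner continuous_const)
  rw [integral_finsetSum _ fun i _ => hi i]
  refine Finset.sum_eq_zero fun i _ => ?_
  have e1 : ∀ x, ∏ l ∈ ({i} : Finset (Fin M)), ⟪T (blk e l x), θ⟫_ℝ = ⟪T (blk e i x), θ⟫_ℝ :=
    fun x => Finset.prod_singleton _ _
  have h := body_zero e hp hΦ T θ {i} (i := i) (Finset.mem_singleton_self _) (hc i) (by
    simp only [e1]
    exact (Pool.Agent.Y427.PV.lin_int hwa (T ∘ₗ blk e i) θ).1) (by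
    simp only [e1]
    exact on_int e hp hΦ ((hTc.comp (hbc i)).inner continuous_const))
  simp only [e1] at h
  exact h

end

open Pool.Agent.R27.RD in
set_option maxHeartbeats 4000000 in
theorem rdc (hX : S_MXD) (hGM : S_GMM) (δ κ : ℝ) (hδ : 0 < δ) (hκ : 0 < κ) : ∃ κ' : ℝ, 0 < κ' ∧
    ∀ (M n : ℕ) (k : Fin M → ℕ) (e : (∀ i, Eu (Fin (k i))) ≃ₗ[ℝ] Eu (Fin n))
    (Φ : ∀ i, Eu (Fin (k i)) → ℝ) (p : Fin M → ℝ), 1 ≤ n → (∀ i, 1 ≤ p i) →
    (∀ i, Pow (p i) (Φ i)) → (∀ i, Cen (Φ i)) →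
    CcW κ (δ / 6) (fun z => Real.exp (-bsum e Φ z)) → CcW κ' δ (ind {z | bsum e Φ z ≤ 1}) := by
  obtain ⟨C, hC, hC'⟩ := hGM
  have hA : 0 < 1 + C := by linarith
  have hsA : 0 < Real.sqrt (1 + C) := Real.sqrt_pos.2 hA
  have hκ'0 : 0 < min (κ / Real.sqrt (1 + C)) (Real.sqrt (δ / (3 * C))) :=
    lt_min (by positivity) (Real.sqrt_pos.2 (by positivity))
  refine ⟨min (κ / Real.sqrt (1 + C)) (Real.sqrt (δ / (3 * C))), hκ'0, ?_⟩
  obtain ⟨κ', hκ'⟩ : ∃ κ', κ' = min (κ / Real.sqrt (1 + C)) (Real.sqrt (δ / (3 * C))) := ⟨_, rfl⟩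
  rw [← hκ'] at hκ'0 ⊢
  have hk1 : κ' * Real.sqrt (1 + C) ≤ κ := by
    have : κ' ≤ κ / Real.sqrt (1 + C) := hκ' ▸ min_le_left _ _
    rwa [le_div_iff₀ hsA] at this
  have hk2 : κ' ^ 2 * (3 * C) ≤ δ := by
    have h1 : κ' ≤ Real.sqrt (δ / (3 * C)) := hκ' ▸ min_le_right _ _
    have h2 : κ' ^ 2 ≤ δ / (3 * C) := by
      calc κ' ^ 2 ≤ Real.sqrt (δ / (3 * C)) ^ 2 := pow_le_pow_left₀ hκ'0.le h1 2
        _ = _ := Real.sq_sqrt (by positivity)
    rwa [le_div_iff₀ (by positivity)] at h2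
  intro M n k e Φ p hn hp hΦ hev hc
  -- the dimension
  have hsum : ∑ i, k i = n := by
    have := e.finrank_eq
    rw [Module.finrank_pi_fintype] at this
    simpa using this
  obtain ⟨m, hm⟩ : ∃ m, m = deg k p := ⟨_, rfl⟩
  have hm0 : 0 < m := by
    rw [hm]
    unfold deg
    obtain ⟨i, hi⟩ : ∃ i, 0 < k i := by
      by_contra hcon
      push Not at hcon
      have : ∑ i, k i = 0 := Finset.sum_eq_zero fun i _ => Nat.le_zero.1 (hcon i)
      omega
    refine Finset.sum_pos' (fun j _ => ?_) ⟨i, Finset.mem_univ i, ?_⟩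
    · have := hp j
      positivity
    · have := hp i
      have h3 : (0 : ℝ) < k i := by exact_mod_cast hi
      positivity
  obtain ⟨g1, g2, g3⟩ := hC' m hm0
  obtain ⟨R, hR⟩ : ∃ R, R = m + 1 := ⟨_, rfl⟩
  have hR0 : 0 < R := by linarith
  obtain ⟨B, hBd⟩ : ∃ B, B = Real.Gamma (m + 1) := ⟨_, rfl⟩
  have hB : 0 < B := by rw [hBd]; exact Real.Gamma_pos_of_pos (by linarith)
  rw [← hBd, ← hR] at g2
  rw [← hBd] at g1
  rw [← hBd, ← hR] at g3
  -- the sets and the weights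
  have hKm : MeasurableSet {x | bsum e Φ x ≤ 1} :=
    (isClosed_le (RD.cont e hΦ) continuous_const).measurableSet
  have hKb := RD.bddK e hp hΦ
  have hKa : Pool.Agent.Y506.RG.Adm (Pool.Agent.Y506.PV.ind {x | bsum e Φ x ≤ 1}) :=
    Pool.Agent.Y427.PV.adm_ind hKm hKb (RD.posK e hp hΦ)
  have hKt : volume {x | bsum e Φ x ≤ 1} ≠ ⊤ := hKb.measure_lt_top.ne
  have hwa := RD.admW e hp hΦ
  -- the mixing measure
  have hβ : Measurable fun r : ℝ => ENNReal.ofReal (r ^ m * Real.exp (-r)) := by fun_prop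
  obtain ⟨ρ, hρd⟩ : ∃ ρ : Measure ℝ, ρ = (volume.restrict (Ioi (0 : ℝ))).withDensity fun r : ℝ =>
      ENNReal.ofReal (r ^ m * Real.exp (-r)) := ⟨_, rfl⟩
  have hρi : ∀ F : ℝ → ℝ≥0∞, ∫⁻ r, F r ∂ρ =
      ∫⁻ r in Ioi (0 : ℝ), ENNReal.ofReal (r ^ m * Real.exp (-r)) * F r := by
    intro F
    rw [hρd, lintegral_withDensity_eq_lintegral_mul_non_measurable _ hβ
      (Eventually.of_forall fun r => ENNReal.ofReal_lt_top)]
    rfl
  have hρae : ∀ᵐ r ∂ρ, 0 < r := by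
    rw [hρd]
    exact (withDensity_absolutelyContinuous _ _).ae_le (ae_restrict_mem measurableSet_Ioi)
  have hρ : ρ univ = ENNReal.ofReal B := by
    rw [← lintegral_one, hρi]
    simp only [mul_one]
    exact g1
  have hm3 : ∫⁻ r, ENNReal.ofReal ((r / R) ^ 2) ∂ρ ≤ ENNReal.ofReal (C * B) := by
    rw [hρi]
    refine (lintegral_congr fun r => ?_).trans_le g2
    exact mul_comm _ _
  have hm4 : ∀ a : ℝ, 0 < a → a ≤ 1 → ∫⁻ r, ENNReal.ofReal (((r / R) ^ a - 1) ^ 2) ∂ρ ≤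
      ENNReal.ofReal (C * a ^ 2 / R * B) := by
    intro a ha ha1
    rw [hρi]
    refine (lintegral_congr fun r => ?_).trans_le (g3 a ha ha1)
    exact mul_comm _ _
  have mix : ∀ F : Eu (Fin n) → ℝ≥0∞, Measurable F →
      ∫⁻ x, F x * ENNReal.ofReal (Real.exp (-bsum e Φ x)) =
      ∫⁻ r, (∫⁻ y in {x | bsum e Φ x ≤ 1}, F (dil e p r y)) ∂ρ := by
    intro F hF
    rw [hρi, hm]
    exact hX M n k e Φ p hp hΦ F hF
  intro d hd T s hs hT v hv hv1 hv2
  -- moments of the blocks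
  obtain ⟨W, hW⟩ : ∃ W, W = Pool.Agent.Y506.PV.ind {x | bsum e Φ x ≤ 1} := ⟨_, rfl⟩
  have hWa : Pool.Agent.Y506.RG.Adm W := hW ▸ hKa
  have hcross : ∀ i j, i ≠ j → ∀ θ : Eu (Fin d), Pool.Agent.Y506.RG.EW W
      (fun x => ⟪T (blk e i x), θ⟫_ℝ * ⟪T (blk e j x), θ⟫_ℝ) = 0 := by
    intro i j hij θ
    rw [hW]
    exact cross e hp hΦ hev hij T θ
  have hmean : ∀ θ : Eu (Fin d), Pool.Agent.Y506.RG.EW W (fun x => ⟪T x, θ⟫_ℝ) = 0 := by
    intro θ
    rw [hW]
    exact mean_zero e hp hΦ hev T θ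
  have hTsq : ∀ θ : Eu (Fin d), Pool.Agent.Y506.RG.EW W (fun x => ⟪T x, θ⟫_ℝ ^ 2) ≤ s * ‖θ‖ ^ 2 := by
    intro θ
    have h1 := Pool.Agent.Y427.PV.VW_le_norm W T s (by
      intro θ hθ
      have := hT θ hθ
      rw [hW]
      exact this) θ
    unfold Pool.Agent.Y506.RG.VW at h1
    rw [hmean θ] at h1
    linarith
  have hone : ∀ x, (∑ i, (1 : ℝ) • (T ∘ₗ blk e i)) x = T x := by
    intro x
    rw [LinearMap.sum_apply]
    simp only [one_smul, LinearMap.comp_apply]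
    rw [← map_sum, blk_sum]
  have hsplit : ∀ θ : Eu (Fin d), Pool.Agent.Y506.RG.EW W (fun x => ⟪T x, θ⟫_ℝ ^ 2) =
      ∑ i, Pool.Agent.Y506.RG.EW W (fun x => ⟪T (blk e i x), θ⟫_ℝ ^ 2) := by
    intro θ
    have h1 := orthc e hWa T (fun _ => 1) θ (fun i j h => hcross i j h θ) Finset.univ
    simp only [hone, one_pow, one_mul] at h1
    exact h1
  have hnn : ∀ i (θ : Eu (Fin d)),
      0 ≤ Pool.Agent.Y506.RG.EW W (fun x => ⟪T (blk e i x), θ⟫_ℝ ^ 2) :=
    fun i θ => Pool.Agent.Y506.RG.EW_nonneg hWa _ fun x => sq_nonneg _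
  have hblk : ∀ i (θ : Eu (Fin d)),
      Pool.Agent.Y506.RG.EW W (fun x => ⟪T (blk e i x), θ⟫_ℝ ^ 2) ≤ s * ‖θ‖ ^ 2 := by
    intro i θ
    refine le_trans ?_ (hTsq θ)
    rw [hsplit θ]
    exact Finset.single_le_sum (f := fun i => Pool.Agent.Y506.RG.EW W
      (fun x => ⟪T (blk e i x), θ⟫_ℝ ^ 2)) (fun j _ => hnn j θ) (Finset.mem_univ i)
  have hrk : ∀ i, Pool.Agent.Y506.RG.EW W (fun x => ‖T (blk e i x)‖ ^ 2) ≤ k i * s :=
    fun i => rank_bd e hWa T i s hs.le (hblk i)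
  -- the scaled map
  obtain ⟨T', hT'⟩ : ∃ T' : Eu (Fin n) →ₗ[ℝ] Eu (Fin d), T' = T ∘ₗ dil e p (1 / R) := ⟨_, rfl⟩
  have hscale : ∀ r : ℝ, 0 < r → ∀ x, T' (dil e p r x) =
      (∑ i, (r / R) ^ (1 / p i) • (T ∘ₗ blk e i)) x := by
    intro r hr x
    rw [hT', LinearMap.comp_apply, RD.dil_mul e p (by positivity) hr.le, RD.dil_eq, map_sum,
      LinearMap.sum_apply]
    refine Finset.sum_congr rfl fun i _ => ?_
    rw [map_smul, LinearMap.smul_apply, LinearMap.comp_apply]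
    congr 2
    ring
  obtain ⟨V, hV⟩ : ∃ V, V = volume {x | bsum e Φ x ≤ 1} := ⟨_, rfl⟩
  have hVI : ENNReal.ofReal (∫ x, W x) = V := by
    rw [ofReal_integral_eq_lintegral_ofReal hWa.one (Eventually.of_forall hWa.nonneg)]
    have := Pool.Agent.Y427.PV.ind_lint hKm (fun _ => 1)
    simp only [one_mul] at this
    rw [hW, this, setLIntegral_one, hV]
  have hlint : ∀ g : Eu (Fin n) → ℝ, (∀ x, 0 ≤ g x) → (Integrable fun x => g x * W x) →
      ∫⁻ y in {x | bsum e Φ x ≤ 1}, ENNReal.ofReal (g y) =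
        ENNReal.ofReal (Pool.Agent.Y506.RG.EW W g) * V := by
    intro g hg hi
    rw [← hVI, ← Pool.Agent.Y427.PV.lint_EW hWa g hg hi, hW,
      Pool.Agent.Y427.PV.ind_lint hKm]
  have hVt : V ≠ ⊤ := hV ▸ hKt
  refine core ρ {x | bsum e Φ x ≤ 1} (fun x => Real.exp (-bsum e Φ x)) (dil e p) B (1 + C) C κ κ' δ
    hB hA hC hκ'0 hδ hk1 hk2 hρ hKm hKt hKa hwa mix hc d hd T T' s hs ?_
    (fun r => ∑ i, ENNReal.ofReal (((r / R) ^ (1 / p i) - 1) ^ 2) * (ENNReal.ofReal (k i * s) * V))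
    ?_ ?_ ?_ v hv hv1 hv2
  · intro θ hθ
    rw [← hV]
    have h1 : ∀ᵐ r ∂ρ, ∫⁻ y in {x | bsum e Φ x ≤ 1}, ENNReal.ofReal (⟪T' (dil e p r y), θ⟫_ℝ ^ 2) ≤
        (1 + ENNReal.ofReal ((r / R) ^ 2)) * (ENNReal.ofReal s * V) := by
      filter_upwards [hρae] with r hr
      have ht : 0 < r / R := by positivity
      simp only [hscale r hr]
      rw [hlint _ (fun x => sq_nonneg _) (Pool.Agent.Y427.PV.lin_int hWa _ θ).2,
        orthc e hWa T _ θ (fun i j h => hcross i j h θ) Finset.univ, ← mul_assoc]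
      refine mul_le_mul_left ?_ _
      rw [← ENNReal.ofReal_one, ← ENNReal.ofReal_add zero_le_one (by positivity),
        ← ENNReal.ofReal_mul (by positivity)]
      refine ENNReal.ofReal_le_ofReal ?_
      calc ∑ i, ((r / R) ^ (1 / p i)) ^ 2 *
            Pool.Agent.Y506.RG.EW W (fun x => ⟪T (blk e i x), θ⟫_ℝ ^ 2)
          ≤ ∑ i, (1 + (r / R) ^ 2) *
            Pool.Agent.Y506.RG.EW W (fun x => ⟪T (blk e i x), θ⟫_ℝ ^ 2) := by
            refine Finset.sum_le_sum fun i _ => mul_le_mul_of_nonneg_right ?_ (hnn i θ)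
            have hpi := hp i
            refine RD.rpow_sq_le ht (by positivity) ?_
            rw [div_le_one (by linarith)]
            exact hpi
        _ = (1 + (r / R) ^ 2) * Pool.Agent.Y506.RG.EW W (fun x => ⟪T x, θ⟫_ℝ ^ 2) := by
            rw [hsplit θ, Finset.mul_sum]
        _ ≤ (1 + (r / R) ^ 2) * s := by
            refine mul_le_mul_of_nonneg_left ?_ (by positivity)
            have := hTsq θ
            rw [hθ] at this
            linarith
    refine (lintegral_mono_ae h1).trans ?_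
    rw [lintegral_mul_const' _ _ (ENNReal.mul_ne_top ENNReal.ofReal_ne_top hVt),
      lintegral_add_left measurable_const, lintegral_const, hρ, one_mul]
    calc (ENNReal.ofReal B + ∫⁻ r, ENNReal.ofReal ((r / R) ^ 2) ∂ρ) * (ENNReal.ofReal s * V)
        ≤ (ENNReal.ofReal B + ENNReal.ofReal (C * B)) * (ENNReal.ofReal s * V) :=
          mul_le_mul_left (add_le_add le_rfl hm3) _
      _ = ENNReal.ofReal ((1 + C) * s) * (ENNReal.ofReal B * V) := by
          rw [← mul_assoc, ← mul_assoc, ← ENNReal.ofReal_add hB.le (by positivity),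
            ← ENNReal.ofReal_mul (by positivity), ← ENNReal.ofReal_mul (by positivity)]
          congr 2
          ring
  · refine Finset.measurable_sum _ fun i _ => Measurable.mul_const ?_ _
    fun_prop
  · filter_upwards [hρae] with r hr
    have h2 : ∀ y, T y - T' (dil e p r y) =
        (∑ i, (1 - (r / R) ^ (1 / p i)) • (T ∘ₗ blk e i)) y := by
      intro y
      rw [hscale r hr, ← hone y, ← LinearMap.sub_apply, ← Finset.sum_sub_distrib]
      congr 1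
      refine Finset.sum_congr rfl fun i _ => ?_
      rw [sub_smul]
    simp only [h2]
    rw [hlint _ (fun x => sq_nonneg _) (norm_int hWa _), orth_normc e hWa T _ hcross]
    rw [ENNReal.ofReal_sum_of_nonneg (fun i _ => mul_nonneg (sq_nonneg _)
      (Pool.Agent.Y506.RG.EW_nonneg hWa _ fun x => sq_nonneg _)), Finset.sum_mul]
    refine Finset.sum_le_sum fun i _ => ?_
    rw [ENNReal.ofReal_mul (sq_nonneg _), mul_assoc]
    have e1 : (1 - (r / R) ^ (1 / p i)) ^ 2 = ((r / R) ^ (1 / p i) - 1) ^ 2 := by ring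
    rw [e1]
    exact mul_le_mul_right (mul_le_mul_left (ENNReal.ofReal_le_ofReal (hrk i)) _) _
  · rw [lintegral_finsetSum _ fun i _ => Measurable.mul_const (by fun_prop) _, ← hV]
    have h3 : ∀ i, ∫⁻ r, ENNReal.ofReal (((r / R) ^ (1 / p i) - 1) ^ 2) *
        (ENNReal.ofReal (k i * s) * V) ∂ρ ≤
        ENNReal.ofReal (C * (1 / p i) ^ 2 / R * B * (k i * s)) * V := by
      intro i
      have hpi := hp i
      rw [lintegral_mul_const' _ _ (ENNReal.mul_ne_top ENNReal.ofReal_ne_top hVt)]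
      refine (mul_le_mul_left (hm4 (1 / p i) (by positivity) (by
        rw [div_le_one (by linarith)]; exact hpi)) _).trans (le_of_eq ?_)
      rw [← mul_assoc, ← ENNReal.ofReal_mul (by positivity)]
    refine (Finset.sum_le_sum fun i _ => h3 i).trans ?_
    rw [← Finset.sum_mul, ← ENNReal.ofReal_sum_of_nonneg (fun i _ => by positivity), ← mul_assoc,
      ← ENNReal.ofReal_mul (by positivity)]
    refine mul_le_mul_left (ENNReal.ofReal_le_ofReal ?_) _
    have h4 : ∀ i, C * (1 / p i) ^ 2 / R * B * (k i * s) ≤ (C * B * s / R) * ((k i : ℝ) / p i) := by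
      intro i
      have hpi := hp i
      have hp0 : 0 < p i := by linarith
      have h5 : (1 / p i) ^ 2 ≤ 1 / p i := by
        have h6 : 1 / p i ≤ 1 := by rw [div_le_one hp0]; exact hpi
        have h7 : 0 ≤ 1 / p i := by positivity
        nlinarith
      calc C * (1 / p i) ^ 2 / R * B * (k i * s) = (C * B * s / R * k i) * (1 / p i) ^ 2 := by ring
        _ ≤ (C * B * s / R * k i) * (1 / p i) := mul_le_mul_of_nonneg_left h5 (by positivity)
        _ = _ := by ring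
    refine (Finset.sum_le_sum fun i _ => h4 i).trans ?_
    rw [← Finset.mul_sum]
    have h8 : ∑ i, (k i : ℝ) / p i = m := by rw [hm]; rfl
    rw [h8]
    have h9 : m / R ≤ 1 := by rw [div_le_one hR0]; linarith
    calc C * B * s / R * m = (C * B * s) * (m / R) := by ring
      _ ≤ (C * B * s) * 1 := mul_le_mul_of_nonneg_left h9 (by positivity)
      _ = C * s * B := by ring

end Pool.Agent.T2H47.KB
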