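import Pool.Agent.R751.MB.Bw
import Pool.Agent.T2H47.KB.Poi
import Pool.Agent.T2H47.KB.Rdc

/-!
# Block sums with Poincare blocks
-/

set_option autoImplicit false

namespace Pool.Agent.T2H47.KB

open MeasureTheory Set Filter Topology
open scoped ENNReal InnerProductSpace Pointwise
open Pool.Agent.R751.MB (Eu EW VW Adm AP Pow Blk blk_pow blk_ap bsum bsum_body Body CcW ind wall
  S_SYM S_MAT S_HER S_LIN S_TEN S_RDM S_WAL apc ap_pi)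

/-- the summands: the old ones, and `p`-th powers of gauges of Poincare bodies with centroid at the
origin -/
def Bk (c0 p : ℝ) (k : ℕ) (Φ : Eu (Fin k) → ℝ) : Prop :=
  Blk p k Φ ∨ (1 ≤ k ∧ Pow p Φ ∧ Cen Φ ∧ Pool.Agent.R755.KF.PI c0 {x | Φ x ≤ 1})

theorem bk_pow {c0 p : ℝ} {k : ℕ} {Φ : Eu (Fin k) → ℝ} (h : Bk c0 p k Φ) :
    Pow p Φ ∧ Cen Φ := by
  rcases h with h | h
  · obtain ⟨h1, h2⟩ := blk_pow h
    exact ⟨h1, cen_even (measurableSet_le h1.cont.measurable measurable_const) h2⟩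
  · exact ⟨h.2.1, h.2.2.1⟩

theorem bk_ap (hSYM : S_SYM) (hMAT : S_MAT) (hHER : S_HER) (hLIN : S_LIN) {c0 : ℝ}
    (hc0 : 0 ≤ c0) : ∃ A : ℝ, 0 < A ∧ ∀ (p : ℝ), 1 ≤ p → ∀ (k : ℕ) (Φ : Eu (Fin k) → ℝ),
    Bk c0 p k Φ → AP A fun x => Real.exp (-Φ x) := by
  obtain ⟨A, hA, H⟩ := blk_ap hSYM hMAT hHER hLIN
  refine ⟨max A (4 * (52 * c0 + 340)), lt_max_of_lt_left hA, fun p hp k Φ h => ?_⟩
  rcases h with h | ⟨hk, hΦ, hev, hPI⟩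
  · exact (H p hp k Φ h).mono (le_max_left _ _)
  · exact (poi_ap hk hc0 hp hΦ hev hPI).mono (le_max_right _ _)

/-- the class of bodies `{∑ Φ_i ≤ 1}` -/
def BS (c0 : ℝ) {n : ℕ} (K : Set (Eu (Fin n))) : Prop :=
  ∃ (M : ℕ) (k : Fin M → ℕ) (e : (∀ i, Eu (Fin (k i))) ≃ₗ[ℝ] Eu (Fin n)) (p : Fin M → ℝ)
    (Φ : ∀ i, Eu (Fin (k i)) → ℝ), (∀ i, 1 ≤ p i) ∧ (∀ i, Bk c0 (p i) (k i) (Φ i)) ∧
    K = {z | bsum e Φ z ≤ 1}

/-- **concentration for block sums** -/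
theorem bs_cc (hSYM : S_SYM) (hMAT : S_MAT) (hHER : S_HER) (hLIN : S_LIN) (hTEN : S_TEN)
    {c0 : ℝ} (hc0 : 0 ≤ c0) (δ : ℝ) (hδ : 0 < δ) : ∃ κ : ℝ, 0 < κ ∧
    ∀ (n : ℕ) (K : Set (Eu (Fin n))), 1 ≤ n → BS c0 K → CcW κ δ (ind K) := by
  obtain ⟨A, hA, H⟩ := bk_ap hSYM hMAT hHER hLIN hc0
  obtain ⟨κ, hκ, H1⟩ := apc A (δ / 6) hA (by positivity)
  obtain ⟨κ', hκ', H2⟩ := rdc Pool.Agent.R751.MB.mxd Pool.Agent.R751.MB.gmm δ κ hδ hκ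
  refine ⟨κ', hκ', fun n K hn hK => ?_⟩
  obtain ⟨M, k, e, p, Φ, hp, hΦ, rfl⟩ := hK
  refine H2 M n k e Φ p hn hp (fun i => (bk_pow (hΦ i)).1) (fun i => (bk_pow (hΦ i)).2) ?_
  refine H1 n _ ?_
  have h1 := ap_pi hTEN hA.le M k n e (fun i x => Real.exp (-Φ i x)) fun i =>
    H (p i) (hp i) (k i) (Φ i) (hΦ i)
  have h2 : (fun z => ∏ i, Real.exp (-Φ i (e.symm z i))) = fun z => Real.exp (-bsum e Φ z) := by
    funext z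
    rw [← Real.exp_sum, Finset.sum_neg_distrib]
    rfl
  rw [← h2]
  exact h1

theorem Bk.rpow {c0 p : ℝ} {k : ℕ} {Φ : Eu (Fin k) → ℝ} (h : Bk c0 p k Φ) (hp : 1 ≤ p) {q : ℝ}
    (hq : 1 ≤ q) : Bk c0 (p * q) k fun x => Φ x ^ q := by
  rcases h with h | ⟨hk, hΦ, hev, hPI⟩
  · exact Or.inl (h.rpow hp hq)
  · have e : {x | Φ x ^ q ≤ 1} = {x | Φ x ≤ 1} := by
      ext x
      have h1 := Real.rpow_le_rpow_iff (z := q) (hΦ.nonneg hp x) zero_le_one (by linarith)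
      rw [Real.one_rpow] at h1
      exact h1
    refine Or.inr ⟨hk, hΦ.rpow hp hq, fun θ => ?_, ?_⟩
    · rw [e]
      exact hev θ
    · rw [e]
      exact hPI

/-- the class of bodies `{∑_{i ∉ J} Φ_i ≤ 1, Φ_j ≤ 1 (j ∈ J)}` -/
def BW (c0 : ℝ) {n : ℕ} (K : Set (Eu (Fin n))) : Prop :=
  ∃ (M : ℕ) (k : Fin M → ℕ) (e : (∀ i, Eu (Fin (k i))) ≃ₗ[ℝ] Eu (Fin n)) (p : Fin M → ℝ)
    (Φ : ∀ i, Eu (Fin (k i)) → ℝ) (J : Finset (Fin M)), (∀ i, 1 ≤ p i) ∧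
    (∀ i, Bk c0 (p i) (k i) (Φ i)) ∧ K = wall e Φ J

theorem bw_cc (hSYM : S_SYM) (hMAT : S_MAT) (hHER : S_HER) (hLIN : S_LIN) (hTEN : S_TEN)
    (hWAL : S_WAL) {c0 : ℝ} (hc0 : 0 ≤ c0) (δ : ℝ) (hδ : 0 < δ) : ∃ κ : ℝ, 0 < κ ∧
    ∀ (n : ℕ) (K : Set (Eu (Fin n))), 1 ≤ n → BW c0 K → Body K ∧ CcW κ δ (ind K) := by
  obtain ⟨κ, hκ, H⟩ := bs_cc hSYM hMAT hHER hLIN hTEN hc0 δ hδ
  refine ⟨κ / 2, by positivity, fun n K hn hK => ?_⟩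
  obtain ⟨M, k, e, p, Φ, J, hp, hΦ, rfl⟩ := hK
  refine hWAL κ δ hκ M n k e Φ p J hn hp (fun i => (bk_pow (hΦ i)).1) fun q hq => ?_
  refine H n _ hn ⟨M, k, e, fun i => if i ∈ J then p i * q else p i, _, fun i => ?_, fun i => ?_,
    rfl⟩
  · by_cases hi : i ∈ J
    · simp only [hi, if_true]
      nlinarith [hp i]
    · simp only [hi, if_false]
      exact hp i
  · by_cases hi : i ∈ J
    · simp only [hi, if_true]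
      exact (hΦ i).rpow (hp i) hq
    · simp only [hi, if_false]
      exact hΦ i

end Pool.Agent.T2H47.KB
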