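import Pool.Agent.R751.MB.Res
import Pool.Agent.T2H47.KB.Bs

/-!
# Block bodies given by norms, with Poincare blocks
-/

set_option autoImplicit false

namespace Pool.Agent.T2H47.KB

open MeasureTheory Set Filter Topology
open scoped ENNReal InnerProductSpace Pointwise
open Pool.Agent.R751.MB (Eu Pow wall Nrm AN)

/-- gauges of Poincare bodies with centroid at the origin -/
structure GK (c0 : ℝ) (k : ℕ) (N : Eu (Fin k) → ℝ) : Prop where
  dim : 1 ≤ k
  pow : Pow 1 N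
  cen : Cen N
  poi : Pool.Agent.R755.KF.PI c0 {x | N x ≤ 1}

/-- the block functions: the old norms, and gauges of Poincare bodies -/
def NK (c0 : ℝ) (k : ℕ) (N : Eu (Fin k) → ℝ) : Prop := AN k N ∨ GK c0 k N

theorem pow_set {κ : Type} [Fintype κ] {N : Eu κ → ℝ} (h : Pow 1 N) {p : ℝ} (hp : 1 ≤ p) :
    {x | N x ^ p ≤ 1} = {x | N x ≤ 1} := by
  ext x
  have h1 := Real.rpow_le_rpow_iff (z := p) (h.nonneg le_rfl x) zero_le_one (by linarith)
  rw [Real.one_rpow] at h1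
  exact h1

theorem NK.bk {c0 : ℝ} {k : ℕ} {N : Eu (Fin k) → ℝ} (h : NK c0 k N) {p : ℝ} (hp : 1 ≤ p) :
    Bk c0 p k fun x => N x ^ p := by
  rcases h with h | ⟨hk, hN, hce, hPI⟩
  · exact Or.inl (h.blk hp)
  · have h1 := hN.rpow le_rfl hp
    rw [one_mul] at h1
    refine Or.inr ⟨hk, h1, fun θ => ?_, ?_⟩
    · rw [pow_set hN hp]
      exact hce θ
    · rw [pow_set hN hp]
      exact hPI

/-- `{x | ∑_{i ∉ J} N_i(x_i)^(p_i) ≤ 1, N_j(x_j) ≤ 1 for j ∈ J}` -/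
def BN (c0 : ℝ) {n : ℕ} (K : Set (Eu (Fin n))) : Prop :=
  ∃ (M : ℕ) (k : Fin M → ℕ) (L : Eu (Fin n) ≃ₗ[ℝ] (∀ i, Eu (Fin (k i)))) (p : Fin M → ℝ)
    (N : ∀ i, Eu (Fin (k i)) → ℝ) (J : Finset (Fin M)), (∀ i, 1 ≤ p i) ∧
    (∀ i, NK c0 (k i) (N i)) ∧
    K = {x | ∑ i ∈ Finset.univ \ J, N i (L x i) ^ p i ≤ 1 ∧ ∀ i ∈ J, N i (L x i) ≤ 1}

theorem BN.bw {c0 : ℝ} {n : ℕ} {K : Set (Eu (Fin n))} (h : BN c0 K) : BW c0 K := by
  obtain ⟨M, k, L, p, N, J, hp, hN, rfl⟩ := h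
  refine ⟨M, k, L.symm, fun i => if i ∈ J then 1 else p i,
    fun i x => N i x ^ (if i ∈ J then 1 else p i : ℝ), J, fun i => ?_, fun i => ?_, ?_⟩
  · by_cases hi : i ∈ J
    · simp only [hi, if_true, le_refl]
    · simp only [hi, if_false]
      exact hp i
  · refine (hN i).bk ?_
    by_cases hi : i ∈ J
    · simp only [hi, if_true, le_refl]
    · simp only [hi, if_false]
      exact hp i
  · ext x
    unfold wall
    simp only [mem_ofPred_eq, LinearEquiv.symm_symm]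
    have h1 : ∑ i ∈ Finset.univ \ J, N i (L x i) ^ (if i ∈ J then 1 else p i : ℝ) =
        ∑ i ∈ Finset.univ \ J, N i (L x i) ^ p i := by
      refine Finset.sum_congr rfl fun i hi => ?_
      rw [if_neg (Finset.mem_sdiff.1 hi).2]
    rw [h1]
    refine and_congr_right fun _ => forall_congr' fun i => ?_
    refine forall_congr' fun hi => ?_
    rw [if_pos hi, Real.rpow_one]

end Pool.Agent.T2H47.KB
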