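import Mathlib
import Pool.Agent.T2H47.KB.Res
import Pool.Agent.T2H47.KB.Low

/-!
# Gauges of convex bodies with centroid at the origin
-/

set_option autoImplicit false

namespace Pool.Agent.T2H47.KB

open MeasureTheory Set Filter Topology
open scoped ENNReal InnerProductSpace
open Pool.Agent.R751.MB (Eu EW VW Adm AP Pow)
open Pool.Agent.R754.KG (un un_prob un_lint un_int)

variable {k : ℕ} {C : Set (Eu (Fin k))}

/-- the centroid of a convex body is an interior point -/
theorem zero_int (hc : IsCompact C) (hv : Convex ℝ C) (hi : (interior C).Nonempty)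
    (hcen : ∀ θ : Eu (Fin k), ∫ x in C, ⟪x, θ⟫_ℝ = 0) : (0 : Eu (Fin k)) ∈ interior C := by
  by_contra h0
  obtain ⟨f, hf⟩ := geometric_hahn_banach_open_point hv.interior isOpen_interior h0
  rw [map_zero] at hf
  obtain ⟨θ, hθ⟩ : ∃ θ : Eu (Fin k), ∀ x, f x = ⟪x, θ⟫_ℝ := by
    refine ⟨(InnerProductSpace.toDual ℝ (Eu (Fin k))).symm f, fun x => ?_⟩
    rw [real_inner_comm, InnerProductSpace.toDual_symm_apply]
  have hcl : C = closure (interior C) := by
    rw [hv.closure_interior_eq_closure_of_nonempty_interior hi, hc.isClosed.closure_eq]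
  have hle : ∀ x ∈ C, f x ≤ 0 := by
    intro x hx
    rw [hcl] at hx
    have h1 : closure (interior C) ⊆ {x | f x ≤ 0} :=
      closure_minimal (fun x hx => (hf x hx).le) (isClosed_le f.continuous continuous_const)
    exact h1 hx
  have h1 := hcen θ
  have hint : IntegrableOn (fun x => -f x) C :=
    (f.continuous.neg).continuousOn.integrableOn_compact hc
  have h2 : ∫ x in C, -f x = 0 := by
    rw [integral_neg]
    simp only [hθ]
    rw [h1, neg_zero]
  have h3 : 0 < ∫ x in C, -f x := by
    rw [integral_pos_iff_support_of_nonneg_ae]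
    · refine lt_of_lt_of_le (isOpen_interior.measure_pos volume hi) ?_
      calc volume (interior C) = (volume.restrict C) (interior C) := by
            rw [Measure.restrict_apply isOpen_interior.measurableSet,
              inter_eq_self_of_subset_left interior_subset]
        _ ≤ _ := measure_mono fun x hx => by
            rw [Function.mem_support]
            have := hf x hx
            linarith
    · filter_upwards [ae_restrict_mem hc.measurableSet] with x hx
      have := hle x hx
      simp only [Pi.zero_apply]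
      linarith
    · exact hint
  linarith

theorem gauge_pow (hc : IsCompact C) (hv : Convex ℝ C) (h0 : (0 : Eu (Fin k)) ∈ interior C) :
    Pow 1 (gauge C) := by
  have hn : C ∈ 𝓝 (0 : Eu (Fin k)) := mem_interior_iff_mem_nhds.1 h0
  have ha : Absorbent ℝ C := absorbent_nhds_zero hn
  refine ⟨⟨convex_univ, fun x _ y _ a b ha' hb hab => ?_⟩, fun r x hr => ?_, fun x hx => ?_⟩
  · refine (gauge_add_le hv ha _ _).trans (le_of_eq ?_)
    rw [gauge_smul_of_nonneg ha', gauge_smul_of_nonneg hb]
  · rw [gauge_smul_of_nonneg hr.le, Real.rpow_one, smul_eq_mul]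
  · exact (gauge_pos ha (NormedSpace.isVonNBounded_of_isBounded ℝ hc.isBounded)).2 hx

theorem gauge_set (hc : IsCompact C) (hv : Convex ℝ C) (h0 : (0 : Eu (Fin k)) ∈ interior C) :
    {x | gauge C x ≤ 1} = C := by
  have hn : C ∈ 𝓝 (0 : Eu (Fin k)) := mem_interior_iff_mem_nhds.1 h0
  ext x
  show gauge C x ≤ 1 ↔ x ∈ C
  rw [gauge_le_one_iff_mem_closure hv hn, hc.isClosed.closure_eq]

theorem gauge_gk {c0 : ℝ} (hk : 1 ≤ k) (hC : Pool.Agent.R755.KF.PI c0 C)
    (hcen : ∀ θ : Eu (Fin k), ∫ x in C, ⟪x, θ⟫_ℝ = 0) : GK c0 k (gauge C) := by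
  have h0 := zero_int hC.comp hC.conv hC.int hcen
  have hs := gauge_set hC.comp hC.conv h0
  refine ⟨hk, gauge_pow hC.comp hC.conv h0, fun θ => ?_, ?_⟩
  · rw [hs]
    exact hcen θ
  · rw [hs]
    exact hC

end Pool.Agent.T2H47.KB
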