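import Pool.Agent.R751.MB.AllD
import Pool.Agent.T2H47.KB.Comp

/-!
# Assembly
-/

set_option autoImplicit false

namespace Pool.Agent.T2H47.KB

open MeasureTheory Set
open Pool.Agent.R751.MB

theorem star_cr (s h : ℕ) (c0 : ℝ) (hc0 : 0 < c0) : ∃ c : ℝ, 0 < c ∧
    ∀ (n : ℕ) (K : Set (Eu (Fin n))), 1 ≤ n →
    Cr s 1 c0 h n K → IsCompact K ∧ Convex ℝ K ∧ (interior K).Nonempty ∧
    Pool.Agent.Y506.RG.Star c (Pool.Agent.Y506.PV.ind K) := by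
  obtain ⟨κ, hκ, H⟩ := cr_cc pSYM pMAT pHER lin ten pWAL prd (fsu (prb prd)) (par wht gen)
    (Pool.Agent.R476.OR.cc_orl (Pool.Agent.R476.OR.gtw Pool.Agent.R476.OR.two
      Pool.Agent.R476.OR.m4r) (Pool.Agent.R476.OR.apz Pool.Agent.R476.OR.limc)
      Pool.Agent.R476.OR.box) s 1 c0 le_rfl hc0 h (1 / 25) (by norm_num)
  obtain ⟨c, hc, H'⟩ := Pool.Agent.Y506.PV.stb Pool.Agent.Y211.PV.iso κ hκ
  refine ⟨c, hc, fun n K hn hK => ?_⟩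
  obtain ⟨⟨h1, h2, h3⟩, h4⟩ := H n K hK
  exact ⟨h1, h2, h3, H' n K h1 h2 h3 h4⟩

end Pool.Agent.T2H47.KB
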